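import Mathlib

set_option autoImplicit false
set_option linter.overlappingInstances false
set_option linter.unusedSectionVars false

open scoped nonZeroDivisors
open FractionalIdeal Matrix

namespace Pool.Agent.H16.PGL

section defs

variable (R K : Type) [CommRing R] [Field K] [Algebra R K]

/-- Nonzero vectors of `K²`. -/
abbrev NZ : Type := {v : Fin 2 → K // v ≠ 0}

variable {K} in
/-- Two nonzero vectors are related when some element of `H ≤ GL₂(K)` moves the line of the first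
one to the line of the second one. -/
def orbRel (H : Subgroup (GL (Fin 2) K)) : Setoid (NZ K) where
  r v w := ∃ g ∈ H, ∃ c : K, c ≠ 0 ∧ (g : Matrix (Fin 2) (Fin 2) K) *ᵥ v.1 = c • w.1
  iseqv :=
    { refl := fun v => ⟨1, H.one_mem, 1, one_ne_zero, by simp⟩
      symm := by
        rintro v w ⟨g, hg, c, hc, h⟩
        refine ⟨g⁻¹, H.inv_mem hg, c⁻¹, inv_ne_zero hc, ?_⟩
        have h1 : ((g⁻¹ : GL (Fin 2) K) : Matrix (Fin 2) (Fin 2) K) *ᵥ
            ((g : Matrix (Fin 2) (Fin 2) K) *ᵥ v.1) = v.1 := by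
          rw [Matrix.mulVec_mulVec, ← Units.val_mul]; simp
        rw [h, Matrix.mulVec_smul] at h1
        rw [← h1, smul_smul, inv_mul_cancel₀ hc, one_smul]
      trans := by
        rintro u v w ⟨g, hg, c, hc, h⟩ ⟨g', hg', c', hc', h'⟩
        refine ⟨g' * g, H.mul_mem hg' hg, c * c', mul_ne_zero hc hc', ?_⟩
        rw [Units.val_mul, ← Matrix.mulVec_mulVec, h, Matrix.mulVec_smul, h', smul_smul] }

variable {K} in
/-- The set of orbits of `H ≤ GL₂(K)` on the projective line `ℙ¹(K)`. -/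
def OrbitSpace (H : Subgroup (GL (Fin 2) K)) : Type := Quotient (orbRel H)

/-- The subring `M₂(R)` of `M₂(K)` (as a set). -/
def M2 : Set (Matrix (Fin 2) (Fin 2) K) := {X | ∀ i j, ∃ r : R, algebraMap R K r = X i j}

/-- The group `SL₂(R)`, inside `GL₂(K)`. -/
def SL2 : Subgroup (GL (Fin 2) K) where
  carrier := {g | ∃ A : Matrix (Fin 2) (Fin 2) R, A.det = 1 ∧
    (g : Matrix (Fin 2) (Fin 2) K) = A.map (algebraMap R K)}
  one_mem' := ⟨1, by simp, by simp⟩
  mul_mem' := by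
    rintro g h ⟨A, hA, hgA⟩ ⟨B, hB, hhB⟩
    refine ⟨A * B, by simp [hA, hB], ?_⟩
    rw [Units.val_mul, hgA, hhB, Matrix.map_mul]
  inv_mem' := by
    rintro g ⟨A, hA, hgA⟩
    refine ⟨A.adjugate, by simp [Matrix.det_adjugate, hA], ?_⟩
    have h1 : (g : Matrix (Fin 2) (Fin 2) K) * A.adjugate.map (algebraMap R K) = 1 := by
      rw [hgA, ← Matrix.map_mul, Matrix.mul_adjugate, hA]; simp
    calc ((g⁻¹ : GL (Fin 2) K) : Matrix (Fin 2) (Fin 2) K)
        = ((g⁻¹ : GL (Fin 2) K) : Matrix (Fin 2) (Fin 2) K) *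
          ((g : Matrix (Fin 2) (Fin 2) K) * A.adjugate.map (algebraMap R K)) := by rw [h1, mul_one]
      _ = _ := by rw [← mul_assoc, ← Units.val_mul]; simp

/-- The preimage in `GL₂(K)` of the group `PGL₂(R)` of `R`-points of `PGL₂ = Aut(M₂)`:
the elements of `GL₂(K)` conjugation by which maps `M₂(R)` onto itself. -/
def PGL2 : Subgroup (GL (Fin 2) K) where
  carrier := {g | ∀ X : Matrix (Fin 2) (Fin 2) K, X ∈ M2 R K ↔
    (g : Matrix (Fin 2) (Fin 2) K) * X * ((g⁻¹ : GL (Fin 2) K) : Matrix (Fin 2) (Fin 2) K) ∈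
      M2 R K}
  one_mem' := by intro X; simp
  mul_mem' := by
    intro g h hg hh X
    rw [hh X, hg _]
    simp [mul_assoc]
  inv_mem' := by
    intro g hg X
    rw [hg (((g⁻¹ : GL (Fin 2) K) : Matrix (Fin 2) (Fin 2) K) * X *
      (((g⁻¹)⁻¹ : GL (Fin 2) K) : Matrix (Fin 2) (Fin 2) K))]
    have : (g : Matrix (Fin 2) (Fin 2) K) * (((g⁻¹ : GL (Fin 2) K) : Matrix (Fin 2) (Fin 2) K) * X *
      (((g⁻¹)⁻¹ : GL (Fin 2) K) : Matrix (Fin 2) (Fin 2) K)) *
      ((g⁻¹ : GL (Fin 2) K) : Matrix (Fin 2) (Fin 2) K) = X := by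
      rw [inv_inv]
      have e1 : (g : Matrix (Fin 2) (Fin 2) K) *
        ((g⁻¹ : GL (Fin 2) K) : Matrix (Fin 2) (Fin 2) K) = 1 := by
        rw [← Units.val_mul]; simp
      calc _ = ((g : Matrix (Fin 2) (Fin 2) K) *
        ((g⁻¹ : GL (Fin 2) K) : Matrix (Fin 2) (Fin 2) K)) * X * ((g : Matrix (Fin 2) (Fin 2) K) *
        ((g⁻¹ : GL (Fin 2) K) : Matrix (Fin 2) (Fin 2) K)) := by simp only [mul_assoc]
        _ = X := by rw [e1]; simp
    rw [this]

end defs

section dedekind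

variable {R K : Type} [CommRing R] [IsDomain R] [IsDedekindDomain R] [Field K] [Algebra R K]
  [IsFractionRing R K]

/-- The fractional ideal generated by the coordinates of a vector. -/
noncomputable def I (R : Type) {K : Type} [CommRing R] [IsDomain R] [Field K] [Algebra R K]
  [IsFractionRing R K] (v : Fin 2 → K) : FractionalIdeal R⁰ K :=
  spanSingleton R⁰ (v 0) + spanSingleton R⁰ (v 1)

lemma I_le_iff (v : Fin 2 → K) (J : FractionalIdeal R⁰ K) :
    I R v ≤ J ↔ v 0 ∈ J ∧ v 1 ∈ J := by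
  unfold I
  rw [← FractionalIdeal.sup_eq_add, sup_le_iff, spanSingleton_le_iff_mem, spanSingleton_le_iff_mem]

lemma mem0 (v : Fin 2 → K) : v 0 ∈ I R v := ((I_le_iff v (I R v)).1 le_rfl).1
lemma mem1 (v : Fin 2 → K) : v 1 ∈ I R v := ((I_le_iff v (I R v)).1 le_rfl).2

lemma I_ne_zero {v : Fin 2 → K} (hv : v ≠ 0) : I R v ≠ 0 := by
  intro h
  apply hv
  have h0 := mem0 (R := R) v
  have h1 := mem1 (R := R) v
  rw [h, mem_zero_iff] at h0 h1
  funext i
  fin_cases i <;> simpa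

lemma I_map_le (A : Matrix (Fin 2) (Fin 2) R) (v : Fin 2 → K) :
    I R ((A.map (algebraMap R K)) *ᵥ v) ≤ I R v := by
  rw [I_le_iff]
  have key : ∀ i, ((A.map (algebraMap R K)) *ᵥ v) i ∈ I R v := by
    intro i
    have : ((A.map (algebraMap R K)) *ᵥ v) i = A i 0 • v 0 + A i 1 • v 1 := by
      simp [Matrix.mulVec, dotProduct, Fin.sum_univ_two, Algebra.smul_def]
    rw [this]
    exact Submodule.add_mem (I R v : Submodule R K) (Submodule.smul_mem (I R v : Submodule R K) _ (mem0 v))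
      (Submodule.smul_mem (I R v : Submodule R K) _ (mem1 v))
  exact ⟨key 0, key 1⟩

lemma I_SL2 {g : GL (Fin 2) K} (hg : g ∈ SL2 R K) (v : Fin 2 → K) :
    I R ((g : Matrix (Fin 2) (Fin 2) K) *ᵥ v) = I R v := by
  obtain ⟨A, hA, hgA⟩ := hg
  obtain ⟨B, hB, hgB⟩ := (SL2 R K).inv_mem ⟨A, hA, hgA⟩
  apply le_antisymm
  · rw [hgA]; exact I_map_le A v
  · have : v = ((g⁻¹ : GL (Fin 2) K) : Matrix (Fin 2) (Fin 2) K) *ᵥ
        ((g : Matrix (Fin 2) (Fin 2) K) *ᵥ v) := by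
      rw [Matrix.mulVec_mulVec, ← Units.val_mul]; simp
    conv_lhs => rw [this, hgB]
    exact I_map_le B _

lemma I_smul (c : K) (v : Fin 2 → K) : I R (c • v) = spanSingleton R⁰ c * I R v := by
  unfold I
  rw [mul_add, spanSingleton_mul_spanSingleton, spanSingleton_mul_spanSingleton]
  simp

lemma exists_bezout {v : Fin 2 → K} (hv : v ≠ 0) :
    ∃ p ∈ (I R v)⁻¹, ∃ q ∈ (I R v)⁻¹, v 0 * p + v 1 * q = 1 := by
  have h1 : (1 : K) ∈ I R v * (I R v)⁻¹ := by
    rw [mul_inv_cancel₀ (I_ne_zero hv)]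
    exact one_mem_one _
  have h2 : I R v * (I R v)⁻¹ = spanSingleton R⁰ (v 0) * (I R v)⁻¹ +
      spanSingleton R⁰ (v 1) * (I R v)⁻¹ := by
    conv_lhs => rw [I, add_mul]
    rfl
  rw [h2, mem_add] at h1
  obtain ⟨i, hi, j, hj, hij⟩ := h1
  rw [mem_singleton_mul] at hi hj
  obtain ⟨p, hp, rfl⟩ := hi
  obtain ⟨q, hq, rfl⟩ := hj
  exact ⟨p, hp, q, hq, hij⟩

lemma trans_SL2 {v w : Fin 2 → K} (hv : v ≠ 0) (hw : w ≠ 0) (h : I R v = I R w) :
    ∃ g ∈ SL2 R K, (g : Matrix (Fin 2) (Fin 2) K) *ᵥ v = w := by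
  obtain ⟨p, hp, q, hq, h1⟩ := exists_bezout (R := R) hv
  obtain ⟨p', hp', q', hq', h2⟩ := exists_bezout (R := R) hw
  rw [← h] at hp' hq'
  have hw0 : w 0 ∈ I R v := h ▸ mem0 w
  have hw1 : w 1 ∈ I R v := h ▸ mem1 w
  have hv0 : v 0 ∈ I R v := mem0 v
  have hv1 : v 1 ∈ I R v := mem1 v
  have hone : I R v * (I R v)⁻¹ = 1 := mul_inv_cancel₀ (I_ne_zero hv)
  have mm : ∀ {x y : K}, x ∈ I R v → y ∈ (I R v)⁻¹ → ∃ r : R, algebraMap R K r = x * y := by
    intro x y hx hy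
    have := mul_mem_mul hx hy
    rw [hone, mem_one_iff] at this
    exact this
  obtain ⟨r1, e1⟩ := mm hw0 hp
  obtain ⟨r2, e2⟩ := mm hv1 hq'
  obtain ⟨r3, e3⟩ := mm hw0 hq
  obtain ⟨r4, e4⟩ := mm hv0 hq'
  obtain ⟨r5, e5⟩ := mm hw1 hp
  obtain ⟨r6, e6⟩ := mm hv1 hp'
  obtain ⟨r7, e7⟩ := mm hw1 hq
  obtain ⟨r8, e8⟩ := mm hv0 hp'
  set A : Matrix (Fin 2) (Fin 2) R := !![r1 + r2, r3 - r4; r5 - r6, r7 + r8] with hA
  have hdet : A.det = 1 := by
    apply IsFractionRing.injective R K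
    rw [hA, Matrix.det_fin_two_of]
    simp only [map_sub, map_mul, map_add, map_one, e1, e2, e3, e4, e5, e6, e7, e8]
    linear_combination (w 0 * p' + w 1 * q') * h1 + h2
  have hAu : IsUnit (A.map (algebraMap R K)) := by
    rw [Matrix.isUnit_iff_isUnit_det]
    have : (A.map (algebraMap R K)).det = algebraMap R K A.det := by
      rw [RingHom.map_det]; rfl
    rw [this, hdet]; simp
  obtain ⟨g, hg⟩ := hAu
  refine ⟨g, ⟨A, hdet, hg⟩, ?_⟩
  rw [hg]
  funext i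
  fin_cases i
  · simp [hA, Matrix.mulVec, dotProduct, Fin.sum_univ_two, e1, e2, e3, e4]
    linear_combination (w 0) * h1
  · simp [hA, Matrix.mulVec, dotProduct, Fin.sum_univ_two, e5, e6, e7, e8]
    linear_combination (w 1) * h1

/-- the class of the ideal of a nonzero vector -/
noncomputable def cls (R : Type) {K : Type} [CommRing R] [IsDomain R] [IsDedekindDomain R]
    [Field K] [Algebra R K] [IsFractionRing R K] (v : NZ K) : ClassGroup R :=
  ClassGroup.mk K (Units.mk0 (I R v.1) (I_ne_zero v.2))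

lemma cls_eq_iff (v w : NZ K) :
    cls R v = cls R w ↔ ∃ c : K, c ≠ 0 ∧ I R v.1 = I R (c • w.1) := by
  unfold cls
  constructor
  · intro h
    rw [← mul_inv_eq_one, ← map_inv, ← map_mul, ClassGroup.mk_eq_one_iff] at h
    obtain ⟨c, hc⟩ := h
    have hc' : ((Units.mk0 (I R v.1) (I_ne_zero v.2) * (Units.mk0 (I R w.1) (I_ne_zero w.2))⁻¹ :
        (FractionalIdeal R⁰ K)ˣ) : FractionalIdeal R⁰ K) = spanSingleton R⁰ c := by
      apply Subtype.coe_injective
      simp only [val_eq_coe, hc, coe_spanSingleton]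
    have h2 : I R v.1 = spanSingleton R⁰ c * I R w.1 := by
      rw [← hc']
      simp [mul_assoc, inv_mul_cancel₀ (I_ne_zero (R := R) w.2)]
    refine ⟨c, ?_, by rw [I_smul]; exact h2⟩
    rintro rfl
    apply I_ne_zero (R := R) v.2
    rw [h2]; simp
  · rintro ⟨c, hc, h⟩
    rw [I_smul] at h
    rw [← mul_inv_eq_one, ← map_inv, ← map_mul, ClassGroup.mk_eq_one_iff]
    refine ⟨c, ?_⟩
    have : ((Units.mk0 (I R v.1) (I_ne_zero v.2) * (Units.mk0 (I R w.1) (I_ne_zero w.2))⁻¹ :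
        (FractionalIdeal R⁰ K)ˣ) : FractionalIdeal R⁰ K) = spanSingleton R⁰ c := by
      simp [h, mul_assoc, mul_inv_cancel₀ (I_ne_zero (R := R) w.2)]
    rw [this, coe_spanSingleton]

lemma rel_iff (v w : NZ K) : (orbRel (SL2 R K)).r v w ↔ cls R v = cls R w := by
  rw [cls_eq_iff]
  constructor
  · rintro ⟨g, hg, c, hc, h⟩
    exact ⟨c, hc, by rw [← h, I_SL2 hg]⟩
  · rintro ⟨c, hc, h⟩
    have hcw : c • w.1 ≠ 0 := smul_ne_zero hc w.2
    obtain ⟨g, hg, hgv⟩ := trans_SL2 v.2 hcw h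
    exact ⟨g, hg, c, hc, hgv⟩

/-- the classical injection of the set of `SL₂(R)`-orbits into the class group -/
noncomputable def toClass : OrbitSpace (SL2 R K) → ClassGroup R :=
  Quotient.lift (cls R) (fun v w h => (rel_iff v w).1 h)

lemma toClass_injective : Function.Injective (toClass (R := R) (K := K)) := by
  intro a b
  induction a using Quotient.inductionOn
  induction b using Quotient.inductionOn
  intro h
  exact Quotient.sound ((rel_iff _ _).2 h)

lemma SL2_le_PGL2 : SL2 R K ≤ PGL2 R K := by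
  have key : ∀ g ∈ SL2 R K, ∀ X ∈ M2 R K, (g : Matrix (Fin 2) (Fin 2) K) * X *
      ((g⁻¹ : GL (Fin 2) K) : Matrix (Fin 2) (Fin 2) K) ∈ M2 R K := by
    intro g hg X hX
    obtain ⟨A, hA, hgA⟩ := hg
    obtain ⟨B, hB, hgB⟩ := (SL2 R K).inv_mem ⟨A, hA, hgA⟩
    choose x hx using hX
    have hX' : X = (Matrix.of x).map (algebraMap R K) := by
      ext i j; simp [hx]
    intro i j
    refine ⟨(A * Matrix.of x * B) i j, ?_⟩
    rw [hgA, hgB, hX', ← Matrix.map_mul, ← Matrix.map_mul]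
    simp
  intro g hg X
  constructor
  · exact key g hg X
  · intro h
    have := key g⁻¹ ((SL2 R K).inv_mem hg) _ h
    have e1 : ((g⁻¹ : GL (Fin 2) K) : Matrix (Fin 2) (Fin 2) K) * (g : Matrix (Fin 2) (Fin 2) K) = 1 := by
      rw [← Units.val_mul]; simp
    have e2 : ((g⁻¹ : GL (Fin 2) K) : Matrix (Fin 2) (Fin 2) K) * ((g : Matrix (Fin 2) (Fin 2) K) * X *
      ((g⁻¹ : GL (Fin 2) K) : Matrix (Fin 2) (Fin 2) K)) *
      (((g⁻¹)⁻¹ : GL (Fin 2) K) : Matrix (Fin 2) (Fin 2) K) = X := by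
      rw [inv_inv]
      calc _ = (((g⁻¹ : GL (Fin 2) K) : Matrix (Fin 2) (Fin 2) K) * (g : Matrix (Fin 2) (Fin 2) K)) * X *
        (((g⁻¹ : GL (Fin 2) K) : Matrix (Fin 2) (Fin 2) K) * (g : Matrix (Fin 2) (Fin 2) K)) := by
            simp only [mul_assoc]
        _ = X := by rw [e1]; simp
    rwa [e2] at this

end dedekind

end Pool.Agent.H16.PGL
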