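import Mathlib
import Pool.Agent.H16.PGL1

set_option autoImplicit false
set_option linter.overlappingInstances false
set_option linter.unusedSectionVars false

open scoped nonZeroDivisors
open FractionalIdeal Matrix

namespace Pool.Agent.H16.PGL

variable {R K : Type} [CommRing R] [IsDomain R] [IsDedekindDomain R] [Field K] [Algebra R K]
  [IsFractionRing R K]

lemma M2_of_entries {J : FractionalIdeal R⁰ K} {δ : K} (hδ : δ ≠ 0)
    (hJ : J * J ≤ spanSingleton R⁰ δ) {P Q X : Matrix (Fin 2) (Fin 2) K}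
    (hP : ∀ i j, P i j ∈ J) (hQ : ∀ i j, Q i j ∈ J) (hX : X ∈ M2 R K) :
    P * X * (δ⁻¹ • Q) ∈ M2 R K := by
  have key : ∀ i j k l, ∃ r : R, algebraMap R K r = P i j * Q k l * δ⁻¹ := by
    intro i j k l
    have := hJ (mul_mem_mul (hP i j) (hQ k l))
    rw [mem_spanSingleton] at this
    obtain ⟨r, hr⟩ := this
    refine ⟨r, ?_⟩
    rw [← hr, Algebra.smul_def, mul_assoc, mul_inv_cancel₀ hδ, mul_one]
  choose f hf using key
  choose x hx using hX
  intro i j
  refine ⟨f i 0 0 j * x 0 0 + f i 1 0 j * x 1 0 + f i 0 1 j * x 0 1 + f i 1 1 j * x 1 1, ?_⟩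
  simp only [map_add, map_mul, hf, hx, Matrix.mul_apply, Fin.sum_univ_two, Matrix.smul_apply,
    smul_eq_mul]
  ring

lemma adj_mem {J : FractionalIdeal R⁰ K} {P : Matrix (Fin 2) (Fin 2) K}
    (hP : ∀ i j, P i j ∈ J) : ∀ i j, P.adjugate i j ∈ J := by
  intro i j
  rw [Matrix.adjugate_fin_two]
  have hn : ∀ x : K, x ∈ J → -x ∈ J := fun x hx => Submodule.neg_mem (J : Submodule R K) hx
  fin_cases i <;> fin_cases j
  · simpa using hP 1 1
  · simpa using hn _ (hP 0 1)
  · simpa using hn _ (hP 1 0)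
  · simpa using hP 0 0

lemma inv_eq (g : GL (Fin 2) K) : ((g⁻¹ : GL (Fin 2) K) : Matrix (Fin 2) (Fin 2) K) =
    (g : Matrix (Fin 2) (Fin 2) K).det⁻¹ • (g : Matrix (Fin 2) (Fin 2) K).adjugate := by
  have hd : (g : Matrix (Fin 2) (Fin 2) K).det ≠ 0 := by
    have := (Matrix.isUnit_iff_isUnit_det _).1 g.isUnit
    exact this.ne_zero
  have h1 : (g : Matrix (Fin 2) (Fin 2) K) *
      ((g : Matrix (Fin 2) (Fin 2) K).det⁻¹ • (g : Matrix (Fin 2) (Fin 2) K).adjugate) = 1 := by
    rw [Matrix.mul_smul, Matrix.mul_adjugate, smul_smul, inv_mul_cancel₀ hd, one_smul]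
  calc ((g⁻¹ : GL (Fin 2) K) : Matrix (Fin 2) (Fin 2) K)
      = ((g⁻¹ : GL (Fin 2) K) : Matrix (Fin 2) (Fin 2) K) * ((g : Matrix (Fin 2) (Fin 2) K) *
        ((g : Matrix (Fin 2) (Fin 2) K).det⁻¹ • (g : Matrix (Fin 2) (Fin 2) K).adjugate)) := by
          rw [h1, mul_one]
    _ = _ := by rw [← mul_assoc, ← Units.val_mul]; simp

lemma det_ne (g : GL (Fin 2) K) : (g : Matrix (Fin 2) (Fin 2) K).det ≠ 0 :=
  ((Matrix.isUnit_iff_isUnit_det _).1 g.isUnit).ne_zero

lemma mem_PGL2_of {J : FractionalIdeal R⁰ K} (g : GL (Fin 2) K)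
    (hg : ∀ i j, (g : Matrix (Fin 2) (Fin 2) K) i j ∈ J)
    (hJ : J * J ≤ spanSingleton R⁰ (g : Matrix (Fin 2) (Fin 2) K).det) : g ∈ PGL2 R K := by
  intro X
  constructor
  · intro hX
    rw [inv_eq]
    exact M2_of_entries (det_ne g) hJ hg (adj_mem hg) hX
  · intro hX
    have h2 := M2_of_entries (det_ne g) hJ (adj_mem hg) hg hX
    have e : X = (g : Matrix (Fin 2) (Fin 2) K).adjugate *
        ((g : Matrix (Fin 2) (Fin 2) K) * X * ((g⁻¹ : GL (Fin 2) K) : Matrix (Fin 2) (Fin 2) K)) *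
        ((g : Matrix (Fin 2) (Fin 2) K).det⁻¹ • (g : Matrix (Fin 2) (Fin 2) K)) := by
      have e1 : ((g⁻¹ : GL (Fin 2) K) : Matrix (Fin 2) (Fin 2) K) *
          (g : Matrix (Fin 2) (Fin 2) K) = 1 := by
        rw [← Units.val_mul]; simp
      calc X = (g : Matrix (Fin 2) (Fin 2) K).det⁻¹ • ((g : Matrix (Fin 2) (Fin 2) K).det • X) := by
            rw [smul_smul, inv_mul_cancel₀ (det_ne g), one_smul]
        _ = (g : Matrix (Fin 2) (Fin 2) K).det⁻¹ •
            (((g : Matrix (Fin 2) (Fin 2) K).adjugate * (g : Matrix (Fin 2) (Fin 2) K)) * X *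
              (((g⁻¹ : GL (Fin 2) K) : Matrix (Fin 2) (Fin 2) K) *
                (g : Matrix (Fin 2) (Fin 2) K))) := by
            rw [e1, Matrix.adjugate_mul]; simp
        _ = _ := by
            rw [Matrix.mul_smul]; simp only [mul_assoc]
    rwa [← e] at h2

/-- The fractional ideal generated by the entries of a matrix. -/
noncomputable def E (R : Type) {K : Type} [CommRing R] [IsDomain R] [Field K] [Algebra R K]
  [IsFractionRing R K] (P : Matrix (Fin 2) (Fin 2) K) : FractionalIdeal R⁰ K :=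
  I R (P 0) + I R (P 1)

lemma mem_E (P : Matrix (Fin 2) (Fin 2) K) : ∀ i j, P i j ∈ E R P := by
  have h : I R (P 0) ≤ E R P ∧ I R (P 1) ≤ E R P := by
    have : I R (P 0) ⊔ I R (P 1) ≤ E R P := by rw [FractionalIdeal.sup_eq_add]; exact le_rfl
    exact sup_le_iff.1 this
  intro i j
  fin_cases i
  · fin_cases j
    · exact h.1 (mem0 (P 0))
    · exact h.1 (mem1 (P 0))
  · fin_cases j
    · exact h.2 (mem0 (P 1))
    · exact h.2 (mem1 (P 1))

lemma E_le_iff (P : Matrix (Fin 2) (Fin 2) K) (J : FractionalIdeal R⁰ K) :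
    E R P ≤ J ↔ ∀ i j, P i j ∈ J := by
  constructor
  · intro h i j
    exact h (mem_E P i j)
  · intro h
    unfold E
    rw [← FractionalIdeal.sup_eq_add, sup_le_iff, I_le_iff, I_le_iff]
    exact ⟨⟨h 0 0, h 0 1⟩, ⟨h 1 0, h 1 1⟩⟩

lemma PGL2_mul_mem {g : GL (Fin 2) K} (hg : g ∈ PGL2 R K) (i j k l : Fin 2) :
    (g : Matrix (Fin 2) (Fin 2) K) i j * (g : Matrix (Fin 2) (Fin 2) K) k l ∈
      spanSingleton R⁰ (g : Matrix (Fin 2) (Fin 2) K).det := by
  have hd := det_ne g
  -- conjugating the matrix units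
  have key : ∀ i j k l : Fin 2, ∃ r : R, algebraMap R K r =
      (g : Matrix (Fin 2) (Fin 2) K) i j * ((g : Matrix (Fin 2) (Fin 2) K).det⁻¹ *
        (g : Matrix (Fin 2) (Fin 2) K).adjugate k l) := by
    intro i j k l
    have h1 : Matrix.single j k (1 : K) ∈ M2 R K := by
      intro a b
      by_cases h : j = a ∧ k = b
      · exact ⟨1, by simp [Matrix.single, h]⟩
      · exact ⟨0, by simp [Matrix.single, h]⟩
    obtain ⟨r, hr⟩ := (hg _).1 h1 i l
    refine ⟨r, ?_⟩
    rw [hr, inv_eq]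
    rw [Matrix.mul_assoc, Matrix.mul_apply, Fin.sum_univ_two]
    fin_cases j <;> fin_cases k <;> simp [Matrix.single, Matrix.mul_apply, Fin.sum_univ_two]
  have fin : ∀ (a b : K) (r : R), algebraMap R K r = a * ((g : Matrix (Fin 2) (Fin 2) K).det⁻¹ * b) →
      a * b ∈ spanSingleton R⁰ (g : Matrix (Fin 2) (Fin 2) K).det := by
    intro a b r hr
    rw [mem_spanSingleton]
    refine ⟨r, ?_⟩
    rw [Algebra.smul_def, hr]
    field_simp
  have hn : ∀ x : K, -x ∈ spanSingleton R⁰ (g : Matrix (Fin 2) (Fin 2) K).det →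
      x ∈ spanSingleton R⁰ (g : Matrix (Fin 2) (Fin 2) K).det := by
    intro x hx
    have := Submodule.neg_mem (spanSingleton R⁰ (g : Matrix (Fin 2) (Fin 2) K).det : Submodule R K) hx
    rwa [neg_neg] at this
  fin_cases k <;> fin_cases l
  · obtain ⟨r, hr⟩ := key i j 1 1
    have := fin _ _ r hr
    simpa [Matrix.adjugate_fin_two] using this
  · obtain ⟨r, hr⟩ := key i j 0 1
    have := fin _ _ r hr
    apply hn
    simpa [Matrix.adjugate_fin_two] using this
  · obtain ⟨r, hr⟩ := key i j 1 0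
    have := fin _ _ r hr
    apply hn
    simpa [Matrix.adjugate_fin_two] using this
  · obtain ⟨r, hr⟩ := key i j 0 0
    have := fin _ _ r hr
    simpa [Matrix.adjugate_fin_two] using this

lemma PGL2_E {g : GL (Fin 2) K} (hg : g ∈ PGL2 R K) :
    E R (g : Matrix (Fin 2) (Fin 2) K) * E R (g : Matrix (Fin 2) (Fin 2) K) =
      spanSingleton R⁰ (g : Matrix (Fin 2) (Fin 2) K).det := by
  apply le_antisymm
  · rw [FractionalIdeal.mul_le]
    intro a ha b hb
    -- fix b among entries, then a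
    set D : FractionalIdeal R⁰ K := spanSingleton R⁰ (g : Matrix (Fin 2) (Fin 2) K).det
    have mulmem : ∀ (P : FractionalIdeal R⁰ K) (x : K), (∀ z ∈ P, x * z ∈ D) →
        spanSingleton R⁰ x * P ≤ D := by
      intro P x h
      rw [FractionalIdeal.mul_le]
      intro u hu w hw
      rw [mem_spanSingleton] at hu
      obtain ⟨r, rfl⟩ := hu
      rw [smul_mul_assoc]
      exact Submodule.smul_mem (D : Submodule R K) _ (h w hw)
    have step1 : ∀ i j, ∀ z ∈ E R (g : Matrix (Fin 2) (Fin 2) K),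
        (g : Matrix (Fin 2) (Fin 2) K) i j * z ∈ D := by
      intro i j z hz
      have hle : E R (g : Matrix (Fin 2) (Fin 2) K) ≤
          spanSingleton R⁰ ((g : Matrix (Fin 2) (Fin 2) K) i j)⁻¹ * D ∨
          (g : Matrix (Fin 2) (Fin 2) K) i j = 0 := by
        by_cases h0 : (g : Matrix (Fin 2) (Fin 2) K) i j = 0
        · exact Or.inr h0
        · left
          rw [E_le_iff]
          intro k l
          rw [mem_singleton_mul]
          exact ⟨_, PGL2_mul_mem hg i j k l, by field_simp⟩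
      rcases hle with hle | h0
      · by_cases h0 : (g : Matrix (Fin 2) (Fin 2) K) i j = 0
        · rw [h0, zero_mul]; exact Submodule.zero_mem (D : Submodule R K)
        · have := hle hz
          rw [mem_singleton_mul] at this
          obtain ⟨y, hy, rfl⟩ := this
          rw [← mul_assoc, mul_inv_cancel₀ h0, one_mul]
          exact hy
      · rw [h0, zero_mul]; exact Submodule.zero_mem (D : Submodule R K)
    by_cases hb0 : b = 0
    · rw [hb0, mul_zero]; exact Submodule.zero_mem (D : Submodule R K)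
    · have hle : E R (g : Matrix (Fin 2) (Fin 2) K) ≤ spanSingleton R⁰ b⁻¹ * D := by
        rw [E_le_iff]
        intro i j
        rw [mem_singleton_mul]
        exact ⟨_, step1 i j b hb, by field_simp⟩
      have := hle ha
      rw [mem_singleton_mul] at this
      obtain ⟨y, hy, rfl⟩ := this
      have e : b⁻¹ * y * b = y := by field_simp
      rw [e]; exact hy
  · rw [spanSingleton_le_iff_mem, Matrix.det_fin_two]
    exact Submodule.sub_mem (_ : Submodule R K) (mul_mem_mul (mem_E _ 0 0) (mem_E _ 1 1))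
      (mul_mem_mul (mem_E _ 0 1) (mem_E _ 1 0))

lemma I_mulVec_le (P : Matrix (Fin 2) (Fin 2) K) {J : FractionalIdeal R⁰ K}
    (hP : ∀ i j, P i j ∈ J) (v : Fin 2 → K) : I R (P *ᵥ v) ≤ J * I R v := by
  rw [I_le_iff]
  have key : ∀ i, (P *ᵥ v) i ∈ J * I R v := by
    intro i
    simp only [Matrix.mulVec, dotProduct, Fin.sum_univ_two]
    exact Submodule.add_mem (_ : Submodule R K) (mul_mem_mul (hP i 0) (mem0 v))
      (mul_mem_mul (hP i 1) (mem1 v))
  exact ⟨key 0, key 1⟩

lemma I_PGL2 {g : GL (Fin 2) K} (hg : g ∈ PGL2 R K) (v : Fin 2 → K) :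
    I R ((g : Matrix (Fin 2) (Fin 2) K) *ᵥ v) = E R (g : Matrix (Fin 2) (Fin 2) K) * I R v := by
  have hd := det_ne g
  apply le_antisymm
  · exact I_mulVec_le _ (mem_E _) v
  · have hv : v = ((g⁻¹ : GL (Fin 2) K) : Matrix (Fin 2) (Fin 2) K) *ᵥ
        ((g : Matrix (Fin 2) (Fin 2) K) *ᵥ v) := by
      rw [Matrix.mulVec_mulVec, ← Units.val_mul]; simp
    have h1 : I R v ≤ (spanSingleton R⁰ (g : Matrix (Fin 2) (Fin 2) K).det⁻¹ *
        E R (g : Matrix (Fin 2) (Fin 2) K)) * I R ((g : Matrix (Fin 2) (Fin 2) K) *ᵥ v) := by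
      conv_lhs => rw [hv]
      apply I_mulVec_le
      intro i j
      rw [inv_eq, Matrix.smul_apply, smul_eq_mul, mem_singleton_mul]
      exact ⟨_, adj_mem (mem_E _) i j, rfl⟩
    calc E R (g : Matrix (Fin 2) (Fin 2) K) * I R v
        ≤ E R (g : Matrix (Fin 2) (Fin 2) K) *
          ((spanSingleton R⁰ (g : Matrix (Fin 2) (Fin 2) K).det⁻¹ *
            E R (g : Matrix (Fin 2) (Fin 2) K)) * I R ((g : Matrix (Fin 2) (Fin 2) K) *ᵥ v)) := by
          gcongr
      _ = (spanSingleton R⁰ (g : Matrix (Fin 2) (Fin 2) K).det⁻¹ *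
          (E R (g : Matrix (Fin 2) (Fin 2) K) * E R (g : Matrix (Fin 2) (Fin 2) K))) *
            I R ((g : Matrix (Fin 2) (Fin 2) K) *ᵥ v) := by ring
      _ = I R ((g : Matrix (Fin 2) (Fin 2) K) *ᵥ v) := by
          rw [PGL2_E hg, spanSingleton_mul_spanSingleton, inv_mul_cancel₀ hd, spanSingleton_one,
            one_mul]

end Pool.Agent.H16.PGL
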