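import Mathlib
import Pool.Agent.H16.PGL2

set_option autoImplicit false
set_option linter.overlappingInstances false
set_option linter.unusedSectionVars false

open scoped nonZeroDivisors
open FractionalIdeal Matrix

namespace Pool.Agent.H16.PGL

variable {R K : Type} [CommRing R] [IsDomain R] [IsDedekindDomain R] [Field K] [Algebra R K]
  [IsFractionRing R K]

lemma trans_PGL2 {v w : Fin 2 → K} (hv : v ≠ 0) (hw : w ≠ 0) {J : FractionalIdeal R⁰ K} {δ : K}
    (hδ : δ ≠ 0) (hJ : J * J = spanSingleton R⁰ δ) (h : I R w = J * I R v) :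
    ∃ g ∈ PGL2 R K, (g : Matrix (Fin 2) (Fin 2) K) *ᵥ v = w := by
  obtain ⟨p, hp, q, hq, h1⟩ := exists_bezout (R := R) hv
  obtain ⟨p', hp', q', hq', h2⟩ := exists_bezout (R := R) hw
  have hIv := I_ne_zero (R := R) hv
  have hIw := I_ne_zero (R := R) hw
  have hJ0 : J ≠ 0 := by
    rintro rfl
    apply hIw
    rw [h, zero_mul]
  have mm : ∀ {x y : K}, x ∈ I R w → y ∈ (I R v)⁻¹ → x * y ∈ J := by
    intro x y hx hy
    have := mul_mem_mul hx hy
    rwa [h, mul_assoc, mul_inv_cancel₀ hIv, mul_one] at this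
  have nn : ∀ {x y : K}, x ∈ (I R w)⁻¹ → y ∈ I R v → δ * x * y ∈ J := by
    intro x y hx hy
    have h3 : δ ∈ spanSingleton R⁰ δ := mem_spanSingleton_self _ _
    have := mul_mem_mul (mul_mem_mul h3 hx) hy
    rw [h, ← hJ] at this
    have e : J * J * (J * I R v)⁻¹ * I R v = J := by
      field_simp
    rwa [e] at this
  set A : Matrix (Fin 2) (Fin 2) K := !![w 0 * p + δ * q' * v 1, w 0 * q - δ * q' * v 0;
    w 1 * p - δ * p' * v 1, w 1 * q + δ * p' * v 0] with hA
  have hdet : A.det = δ := by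
    rw [hA, Matrix.det_fin_two_of]
    linear_combination (w 0 * p' + w 1 * q') * δ * h1 + δ * h2
  have hAu : IsUnit A := by
    rw [Matrix.isUnit_iff_isUnit_det, hdet]
    exact isUnit_iff_ne_zero.2 hδ
  obtain ⟨g, hg⟩ := hAu
  have hent : ∀ i j, (g : Matrix (Fin 2) (Fin 2) K) i j ∈ J := by
    rw [hg]
    intro i j
    fin_cases i <;> fin_cases j
    · exact Submodule.add_mem (J : Submodule R K) (mm (mem0 w) hp) (nn hq' (mem1 v))
    · exact Submodule.sub_mem (J : Submodule R K) (mm (mem0 w) hq) (nn hq' (mem0 v))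
    · exact Submodule.sub_mem (J : Submodule R K) (mm (mem1 w) hp) (nn hp' (mem1 v))
    · exact Submodule.add_mem (J : Submodule R K) (mm (mem1 w) hq) (nn hp' (mem0 v))
  refine ⟨g, mem_PGL2_of g hent (by rw [hg, hdet, hJ]), ?_⟩
  rw [hg]
  funext i
  fin_cases i
  · simp [hA, Matrix.mulVec, dotProduct, Fin.sum_univ_two]
    linear_combination (w 0) * h1
  · simp [hA, Matrix.mulVec, dotProduct, Fin.sum_univ_two]
    linear_combination (w 1) * h1

lemma cls_of_rel_PGL2 {v w : NZ K} (h : (orbRel (PGL2 R K)).r v w) :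
    ∃ t : ClassGroup R, t * t = 1 ∧ cls R w = t * cls R v := by
  obtain ⟨g, hg, c, hc, h⟩ := h
  have hE := PGL2_E hg
  have hE0 : E R (g : Matrix (Fin 2) (Fin 2) K) ≠ 0 := by
    intro h0
    rw [h0, mul_zero] at hE
    have : (g : Matrix (Fin 2) (Fin 2) K).det ∈ (0 : FractionalIdeal R⁰ K) := by
      rw [hE]; exact mem_spanSingleton_self _ _
    rw [mem_zero_iff] at this
    exact det_ne g this
  refine ⟨ClassGroup.mk K (Units.mk0 _ hE0), ?_, ?_⟩
  · rw [← map_mul, ClassGroup.mk_eq_one_iff]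
    refine ⟨(g : Matrix (Fin 2) (Fin 2) K).det, ?_⟩
    have : ((Units.mk0 _ hE0 * Units.mk0 _ hE0 : (FractionalIdeal R⁰ K)ˣ) : FractionalIdeal R⁰ K) =
        spanSingleton R⁰ (g : Matrix (Fin 2) (Fin 2) K).det := by
      rw [Units.val_mul, Units.val_mk0, hE]
    rw [this, coe_spanSingleton]
  · have hgv : (g : Matrix (Fin 2) (Fin 2) K) *ᵥ v.1 ≠ 0 := by
      rw [h]; exact smul_ne_zero hc w.2
    have e1 : cls R w = cls R (⟨_, hgv⟩ : NZ K) := by
      rw [eq_comm, cls_eq_iff]
      refine ⟨c, hc, ?_⟩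
      change I R ((g : Matrix (Fin 2) (Fin 2) K) *ᵥ v.1) = _
      rw [h]
    rw [e1]
    unfold cls
    rw [← map_mul]
    congr 1
    apply Units.ext
    rw [Units.val_mul, Units.val_mk0, Units.val_mk0, Units.val_mk0]
    exact I_PGL2 hg v.1

lemma exists_cls (t : ClassGroup R) : ∃ u : NZ K, cls R u = t := by
  obtain ⟨⟨𝔞, h𝔞⟩, rfl⟩ := ClassGroup.mk0_surjective t
  have h0 : 𝔞 ≠ 0 := mem_nonZeroDivisors_iff_ne_zero.1 h𝔞
  obtain ⟨x, hx, hx0⟩ := Submodule.exists_mem_ne_zero_of_ne_bot h0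
  obtain ⟨y, hy⟩ := IsDedekindDomain.exists_eq_span_pair hx hx0
  have hne : (![algebraMap R K x, algebraMap R K y] : Fin 2 → K) ≠ 0 := by
    intro h
    have := congrFun h 0
    simp at this
    exact hx0 this
  refine ⟨⟨_, hne⟩, ?_⟩
  rw [← ClassGroup.mk_mk0 K]
  unfold cls
  congr 1
  apply Units.ext
  rw [Units.val_mk0, coe_mk0]
  unfold I
  simp only [Matrix.cons_val_zero, Matrix.cons_val_one]
  rw [← coeIdeal_span_singleton, ← coeIdeal_span_singleton, ← coeIdeal_sup]
  congr 1
  rw [hy, Ideal.span_insert]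

/-- the canonical map between the two orbit spaces -/
noncomputable def proj : OrbitSpace (SL2 R K) → OrbitSpace (PGL2 R K) :=
  Quotient.map' id (by
    rintro v w ⟨g, hg, c, hc, h⟩
    exact ⟨g, SL2_le_PGL2 hg, c, hc, h⟩)

lemma proj_surjective : Function.Surjective (proj (R := R) (K := K)) := by
  intro b
  induction b using Quotient.inductionOn with
  | _ v => exact ⟨Quotient.mk _ v, rfl⟩

theorem isEmpty_equiv [Finite (ClassGroup R)] {t : ClassGroup R} (ht : t ≠ 1) (ht2 : t * t = 1) :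
    IsEmpty (OrbitSpace (PGL2 R K) ≃ OrbitSpace (SL2 R K)) := by
  have hfin : Finite (OrbitSpace (SL2 R K)) := Finite.of_injective _ toClass_injective
  have hne : (![1, 0] : Fin 2 → K) ≠ 0 := by
    intro h
    have := congrFun h 0
    simp at this
  have hI1 : I R (![1, 0] : Fin 2 → K) = 1 := by
    unfold I; simp
  obtain ⟨u, hu⟩ := exists_cls (K := K) t
  have hu2 : ∃ δ : K, δ ≠ 0 ∧ I R u.1 * I R u.1 = spanSingleton R⁰ δ := by
    rw [← hu] at ht2
    unfold cls at ht2
    rw [← map_mul, ClassGroup.mk_eq_one_iff] at ht2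
    obtain ⟨δ, hδ⟩ := ht2
    have hc' : I R u.1 * I R u.1 = spanSingleton R⁰ δ := by
      apply Subtype.coe_injective
      simp only [val_eq_coe, coe_spanSingleton]
      rw [← hδ]
      simp
    refine ⟨δ, ?_, hc'⟩
    rintro rfl
    rw [spanSingleton_zero] at hc'
    exact (mul_ne_zero (I_ne_zero (R := R) u.2) (I_ne_zero (R := R) u.2)) hc'
  obtain ⟨δ, hδ, hJ⟩ := hu2
  obtain ⟨g, hg, hgu⟩ := trans_PGL2 hne u.2 hδ hJ (by rw [hI1, mul_one])
  have hrel : (orbRel (PGL2 R K)).r ⟨_, hne⟩ u := ⟨g, hg, 1, one_ne_zero, by rw [one_smul]; exact hgu⟩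
  have hnrel : ¬ (orbRel (SL2 R K)).r ⟨_, hne⟩ u := by
    rw [rel_iff, hu]
    intro h
    apply ht
    rw [← h]
    unfold cls
    rw [ClassGroup.mk_eq_one_iff]
    refine ⟨1, ?_⟩
    rw [Units.val_mk0, hI1, ← coe_spanSingleton R⁰, spanSingleton_one]
  refine ⟨fun e => ?_⟩
  have hinj : Function.Injective (proj (R := R) (K := K)) := by
    have hs : Function.Surjective (e ∘ proj (R := R) (K := K)) := e.surjective.comp proj_surjective
    have := Finite.injective_iff_surjective.2 hs
    exact Function.Injective.of_comp this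
  have : (Quotient.mk (orbRel (SL2 R K)) ⟨_, hne⟩) = Quotient.mk (orbRel (SL2 R K)) u := by
    apply hinj
    exact Quotient.sound hrel
  exact hnrel (Quotient.exact this)

theorem nonempty_equiv (h : ∀ t : ClassGroup R, t * t = 1 → t = 1) :
    Nonempty (OrbitSpace (PGL2 R K) ≃ OrbitSpace (SL2 R K)) := by
  refine ⟨(Equiv.ofBijective proj ⟨?_, proj_surjective⟩).symm⟩
  intro a b
  induction a using Quotient.inductionOn with
  | _ v =>
    induction b using Quotient.inductionOn with
    | _ w =>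
      intro hvw
      apply Quotient.sound
      have hr : (orbRel (PGL2 R K)).r v w := Quotient.exact hvw
      obtain ⟨t, ht, htw⟩ := cls_of_rel_PGL2 hr
      rw [h t ht, one_mul] at htw
      exact (rel_iff v w).2 htw.symm

/-- bijection of the orbits of `SL₂(R)` on the projective line with the class group -/
theorem bij_toClass : Function.Bijective (toClass (R := R) (K := K)) := by
  refine ⟨toClass_injective, fun t => ?_⟩
  obtain ⟨u, hu⟩ := exists_cls (K := K) t
  exact ⟨Quotient.mk _ u, hu⟩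

theorem iff_odd [Fintype (ClassGroup R)] :
    Nonempty (OrbitSpace (PGL2 R K) ≃ OrbitSpace (SL2 R K)) ↔
      Odd (Fintype.card (ClassGroup R)) := by
  classical
  constructor
  · intro hne
    by_contra hodd
    rw [Nat.not_odd_iff_even, even_iff_two_dvd] at hodd
    obtain ⟨t, ht⟩ := exists_prime_orderOf_dvd_card 2 hodd
    have h1 : t ≠ 1 := by
      rintro rfl
      simp at ht
    have h2 : t * t = 1 := by
      rw [← sq, ← ht, pow_orderOf_eq_one]
    obtain ⟨e⟩ := hne
    exact (isEmpty_equiv (K := K) h1 h2).false e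
  · intro hodd
    apply nonempty_equiv
    intro t ht
    have h1 : orderOf t ∣ 2 := orderOf_dvd_of_pow_eq_one (by rw [sq]; exact ht)
    have h2 : orderOf t ∣ Fintype.card (ClassGroup R) := orderOf_dvd_card
    have h3 : orderOf t ∣ 1 := by
      have := Nat.dvd_gcd h1 h2
      rwa [Nat.Coprime.gcd_eq_one hodd.coprime_two_left] at this
    rwa [Nat.dvd_one, orderOf_eq_one_iff] at h3

end Pool.Agent.H16.PGL
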