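import Mathlib

set_option autoImplicit false

open scoped nonZeroDivisors NumberField QuadraticAlgebra
open QuadraticAlgebra

namespace Pool.Agent.H16.PGL

instance fact5 : Fact (∀ r : ℚ, r ^ 2 ≠ (-5) + 0 * r) := ⟨fun r h => by nlinarith [sq_nonneg r]⟩

/-- The field `ℚ(√-5)`. -/
abbrev K5 : Type := QuadraticAlgebra ℚ (-5) 0

instance nf5 : NumberField K5 where
  to_charZero := inferInstance
  to_finiteDimensional := by
    have h : Module.Finite ℚ K5 := inferInstance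
    convert h

lemma isInt_rat {q : ℚ} (h : IsIntegral ℤ (algebraMap ℚ K5 q)) : ∃ n : ℤ, (n : ℚ) = q := by
  have h1 : IsIntegral ℤ q := (isIntegral_algebraMap_iff (algebraMap ℚ K5).injective).1 h
  obtain ⟨n, hn⟩ := IsIntegrallyClosed.isIntegral_iff.1 h1
  exact ⟨n, by simpa using hn⟩

lemma star_eq (z : K5) : starRingEnd K5 z = ⟨z.re, -z.im⟩ := by
  rw [starRingEnd_apply]
  ext
  · simp [QuadraticAlgebra.re_star]
  · simp [QuadraticAlgebra.im_star]

lemma alg_eq (q : ℚ) : algebraMap ℚ K5 q = ⟨q, 0⟩ := rfl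

lemma trace_int {z : K5} (h : IsIntegral ℤ z) : ∃ n : ℤ, (n : ℚ) = 2 * z.re := by
  have h1 : IsIntegral ℤ (starRingEnd K5 z) := map_isIntegral_int (starRingEnd K5) h
  have h2 := h.add h1
  apply isInt_rat
  have e : algebraMap ℚ K5 (2 * z.re) = z + starRingEnd K5 z := by
    rw [alg_eq, star_eq]
    ext
    · simp only [re_add]; ring
    · simp only [im_add]; ring
  rw [e]
  exact h2

lemma norm_int {z : K5} (h : IsIntegral ℤ z) : ∃ n : ℤ, (n : ℚ) = z.re ^ 2 + 5 * z.im ^ 2 := by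
  have h1 : IsIntegral ℤ (starRingEnd K5 z) := map_isIntegral_int (starRingEnd K5) h
  have h2 := h.mul h1
  apply isInt_rat
  have e : algebraMap ℚ K5 (z.re ^ 2 + 5 * z.im ^ 2) = z * starRingEnd K5 z := by
    rw [alg_eq, star_eq]
    ext
    · simp only [re_mul]; ring
    · simp only [im_mul]; ring
  rw [e]
  exact h2

/-- the norm form -/
def nm (z : K5) : ℚ := z.re ^ 2 + 5 * z.im ^ 2

lemma nm_mul (z w : K5) : nm (z * w) = nm z * nm w := by
  simp [nm]; ring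

lemma no_sq (n : ℤ) (h5 : ¬ (5 : ℤ) ∣ n) (c : ℚ) : 5 * c ^ 2 ≠ n := by
  intro h
  have hn : (n : ℚ) ≠ 0 := by
    intro h0
    apply h5
    have : n = 0 := by exact_mod_cast h0
    simp [this]
  have hc : c ≠ 0 := by
    rintro rfl
    apply hn
    rw [← h]; norm_num
  haveI : Fact (Nat.Prime 5) := ⟨by norm_num⟩
  have h1 : padicValRat 5 (5 * c ^ 2) = padicValRat 5 (n : ℚ) := by rw [h]
  rw [padicValRat.mul (by norm_num) (pow_ne_zero _ hc), padicValRat.pow] at h1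
  have h2 : padicValRat 5 (n : ℚ) = 0 := by
    rw [padicValRat.of_int]
    have : padicValInt 5 n = 0 := padicValInt.eq_zero_of_not_dvd (by exact_mod_cast h5)
    simp [this]
  have h3 : padicValRat 5 (5 : ℚ) = 1 := by
    have := padicValRat.self (p := 5) (by norm_num)
    simpa using this
  rw [h2, h3] at h1
  push_cast at h1
  omega

lemma no_norm_two {z : K5} (h : IsIntegral ℤ z) : nm z ≠ 2 := by
  intro h2
  obtain ⟨t, ht⟩ := trace_int h
  unfold nm at h2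
  have h3 : 5 * (2 * z.im) ^ 2 = ((8 - t ^ 2 : ℤ) : ℚ) := by
    push_cast
    rw [ht]; linarith
  have h4 : (0 : ℚ) ≤ ((8 - t ^ 2 : ℤ) : ℚ) := by rw [← h3]; positivity
  have h5 : 0 ≤ 8 - t ^ 2 := by exact_mod_cast h4
  have h6 : t < 3 := by nlinarith
  have h7 : -3 < t := by nlinarith
  refine no_sq (8 - t ^ 2) ?_ _ h3
  interval_cases t <;> norm_num

lemma unit_norm {u : (𝓞 K5)ˣ} : nm ((u : 𝓞 K5) : K5) = 1 := by
  obtain ⟨m, hm⟩ := norm_int (u : 𝓞 K5).isIntegral_coe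
  obtain ⟨n, hn⟩ := norm_int ((u⁻¹ : (𝓞 K5)ˣ) : 𝓞 K5).isIntegral_coe
  have h1 : nm ((u : 𝓞 K5) : K5) * nm (((u⁻¹ : (𝓞 K5)ˣ) : 𝓞 K5) : K5) = 1 := by
    rw [← nm_mul, ← map_mul]
    simp [nm]
  have h2 : m * n = 1 := by
    have : (m : ℚ) * n = 1 := by rw [hm, hn]; exact h1
    exact_mod_cast this
  have h3 : (0 : ℚ) ≤ m := by rw [hm]; positivity
  have h4 : 0 ≤ m := by exact_mod_cast h3
  have h5 : m = 1 := by
    rcases Int.eq_one_or_neg_one_of_mul_eq_one h2 with h | h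
    · exact h
    · omega
  unfold nm
  rw [← hm, h5]; norm_num

/-- `√-5` as an integer of the field -/
noncomputable def s5 : 𝓞 K5 := ⟨⟨0, 1⟩, by
  refine ⟨Polynomial.X ^ 2 + Polynomial.C 5, ?_, ?_⟩
  · exact Polynomial.monic_X_pow_add_C _ (by norm_num)
  · simp only [Polynomial.eval₂_add, Polynomial.eval₂_pow, Polynomial.eval₂_X, Polynomial.eval₂_C]
    ext <;> simp [sq]⟩

lemma s5_sq : s5 * s5 = -5 := by
  apply NumberField.RingOfIntegers.ext
  have h1 : ((s5 * s5 : 𝓞 K5) : K5) = (s5 : K5) * (s5 : K5) := rfl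
  have h2 : ((-5 : 𝓞 K5) : K5) = -5 := by
    have := map_ofNat (algebraMap (𝓞 K5) K5) 5
    change algebraMap (𝓞 K5) K5 (-5) = -5
    rw [map_neg, this]
  have h3 : (s5 : K5) = ⟨0, 1⟩ := rfl
  rw [h1, h2, h3]
  ext <;> simp

/-- the prime above two -/
noncomputable def P5 : Ideal (𝓞 K5) := Ideal.span {2, 1 + s5}

lemma P5_sq : P5 * P5 = Ideal.span {2} := by
  unfold P5
  rw [Ideal.span_pair_mul_span_pair]
  apply le_antisymm
  · rw [Ideal.span_le]
    intro x hx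
    rw [SetLike.mem_coe, Ideal.mem_span_singleton]
    have hx' : x = 2 * 2 ∨ x = 2 * (1 + s5) ∨ x = (1 + s5) * 2 ∨ x = (1 + s5) * (1 + s5) := by
      simpa using hx
    rcases hx' with rfl | rfl | rfl | rfl
    · exact ⟨2, rfl⟩
    · exact ⟨_, rfl⟩
    · exact ⟨1 + s5, by ring⟩
    · refine ⟨-2 + s5, ?_⟩
      linear_combination s5_sq
  · rw [Ideal.span_singleton_le_iff_mem]
    have h1 : (2 * 2 : 𝓞 K5) ∈ Ideal.span {2 * 2, 2 * (1 + s5), (1 + s5) * 2, (1 + s5) * (1 + s5)} :=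
      Ideal.subset_span (by simp)
    have h2 : (2 * (1 + s5) : 𝓞 K5) ∈ Ideal.span {2 * 2, 2 * (1 + s5), (1 + s5) * 2, (1 + s5) * (1 + s5)} :=
      Ideal.subset_span (by simp)
    have h3 : ((1 + s5) * (1 + s5) : 𝓞 K5) ∈ Ideal.span {2 * 2, 2 * (1 + s5), (1 + s5) * 2, (1 + s5) * (1 + s5)} :=
      Ideal.subset_span (by simp)
    have e : 2 * (1 + s5) - (1 + s5) * (1 + s5) - 2 * 2 = (2 : 𝓞 K5) := by
      linear_combination (-1 : 𝓞 K5) * s5_sq
    have h4 := Ideal.sub_mem _ (Ideal.sub_mem _ h2 h3) h1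
    rwa [e] at h4

lemma P5_not_principal : ¬ P5.IsPrincipal := by
  rintro ⟨α, hα⟩
  have h1 : Ideal.span {α * α} = Ideal.span {(2 : 𝓞 K5)} := by
    rw [← P5_sq, hα]
    exact (Ideal.span_singleton_mul_span_singleton α α).symm
  rw [Ideal.span_singleton_eq_span_singleton] at h1
  obtain ⟨u, hu⟩ := h1
  have h2 : nm (α : K5) * nm (α : K5) * nm ((u : 𝓞 K5) : K5) = 4 := by
    rw [← nm_mul, ← nm_mul, ← map_mul, ← map_mul, hu]
    have h9 : ((2 : 𝓞 K5) : K5) = 2 := map_ofNat (algebraMap (𝓞 K5) K5) 2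
    have h10 : (algebraMap (𝓞 K5) K5) 2 = 2 := h9
    rw [h10]
    simp [nm]; norm_num
  rw [unit_norm, mul_one] at h2
  have h3 : 0 ≤ nm (α : K5) := by unfold nm; positivity
  have h4 : nm (α : K5) = 2 := by nlinarith
  exact no_norm_two α.isIntegral_coe h4

lemma exists_two_torsion : ∃ t : ClassGroup (𝓞 K5), t ≠ 1 ∧ t * t = 1 := by
  have h0 : P5 ≠ 0 := by
    intro h
    have h2 : (2 : 𝓞 K5) ∈ P5 := Ideal.subset_span (by simp)
    rw [h] at h2
    simp at h2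
  have hm : P5 ∈ (Ideal (𝓞 K5))⁰ := mem_nonZeroDivisors_iff_ne_zero.2 h0
  refine ⟨ClassGroup.mk0 ⟨P5, hm⟩, ?_, ?_⟩
  · rw [Ne, ClassGroup.mk0_eq_one_iff]
    exact P5_not_principal
  · rw [← map_mul]
    have : (⟨P5, hm⟩ * ⟨P5, hm⟩ : (Ideal (𝓞 K5))⁰) = ⟨P5 * P5, mul_mem hm hm⟩ := rfl
    rw [this, ClassGroup.mk0_eq_one_iff, P5_sq]
    exact ⟨2, rfl⟩

end Pool.Agent.H16.PGL
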