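import Mathlib

/-!
Square roots of elements of quadratic fields lie in the compositum of all `D₄`-extensions of `ℚ`,
and every `Q₈`-extension of `ℚ` is contained in that compositum.
-/

namespace Pool.Agent.H16.QD4

open IntermediateField

/-- `L` (an intermediate field of `Ω/F`) is a `G`-extension of `F`:
`L/F` is Galois with Galois group isomorphic to `G`. -/
def IsGExt {F : Type*} [Field F] (G : Type) [Group G] {Ω : Type*} [Field Ω] [Algebra F Ω]
    (L : IntermediateField F Ω) : Prop :=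
  IsGalois F L ∧ Nonempty ((L ≃ₐ[F] L) ≃* G)

/-- the compositum (inside `Ω`) of all `D₄`-extensions of `F`, `D₄` dihedral of order `8`. -/
def compD4 (F : Type*) [Field F] (Ω : Type*) [Field Ω] [Algebra F Ω] : IntermediateField F Ω :=
  sSup {L : IntermediateField F Ω | IsGExt (DihedralGroup 4) L}

/-! ### group theory -/

/-- The homomorphism from the dihedral group of order 8. -/
noncomputable def dihHom {G : Type*} [Group G] (R S : G) (hR : R ^ 4 = 1) (hS : S * S = 1)
    (hRS : R * S * R = S) : DihedralGroup 4 →* G where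
  toFun g := match g with
    | .r i => R ^ i.val
    | .sr i => S * R ^ i.val
  map_one' := by
    show R ^ (0 : ZMod 4).val = 1
    simp
  map_mul' := by
    have hmod : ∀ n : ℕ, R ^ (n % 4) = R ^ n := by
      intro n
      conv_rhs => rw [← Nat.mod_add_div n 4]
      rw [pow_add, pow_mul, hR, one_pow, mul_one]
    have hadd : ∀ i j : ZMod 4, R ^ (i + j).val = R ^ i.val * R ^ j.val := by
      intro i j
      rw [ZMod.val_add, hmod, pow_add]
    have hk : ∀ k : ℕ, R ^ k * S * R ^ k = S := by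
      intro k
      induction k with
      | zero => simp
      | succ k ih =>
        calc R ^ (k + 1) * S * R ^ (k + 1) = (R ^ k * R) * S * (R * R ^ k) := by
              rw [← pow_succ, ← pow_succ']
        _ = R ^ k * (R * S * R) * R ^ k := by simp only [mul_assoc]
        _ = S := by rw [hRS, ih]
    have hsub : ∀ i j : ZMod 4, R ^ j.val = R ^ i.val * R ^ (j - i).val := by
      intro i j
      rw [← hadd]; congr 2; ring
    rintro (i | i) (j | j)
    · rw [DihedralGroup.r_mul_r]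
      exact hadd i j
    · rw [DihedralGroup.r_mul_sr]
      show S * R ^ (j - i).val = R ^ i.val * (S * R ^ j.val)
      rw [hsub i j]
      conv_lhs => rw [← hk i.val]
      simp only [mul_assoc]
    · rw [DihedralGroup.sr_mul_r]
      show S * R ^ (i + j).val = S * R ^ i.val * R ^ j.val
      rw [hadd, mul_assoc]
    · rw [DihedralGroup.sr_mul_sr]
      show R ^ (j - i).val = S * R ^ i.val * (S * R ^ j.val)
      rw [hsub i j]
      have : S * R ^ i.val * (S * (R ^ i.val * R ^ (j - i).val))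
          = S * (R ^ i.val * S * R ^ i.val) * R ^ (j - i).val := by
        simp only [mul_assoc]
      rw [this, hk, hS, one_mul]

/-! ### the dihedral extension -/

theorem dih_key {F L : Type*} [Field F] [Field L] [Algebra F L] [CharZero L] (a b : L)
    (ha0 : a ≠ 0) (hb0 : b ≠ 0) (hne : a ≠ b) (hne' : a ≠ -b)
    (hext : ∀ g h : L ≃ₐ[F] L, g a = h a → g b = h b → g = h)
    (hcase : ∀ g : L ≃ₐ[F] L, (g a = a ∧ g b = b) ∨ (g a = -a ∧ g b = -b) ∨
      (g a = a ∧ g b = -b) ∨ (g a = -a ∧ g b = b) ∨ (g a = b ∧ g b = a) ∨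
      (g a = -b ∧ g b = -a) ∨ (g a = b ∧ g b = -a) ∨ (g a = -b ∧ g b = a))
    (R S : L ≃ₐ[F] L) (hRa : R a = b) (hRb : R b = -a)
    (hS : (S a = a ∧ S b = -b) ∨ (S a = -a ∧ S b = b) ∨ (S a = b ∧ S b = a) ∨
      (S a = -b ∧ S b = -a)) : Nonempty ((L ≃ₐ[F] L) ≃* DihedralGroup 4) := by
  have hna : a ≠ -a := fun h => ha0 (self_eq_neg.1 h)
  have hnb : b ≠ -b := fun h => hb0 (self_eq_neg.1 h)
  have hne2 : b ≠ -a := fun h => hne' (by rw [h, neg_neg])
  have hR2a : (R ^ 2) a = -a := by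
    rw [pow_two, AlgEquiv.mul_apply, hRa, hRb]
  have hR2b : (R ^ 2) b = -b := by
    rw [pow_two, AlgEquiv.mul_apply, hRb, map_neg, hRa]
  have hR3a : (R ^ 3) a = -b := by
    rw [pow_succ', AlgEquiv.mul_apply, hR2a, map_neg, hRa]
  have hR3b : (R ^ 3) b = a := by
    rw [pow_succ', AlgEquiv.mul_apply, hR2b, map_neg, hRb, neg_neg]
  have hR4 : R ^ 4 = 1 := by
    apply hext
    · rw [pow_succ', AlgEquiv.mul_apply, hR3a, map_neg, hRb, neg_neg]; rfl
    · rw [pow_succ', AlgEquiv.mul_apply, hR3b, hRa]; rfl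
  have hSS : S * S = 1 := by
    rcases hS with ⟨h1, h2⟩ | ⟨h1, h2⟩ | ⟨h1, h2⟩ | ⟨h1, h2⟩ <;>
    · apply hext
      · simp [AlgEquiv.mul_apply, h1, h2]
      · simp [AlgEquiv.mul_apply, h1, h2]
  have hRSR : R * S * R = S := by
    rcases hS with ⟨h1, h2⟩ | ⟨h1, h2⟩ | ⟨h1, h2⟩ | ⟨h1, h2⟩ <;>
    · apply hext
      · simp [AlgEquiv.mul_apply, h1, h2, hRa, hRb]
      · simp [AlgEquiv.mul_apply, h1, h2, hRa, hRb]
  have hv : ∀ i : ZMod 4, i.val = 0 ∨ i.val = 1 ∨ i.val = 2 ∨ i.val = 3 := by decide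
  have hinj : Function.Injective (dihHom R S hR4 hSS hRSR) := by
    rw [injective_iff_map_eq_one]
    rintro (i | i) hi
    · have hi' : R ^ i.val = 1 := hi
      rcases hv i with h | h | h | h
      · have h0 : ∀ i : ZMod 4, i.val = 0 → i = 0 := by decide
        rw [h0 i h]; rfl
      · exfalso
        rw [h, pow_one] at hi'
        apply hne
        rw [← hRa, hi']; rfl
      · exfalso
        rw [h] at hi'
        apply hna
        rw [← hR2a, hi']; rfl
      · exfalso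
        rw [h] at hi'
        apply hne'
        rw [← hR3a, hi']; rfl
    · exfalso
      have hi' : S * R ^ i.val = 1 := hi
      have hi2 : R ^ i.val = S := by
        calc R ^ i.val = S * (S * R ^ i.val) := by rw [← mul_assoc, hSS, one_mul]
        _ = S := by rw [hi', mul_one]
      have ea : (R ^ i.val) a = S a := by rw [hi2]
      have eb : (R ^ i.val) b = S b := by rw [hi2]
      rcases hv i with h | h | h | h
      · rw [h, pow_zero, AlgEquiv.one_apply] at ea eb
        rcases hS with ⟨h1, h2⟩ | ⟨h1, h2⟩ | ⟨h1, h2⟩ | ⟨h1, h2⟩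
        · exact hnb (eb.trans h2)
        · exact hna (ea.trans h1)
        · exact hne (ea.trans h1)
        · exact hne' (ea.trans h1)
      · rw [h, pow_one] at ea eb
        rw [hRa] at ea
        rw [hRb] at eb
        rcases hS with ⟨h1, h2⟩ | ⟨h1, h2⟩ | ⟨h1, h2⟩ | ⟨h1, h2⟩
        · exact hne (ea.trans h1).symm
        · exact hne2 (ea.trans h1)
        · exact hna (eb.trans h2).symm
        · exact hnb (ea.trans h1)
      · rw [h, hR2a] at ea
        rw [h, hR2b] at eb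
        rcases hS with ⟨h1, h2⟩ | ⟨h1, h2⟩ | ⟨h1, h2⟩ | ⟨h1, h2⟩
        · exact hna (ea.trans h1).symm
        · exact hnb (eb.trans h2).symm
        · exact hne2 (ea.trans h1).symm
        · exact hne (neg_injective (ea.trans h1))
      · rw [h, hR3a] at ea
        rw [h, hR3b] at eb
        rcases hS with ⟨h1, h2⟩ | ⟨h1, h2⟩ | ⟨h1, h2⟩ | ⟨h1, h2⟩
        · exact hne' (ea.trans h1).symm
        · exact hne (eb.trans h2)
        · exact hnb (ea.trans h1).symm
        · exact hna (eb.trans h2)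
  have hsurj : Function.Surjective (dihHom R S hR4 hSS hRSR) := by
    have hr : ∀ i : ZMod 4, dihHom R S hR4 hSS hRSR (.r i) = R ^ i.val := fun _ => rfl
    have hsr : ∀ i : ZMod 4, dihHom R S hR4 hSS hRSR (.sr i) = S * R ^ i.val := fun _ => rfl
    have v0 : (0 : ZMod 4).val = 0 := rfl
    have v1 : (1 : ZMod 4).val = 1 := rfl
    have v2 : (2 : ZMod 4).val = 2 := rfl
    have v3 : (3 : ZMod 4).val = 3 := rfl
    intro g
    rcases hS with ⟨h1, h2⟩ | ⟨h1, h2⟩ | ⟨h1, h2⟩ | ⟨h1, h2⟩ <;>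
    rcases hcase g with ⟨g1, g2⟩ | ⟨g1, g2⟩ | ⟨g1, g2⟩ | ⟨g1, g2⟩ | ⟨g1, g2⟩ | ⟨g1, g2⟩ |
      ⟨g1, g2⟩ | ⟨g1, g2⟩ <;>
    first
    | (refine ⟨.r 0, hext _ _ ?_ ?_⟩ <;> rw [hr, v0] <;> simp [g1, g2]; done)
    | (refine ⟨.r 1, hext _ _ ?_ ?_⟩ <;> rw [hr, v1, pow_one] <;> simp [g1, g2, hRa, hRb]; done)
    | (refine ⟨.r 2, hext _ _ ?_ ?_⟩ <;> rw [hr, v2] <;> simp [g1, g2, hR2a, hR2b]; done)
    | (refine ⟨.r 3, hext _ _ ?_ ?_⟩ <;> rw [hr, v3] <;> simp [g1, g2, hR3a, hR3b]; done)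
    | (refine ⟨.sr 0, hext _ _ ?_ ?_⟩ <;> rw [hsr, v0] <;> simp [g1, g2, h1, h2]; done)
    | (refine ⟨.sr 1, hext _ _ ?_ ?_⟩ <;> rw [hsr, v1, pow_one] <;>
        simp [g1, g2, hRa, hRb, h1, h2]; done)
    | (refine ⟨.sr 2, hext _ _ ?_ ?_⟩ <;> rw [hsr, v2, AlgEquiv.mul_apply] <;>
        simp only [g1, g2, hR2a, hR2b, map_neg, h1, h2, neg_neg]; done)
    | (refine ⟨.sr 3, hext _ _ ?_ ?_⟩ <;> rw [hsr, v3, AlgEquiv.mul_apply] <;>
        simp only [g1, g2, hR3a, hR3b, map_neg, h1, h2, neg_neg]; done)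
  exact ⟨(MulEquiv.ofBijective _ ⟨hinj, hsurj⟩).symm⟩

section Dih

variable {F : Type*} [Field F] [CharZero F]
variable {Ω : Type*} [Field Ω] [Algebra F Ω] [IsAlgClosure F Ω]

theorem dih_ext (x p q : F) (X A B : Ω) (hX : X ^ 2 = algebraMap F Ω x)
    (hA : A ^ 2 = algebraMap F Ω p + algebraMap F Ω q * X)
    (hB : B ^ 2 = algebraMap F Ω p - algebraMap F Ω q * X) (hx : ¬ IsSquare x)
    (hn : ¬ IsSquare (p ^ 2 - x * q ^ 2))
    (hxn : ¬ IsSquare (x * (p ^ 2 - x * q ^ 2))) :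
    ∃ L : IntermediateField F Ω, IsGExt (DihedralGroup 4) L ∧ A ∈ L ∧ B ∈ L := by
  have hcz : CharZero Ω := charZero_of_injective_algebraMap (algebraMap F Ω).injective
  have halg : Algebra.IsAlgebraic F Ω := IsAlgClosure.isAlgebraic
  have hnΩ : Normal F Ω := IsAlgClosure.normal F Ω
  have hq : q ≠ 0 := by
    rintro rfl
    exact hn ⟨p, by ring⟩
  have hq' : algebraMap F Ω q ≠ 0 := by simpa using hq
  have hx0 : x ≠ 0 := by
    rintro rfl
    exact hx ⟨0, by ring⟩
  have hX0 : X ≠ 0 := by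
    rintro rfl
    apply hx0
    apply (algebraMap F Ω).injective
    rw [← hX, map_zero]; ring
  have hn0 : p ^ 2 - x * q ^ 2 ≠ 0 := by
    intro h
    exact hn ⟨0, by rw [h]; ring⟩
  have hAB : (A * B) * (A * B) = algebraMap F Ω (p ^ 2 - x * q ^ 2) := by
    simp only [map_sub, map_mul, map_pow]
    rw [← hX]
    linear_combination B ^ 2 * hA + (algebraMap F Ω p + algebraMap F Ω q * X) * hB
  have hAB0 : A * B ≠ 0 := by
    intro h
    apply hn0
    apply (algebraMap F Ω).injective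
    rw [← hAB, h, map_zero]; ring
  have hA0 : A ≠ 0 := fun h => hAB0 (by rw [h, zero_mul])
  have hB0 : B ≠ 0 := fun h => hAB0 (by rw [h, mul_zero])
  set L : IntermediateField F Ω := IntermediateField.adjoin F {A, B} with hL
  have hAL : A ∈ L := IntermediateField.subset_adjoin _ _ (by simp)
  have hBL : B ∈ L := IntermediateField.subset_adjoin _ _ (by simp)
  have hXeq : X = (A * A - B * B) / (2 * algebraMap F Ω q) := by
    rw [← sq, ← sq, hA, hB]; field_simp; ring
  have hqL : ∀ r : F, algebraMap F Ω r ∈ L := fun r => L.algebraMap_mem r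
  have hXL : X ∈ L := by
    rw [hXeq]
    refine L.div_mem (L.sub_mem (L.mul_mem hAL hAL) (L.mul_mem hBL hBL)) (L.mul_mem ?_ (hqL q))
    have := hqL 2
    simpa using this
  -- normality
  have hnorm : Normal F L := by
    rw [IntermediateField.normal_iff_forall_map_le]
    intro σ
    rw [hL, IntermediateField.adjoin_map, IntermediateField.adjoin_le_iff, ← hL]
    have hσX : σ X = X ∨ σ X = -X := by
      apply sq_eq_sq_iff_eq_or_eq_neg.1
      rw [← map_pow, hX, AlgHom.commutes]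
    have hmem : ∀ C : Ω, C ^ 2 = algebraMap F Ω p + algebraMap F Ω q * X ∨
        C ^ 2 = algebraMap F Ω p - algebraMap F Ω q * X → C ∈ L := by
      rintro C (h | h)
      · rw [← hA] at h
        rcases sq_eq_sq_iff_eq_or_eq_neg.1 h with h | h
        · rw [h]; exact hAL
        · rw [h]; exact L.neg_mem hAL
      · rw [← hB] at h
        rcases sq_eq_sq_iff_eq_or_eq_neg.1 h with h | h
        · rw [h]; exact hBL
        · rw [h]; exact L.neg_mem hBL
    rintro _ ⟨C, hC, rfl⟩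
    simp only [Set.mem_insert_iff, Set.mem_singleton_iff] at hC
    apply hmem
    show (σ C) ^ 2 = _ ∨ (σ C) ^ 2 = _
    rcases hC with rfl | rfl
    · rw [← map_pow, hA]
      simp only [map_add, map_mul, AlgHom.commutes]
      rcases hσX with h | h <;> rw [h]
      · left; rfl
      · right; ring
    · rw [← map_pow, hB]
      simp only [map_sub, map_mul, AlgHom.commutes]
      rcases hσX with h | h <;> rw [h]
      · right; rfl
      · left; ring
  have hgal : IsGalois F L := { }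
  -- elements of L
  set a : L := ⟨A, hAL⟩ with ha
  set b : L := ⟨B, hBL⟩ with hb
  set ξ : L := ⟨X, hXL⟩ with hξ
  have hξ2 : ξ ^ 2 = algebraMap F L x := Subtype.ext hX
  have ha2 : a ^ 2 = algebraMap F L p + algebraMap F L q * ξ := Subtype.ext hA
  have hb2 : b ^ 2 = algebraMap F L p - algebraMap F L q * ξ := Subtype.ext hB
  have ha0 : a ≠ 0 := fun h => hA0 (congrArg Subtype.val h)
  have hb0 : b ≠ 0 := fun h => hB0 (congrArg Subtype.val h)
  have hξ0 : ξ ≠ 0 := fun h => hX0 (congrArg Subtype.val h)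
  have hqL0 : algebraMap F L q ≠ 0 := by simpa using hq
  have hab : (a * b) * (a * b) = algebraMap F L (p ^ 2 - x * q ^ 2) := Subtype.ext hAB
  have hczL : CharZero L := charZero_of_injective_algebraMap (algebraMap F L).injective
  -- automorphisms
  have hmove : ∀ y : L, (¬ ∃ r : F, y = algebraMap F L r) → ∃ g : L ≃ₐ[F] L, g y ≠ y := by
    intro y hy
    by_contra hcon
    push Not at hcon
    apply hy
    have := (InfiniteGalois.mem_bot_iff_fixed (k := F) (K := L) y).2 hcon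
    rw [IntermediateField.mem_bot] at this
    obtain ⟨r, hr⟩ := this
    exact ⟨r, hr.symm⟩
  have hnsq : ∀ (y : L) (c : F), y * y = algebraMap F L c → ¬ IsSquare c →
      ∃ g : L ≃ₐ[F] L, g y = - y := by
    intro y c hy hc
    obtain ⟨g, hg⟩ := hmove y (by
      rintro ⟨r, hr⟩
      apply hc
      refine ⟨r, (algebraMap F L).injective ?_⟩
      rw [← hy, hr, map_mul])
    refine ⟨g, ?_⟩
    have : (g y) ^ 2 = y ^ 2 := by rw [sq, ← map_mul, hy, AlgEquiv.commutes, sq, hy]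
    rcases sq_eq_sq_iff_eq_or_eq_neg.1 this with h | h
    · exact absurd h hg
    · exact h
  have hext : ∀ g h : L ≃ₐ[F] L, g a = h a → g b = h b → g = h := by
    intro g h h1 h2
    have : (g : L →ₐ[F] L) = (h : L →ₐ[F] L) := by
      refine IntermediateField.algHom_ext_of_eq_adjoin F (S := L) (s := {A, B}) hL ?_
      intro y hy
      simp only [Set.mem_insert_iff, Set.mem_singleton_iff] at hy
      rcases hy with rfl | rfl
      · exact h1
      · exact h2
    exact AlgEquiv.ext fun y => DFunLike.congr_fun this y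
  have hgξ : ∀ g : L ≃ₐ[F] L, g ξ = ξ ∨ g ξ = -ξ := by
    intro g
    apply sq_eq_sq_iff_eq_or_eq_neg.1
    rw [← map_pow, hξ2, AlgEquiv.commutes]
  have hga : ∀ g : L ≃ₐ[F] L, (g a) ^ 2 = algebraMap F L p + algebraMap F L q * g ξ := by
    intro g
    rw [← map_pow, ha2]; simp only [map_add, map_mul, AlgEquiv.commutes]
  have hgb : ∀ g : L ≃ₐ[F] L, (g b) ^ 2 = algebraMap F L p - algebraMap F L q * g ξ := by
    intro g
    rw [← map_pow, hb2]; simp only [map_sub, map_mul, AlgEquiv.commutes]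
  have hplus : ∀ g : L ≃ₐ[F] L, g ξ = ξ → (g a = a ∨ g a = -a) ∧ (g b = b ∨ g b = -b) := by
    intro g hg
    refine ⟨sq_eq_sq_iff_eq_or_eq_neg.1 ?_, sq_eq_sq_iff_eq_or_eq_neg.1 ?_⟩
    · rw [hga, hg, ha2]
    · rw [hgb, hg, hb2]
  have hminus : ∀ g : L ≃ₐ[F] L, g ξ = -ξ → (g a = b ∨ g a = -b) ∧ (g b = a ∨ g b = -a) := by
    intro g hg
    refine ⟨sq_eq_sq_iff_eq_or_eq_neg.1 ?_, sq_eq_sq_iff_eq_or_eq_neg.1 ?_⟩
    · rw [hga, hg, hb2]; ring
    · rw [hgb, hg, ha2]; ring
  have hcase : ∀ g : L ≃ₐ[F] L, (g a = a ∧ g b = b) ∨ (g a = -a ∧ g b = -b) ∨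
      (g a = a ∧ g b = -b) ∨ (g a = -a ∧ g b = b) ∨ (g a = b ∧ g b = a) ∨
      (g a = -b ∧ g b = -a) ∨ (g a = b ∧ g b = -a) ∨ (g a = -b ∧ g b = a) := by
    intro g
    rcases hgξ g with hg | hg
    · rcases hplus g hg with ⟨h1 | h1, h2 | h2⟩ <;> simp [h1, h2]
    · rcases hminus g hg with ⟨h1 | h1, h2 | h2⟩ <;> simp [h1, h2]
  have hab2 : a ^ 2 ≠ b ^ 2 := by
    rw [ha2, hb2]
    intro h
    have h2 : (2 : L) * (algebraMap F L q * ξ) = 0 := by linear_combination h
    rcases mul_eq_zero.1 h2 with h3 | h3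
    · exact two_ne_zero h3
    · exact mul_ne_zero hqL0 hξ0 h3
  have hne : a ≠ b := fun h => hab2 (by rw [h])
  have hne' : a ≠ -b := fun h => hab2 (by rw [h]; ring)
  have hξneg : ξ ≠ -ξ := fun h => hξ0 (self_eq_neg.1 h)
  have hab0 : a * b ≠ 0 := mul_ne_zero ha0 hb0
  have habneg : a * b ≠ -(a * b) := fun h => hab0 (self_eq_neg.1 h)
  have hgab : ∀ g : L ≃ₐ[F] L, g (a * b) = a * b ∨ g (a * b) = -(a * b) := by
    intro g
    apply sq_eq_sq_iff_eq_or_eq_neg.1
    rw [← map_pow, sq, hab, AlgEquiv.commutes]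
  -- R
  obtain ⟨R, hRξ, hRab⟩ : ∃ R : L ≃ₐ[F] L, R ξ = -ξ ∧ R (a * b) = -(a * b) := by
    obtain ⟨g, hg⟩ := hnsq ξ x (by rw [← sq, hξ2]) hx
    obtain ⟨h, hh⟩ := hnsq (a * b) _ hab hn
    rcases hgab g with h1 | h1
    · rcases hgξ h with h2 | h2
      · exact ⟨g * h, by rw [AlgEquiv.mul_apply, h2, hg], by rw [AlgEquiv.mul_apply, hh, map_neg, h1]⟩
      · exact ⟨h, h2, hh⟩
    · exact ⟨g, hg, h1⟩
  obtain ⟨S, hS⟩ := hnsq (ξ * (a * b)) (x * (p ^ 2 - x * q ^ 2)) (by
    rw [map_mul, ← hξ2, ← hab]; ring) hxn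
  have hξab : ξ * (a * b) ≠ -(ξ * (a * b)) := fun h => mul_ne_zero hξ0 hab0 (self_eq_neg.1 h)
  have hiso : Nonempty ((L ≃ₐ[F] L) ≃* DihedralGroup 4) := by
    -- the types of S
    have hS' : (S a = a ∧ S b = -b) ∨ (S a = -a ∧ S b = b) ∨ (S a = b ∧ S b = a) ∨
      (S a = -b ∧ S b = -a) := by
      rcases hgξ S with hs | hs
      · rcases hplus S hs with ⟨h1 | h1, h2 | h2⟩
        · exfalso; apply hξab
          rw [← hS]; simp only [map_mul, hs, h1, h2]
        · left; exact ⟨h1, h2⟩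
        · right; left; exact ⟨h1, h2⟩
        · exfalso; apply hξab
          rw [← hS]; simp only [map_mul, hs, h1, h2]; ring
      · rcases hminus S hs with ⟨h1 | h1, h2 | h2⟩
        · right; right; left; exact ⟨h1, h2⟩
        · exfalso; apply hξab
          rw [← hS]; simp only [map_mul, hs, h1, h2]; ring
        · exfalso; apply hξab
          rw [← hS]; simp only [map_mul, hs, h1, h2]; ring
        · right; right; right; exact ⟨h1, h2⟩
    rcases hminus R hRξ with ⟨h1 | h1, h2 | h2⟩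
    · exfalso; apply habneg
      rw [← hRab, map_mul, h1, h2]; ring
    · exact dih_key a b ha0 hb0 hne hne' hext hcase R S h1 h2 hS'
    · refine dih_key a (-b) ha0 (neg_ne_zero.2 hb0) hne' (by rw [neg_neg]; exact hne) ?_ ?_ R S h1
        (by rw [map_neg, h2]) ?_
      · intro g h e1 e2
        apply hext g h e1
        rw [map_neg, map_neg] at e2
        exact neg_injective e2
      · intro g
        rcases hcase g with ⟨e1, e2⟩ | ⟨e1, e2⟩ | ⟨e1, e2⟩ | ⟨e1, e2⟩ | ⟨e1, e2⟩ | ⟨e1, e2⟩ |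
          ⟨e1, e2⟩ | ⟨e1, e2⟩ <;> simp [e1, e2]
      · rcases hS' with ⟨e1, e2⟩ | ⟨e1, e2⟩ | ⟨e1, e2⟩ | ⟨e1, e2⟩ <;> simp [e1, e2]
    · exfalso; apply habneg
      rw [← hRab, map_mul, h1, h2]; ring
  exact ⟨L, ⟨hgal, hiso⟩, hAL, hBL⟩

theorem dih_mem (x p q : F) (X A B : Ω) (hX : X ^ 2 = algebraMap F Ω x)
    (hA : A ^ 2 = algebraMap F Ω p + algebraMap F Ω q * X)
    (hB : B ^ 2 = algebraMap F Ω p - algebraMap F Ω q * X) (hx : ¬ IsSquare x)
    (hn : ¬ IsSquare (p ^ 2 - x * q ^ 2))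
    (hxn : ¬ IsSquare (x * (p ^ 2 - x * q ^ 2))) : A ∈ compD4 F Ω := by
  obtain ⟨L, hL, hAL, -⟩ := dih_ext x p q X A B hX hA hB hx hn hxn
  exact (le_sSup (show L ∈ {L : IntermediateField F Ω | IsGExt (DihedralGroup 4) L} from hL) :
    L ≤ compD4 F Ω) hAL

end Dih

end Pool.Agent.H16.QD4
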