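import Mathlib
import Pool.Agent.H16.QD4

namespace Pool.Agent.H16.QD4

open IntermediateField

theorem notSquare_of_val {p : ℕ} [Fact p.Prime] {c : ℚ} (h : padicValRat p c = 1) :
    ¬ IsSquare c := by
  rintro ⟨r, rfl⟩
  by_cases hr : r = 0
  · rw [hr] at h; simp at h
  · rw [padicValRat.mul hr hr] at h
    omega

theorem exists_t (x n : ℚ) (hx : x ≠ 0) (hn : n ≠ 0) :
    ∃ t : ℚ, ∃ p : ℕ, p.Prime ∧ padicValRat p (t ^ 2 - x) = 1 ∧ padicValRat p x = 0 ∧
      padicValRat p n = 0 := by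
  set N : ℤ := x.num * x.den with hN
  have hxn : x.num ≠ 0 := Rat.num_ne_zero.2 hx
  have hxd : (x.den : ℤ) ≠ 0 := by exact_mod_cast x.den_ne_zero
  have hnn : n.num ≠ 0 := Rat.num_ne_zero.2 hn
  have hnd : (n.den : ℤ) ≠ 0 := by exact_mod_cast n.den_ne_zero
  have hN0 : N ≠ 0 := mul_ne_zero hxn hxd
  set k : ℤ := N * n.num * n.den with hk
  have hk0 : k ≠ 0 := mul_ne_zero (mul_ne_zero hN0 hnn) hnd
  set m1 : ℤ := N * (2 * k) ^ 2 - 1 with hm1
  have hm1' : m1 = 4 * (N * k ^ 2) - 1 := by rw [hm1]; ring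
  have hNk : N * k ^ 2 ≠ 0 := mul_ne_zero hN0 (pow_ne_zero _ hk0)
  have hne1 : m1.natAbs ≠ 1 := by
    intro h
    rcases Int.natAbs_eq m1 with h1 | h1 <;> rw [h] at h1 <;> push_cast at h1 <;> omega
  obtain ⟨p, hp, hpm⟩ := Nat.exists_prime_and_dvd hne1
  haveI : Fact p.Prime := ⟨hp⟩
  have hpm' : (p : ℤ) ∣ m1 := Int.natCast_dvd.2 hpm
  have hpp : Prime (p : ℤ) := Nat.prime_iff_prime_int.1 hp
  have hpK : ¬ (p : ℤ) ∣ 2 * k := by
    intro h
    have h1 : (p : ℤ) ∣ N * (2 * k) ^ 2 := Dvd.dvd.mul_left (dvd_pow h two_ne_zero) _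
    have h2 : (p : ℤ) ∣ 1 := by
      have := dvd_sub h1 hpm'
      rwa [hm1, sub_sub_cancel] at this
    exact hpp.not_unit (isUnit_of_dvd_one h2)
  have hpk : ¬ (p : ℤ) ∣ k := fun h => hpK (h.mul_left _)
  have hp2 : ¬ (p : ℤ) ∣ 2 := fun h => hpK (h.mul_right _)
  have hpN : ¬ (p : ℤ) ∣ N := fun h => hpk (by rw [hk, mul_assoc]; exact h.mul_right _)
  have hpxn : ¬ (p : ℤ) ∣ x.num := fun h => hpN (by rw [hN]; exact h.mul_right _)
  have hpxd : ¬ (p : ℤ) ∣ x.den := fun h => hpN (by rw [hN]; exact h.mul_left _)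
  have hpnn : ¬ (p : ℤ) ∣ n.num := fun h => hpk (by
    rw [hk]; exact (h.mul_left N).mul_right _)
  have hpnd : ¬ (p : ℤ) ∣ n.den := fun h => hpk (by rw [hk]; exact h.mul_left _)
  set T : ℤ := N * (2 * k) with hT
  have hpT : ¬ (p : ℤ) ∣ T := by
    intro h
    rcases hpp.dvd_or_dvd h with h | h
    · exact hpN h
    · exact hpK h
  have hdvd : (p : ℤ) ∣ T ^ 2 - N := by
    have : T ^ 2 - N = N * m1 := by rw [hT, hm1]; ring
    rw [this]; exact hpm'.mul_left _
  obtain ⟨T', hT'1, hT'2⟩ : ∃ T' : ℤ, (p : ℤ) ∣ T' ^ 2 - N ∧ ¬ (p : ℤ) ^ 2 ∣ T' ^ 2 - N := by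
    by_cases h : (p : ℤ) ^ 2 ∣ T ^ 2 - N
    · refine ⟨T + p, ?_, ?_⟩
      · have : (T + p) ^ 2 - N = (T ^ 2 - N) + p * (2 * T + p) := by ring
        rw [this]
        exact dvd_add hdvd (dvd_mul_right _ _)
      · intro h2
        have e : (T + p) ^ 2 - N = (T ^ 2 - N) + p ^ 2 + p * (2 * T) := by ring
        rw [e] at h2
        have h3 : (p : ℤ) ^ 2 ∣ p * (2 * T) := by
          have := dvd_sub h2 (dvd_add h (dvd_refl ((p : ℤ) ^ 2)))
          rwa [add_sub_cancel_left] at this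
        rw [sq] at h3
        have h4 : (p : ℤ) ∣ 2 * T := (mul_dvd_mul_iff_left hpp.ne_zero).1 h3
        rcases hpp.dvd_or_dvd h4 with h5 | h5
        · exact hp2 h5
        · exact hpT h5
    · exact ⟨T, hdvd, h⟩
  have hval : padicValInt p (T' ^ 2 - N) = 1 := by
    have h0 : T' ^ 2 - N ≠ 0 := by
      intro h; rw [h] at hT'2; exact hT'2 (dvd_zero _)
    have h1 : 1 ≤ padicValInt p (T' ^ 2 - N) := by
      have := (padicValInt_dvd_iff (p := p) 1 (T' ^ 2 - N)).1 (by rw [pow_one]; exact hT'1)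
      rcases this with h | h
      · exact absurd h h0
      · exact h
    have h2 : ¬ 2 ≤ padicValInt p (T' ^ 2 - N) := by
      intro h
      exact hT'2 ((padicValInt_dvd_iff (p := p) 2 (T' ^ 2 - N)).2 (Or.inr h))
    omega
  have hvxn : padicValInt p x.num = 0 := padicValInt.eq_zero_of_not_dvd hpxn
  have hvnn : padicValInt p n.num = 0 := padicValInt.eq_zero_of_not_dvd hpnn
  have hvxd : padicValNat p x.den = 0 := padicValNat.eq_zero_of_not_dvd
    (fun h => hpxd (Int.natCast_dvd_natCast.2 h))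
  have hvnd : padicValNat p n.den = 0 := padicValNat.eq_zero_of_not_dvd
    (fun h => hpnd (Int.natCast_dvd_natCast.2 h))
  refine ⟨(T' : ℚ) / x.den, p, hp, ?_, ?_, ?_⟩
  · have hd : (x.den : ℚ) ≠ 0 := by exact_mod_cast x.den_ne_zero
    have e : ((T' : ℚ) / x.den) ^ 2 - x = ((T' ^ 2 - N : ℤ) : ℚ) / ((x.den : ℚ) ^ 2) := by
      have hxq : x * x.den = x.num := Rat.mul_den_eq_num x
      push_cast
      rw [hN]; push_cast
      rw [← hxq]
      field_simp
    rw [e, padicValRat.div, padicValRat.of_int, hval, padicValRat.pow, padicValRat.of_nat, hvxd]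
    · simp
    · intro h
      have h0 : T' ^ 2 - N = 0 := by exact_mod_cast h
      rw [h0] at hval; simp at hval
    · exact pow_ne_zero _ hd
  · rw [padicValRat_def, hvxn, hvxd]; simp
  · rw [padicValRat_def, hvnn, hvnd]; simp

section

variable {Ω : Type*} [Field Ω] [Algebra ℚ Ω] [IsAlgClosure ℚ Ω]

theorem exists_sqrt (y : Ω) : ∃ z : Ω, z ^ 2 = y := by
  haveI : IsAlgClosed Ω := IsAlgClosure.isAlgClosed ℚ
  exact IsAlgClosed.exists_pow_nat_eq y (by norm_num)

/-- the case of a non-square `x` -/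
theorem sqrt_mem_aux (x p q : ℚ) (hx : ¬ IsSquare x) (X D : Ω) (hX : X ^ 2 = algebraMap ℚ Ω x)
    (hD : D ^ 2 = algebraMap ℚ Ω p + algebraMap ℚ Ω q * X) : D ∈ compD4 ℚ Ω := by
  by_cases hD0 : D = 0
  · rw [hD0]; exact zero_mem _
  have hx0 : x ≠ 0 := by
    rintro rfl
    exact hx ⟨0, by ring⟩
  have hn0 : p ^ 2 - x * q ^ 2 ≠ 0 := by
    intro h
    by_cases hq : q = 0
    · subst hq
      have : p = 0 := by
        have : p ^ 2 = 0 := by linarith [h]
        exact pow_eq_zero_iff two_ne_zero |>.1 this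
      subst this
      apply hD0
      have : D ^ 2 = 0 := by rw [hD]; simp
      exact pow_eq_zero_iff two_ne_zero |>.1 this
    · apply hx
      refine ⟨p / q, ?_⟩
      field_simp
      linarith
  obtain ⟨t, l, hl, h1, h2, h3⟩ := exists_t x (p ^ 2 - x * q ^ 2) hx0 hn0
  haveI : Fact l.Prime := ⟨hl⟩
  have hm0 : t ^ 2 - x ≠ 0 := by
    intro h; rw [h] at h1; simp at h1
  obtain ⟨C, hC⟩ := exists_sqrt (Ω := Ω) (algebraMap ℚ Ω t + algebraMap ℚ Ω 1 * X)
  obtain ⟨C', hC'⟩ := exists_sqrt (Ω := Ω) (algebraMap ℚ Ω t - algebraMap ℚ Ω 1 * X)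
  obtain ⟨D', hD'⟩ := exists_sqrt (Ω := Ω) (algebraMap ℚ Ω p - algebraMap ℚ Ω q * X)
  have hCmem : C ∈ compD4 ℚ Ω := by
    refine dih_mem x t 1 X C C' hX hC hC' hx ?_ ?_
    · apply notSquare_of_val (p := l)
      rw [one_pow, mul_one]; exact h1
    · apply notSquare_of_val (p := l)
      rw [one_pow, mul_one, padicValRat.mul hx0 hm0, h1, h2]; rfl
  have hDC : D * C ∈ compD4 ℚ Ω := by
    refine dih_mem x (p * t + q * x) (p + q * t) X (D * C) (D' * C') hX ?_ ?_ hx ?_ ?_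
    · rw [mul_pow, hD, hC]
      simp only [map_add, map_mul, map_one, ← hX]
      ring
    · rw [mul_pow, hD', hC']
      simp only [map_add, map_mul, map_one, ← hX]
      ring
    · have e : (p * t + q * x) ^ 2 - x * (p + q * t) ^ 2
          = (p ^ 2 - x * q ^ 2) * (t ^ 2 - x) := by ring
      apply notSquare_of_val (p := l)
      rw [e, padicValRat.mul hn0 hm0, h1, h3]; rfl
    · have e : x * ((p * t + q * x) ^ 2 - x * (p + q * t) ^ 2)
          = x * ((p ^ 2 - x * q ^ 2) * (t ^ 2 - x)) := by ring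
      apply notSquare_of_val (p := l)
      rw [e, padicValRat.mul hx0 (mul_ne_zero hn0 hm0), padicValRat.mul hn0 hm0, h1, h2, h3]; rfl
  have hC0 : C ≠ 0 := by
    intro h
    apply hm0
    have e : (0 : Ω) = algebraMap ℚ Ω (t ^ 2 - x) := by
      have : (C * C') ^ 2 = algebraMap ℚ Ω (t ^ 2 - x) := by
        rw [mul_pow, hC, hC']
        simp only [map_sub, map_pow, map_one, ← hX]
        ring
      rw [← this, h]; ring
    apply (algebraMap ℚ Ω).injective
    rw [← e, map_zero]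
  have : D = D * C / C := by field_simp
  rw [this]
  exact (compD4 ℚ Ω).div_mem hDC hCmem

/-- **Lemma A**: every square root of an element of a quadratic (or trivial) extension of `ℚ`
lies in the compositum of all `D₄`-extensions. -/
theorem sqrt_mem (x p q : ℚ) (X D : Ω) (hX : X ^ 2 = algebraMap ℚ Ω x)
    (hD : D ^ 2 = algebraMap ℚ Ω p + algebraMap ℚ Ω q * X) : D ∈ compD4 ℚ Ω := by
  by_cases hx : IsSquare x
  · obtain ⟨r, hr⟩ := hx
    have hXr : ∃ s : ℚ, X = algebraMap ℚ Ω s := by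
      have : X ^ 2 = (algebraMap ℚ Ω r) ^ 2 := by rw [hX, hr, map_mul, sq]
      rcases sq_eq_sq_iff_eq_or_eq_neg.1 this with h | h
      · exact ⟨r, h⟩
      · exact ⟨-r, by rw [h, map_neg]⟩
    obtain ⟨s, hs⟩ := hXr
    obtain ⟨Y, hY⟩ := exists_sqrt (Ω := Ω) (algebraMap ℚ Ω 2)
    refine sqrt_mem_aux 2 (p + q * s) 0 ?_ Y D hY ?_
    · intro h2
      have h3 : IsSquare (2 : ℕ) := by
        have := (Rat.isSquare_natCast_iff (n := 2)).1 (by exact_mod_cast h2)
        exact this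
      revert h3
      rintro ⟨k, hk⟩
      have : k ≤ 1 := by nlinarith
      interval_cases k <;> omega
    · rw [hD, hs, map_add, map_mul, map_zero, zero_mul, add_zero]
  · exact sqrt_mem_aux x p q hx X D hX hD

end

end Pool.Agent.H16.QD4
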