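import Mathlib
import Pool.Agent.H16.QD4

namespace Pool.Agent.H16.QD4

open IntermediateField QuaternionGroup

theorem exists_eigen {F K : Type*} [Field F] [Field K] [Algebra F K]
    (ρ : QuaternionGroup 2 →* (K ≃ₐ[F] K)) (hρ : Function.Injective ρ)
    (χ : QuaternionGroup 2 → ℤ) (hχ : ∀ g h, χ (g * h) = χ g * χ h) (h1 : χ 1 = 1) :
    ∃ y : K, y ≠ 0 ∧ ∀ g, ρ g y = (χ g : K) * y := by
  have hli := (linearIndependent_monoidHom K K).comp
    (fun g : QuaternionGroup 2 => ((ρ g : K ≃ₐ[F] K) : K →* K)) (by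
      intro g h hgh
      apply hρ
      apply AlgEquiv.ext
      intro y
      exact DFunLike.congr_fun hgh y)
  rw [Fintype.linearIndependent_iff] at hli
  by_contra hcon
  have hz : ∀ y : K, ∑ g, (χ g⁻¹ : K) * ρ g y = 0 := by
    intro y
    by_contra hne
    apply hcon
    refine ⟨_, hne, fun h => ?_⟩
    rw [map_sum, Finset.mul_sum]
    refine Fintype.sum_equiv (Equiv.mulLeft h) _ _ ?_
    intro g
    have e : χ g⁻¹ = χ (h * g)⁻¹ * χ h := by
      rw [← hχ]; congr 1; group
    rw [map_mul, map_intCast, Equiv.coe_mulLeft, e, map_mul, AlgEquiv.mul_apply]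
    push_cast
    have e2 : (χ h : K) * (χ h : K) = (χ (h * h) : K) := by rw [hχ]; push_cast; ring
    ring
  have := hli (fun g => (χ g⁻¹ : K)) (by
    ext y
    simpa using hz y) 1
  simp [h1] at this

def chi1 : QuaternionGroup 2 → ℤ
  | a _ => 1
  | xa _ => -1

def chi2 : QuaternionGroup 2 → ℤ
  | a i => if i.val % 2 = 0 then 1 else -1
  | xa i => if i.val % 2 = 0 then 1 else -1

theorem chi1_mul : ∀ g h, chi1 (g * h) = chi1 g * chi1 h := by decide
theorem chi2_mul : ∀ g h, chi2 (g * h) = chi2 g * chi2 h := by decide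

theorem q8_le {F : Type*} [Field F] [CharZero F] {Ω : Type*} [Field Ω] [Algebra F Ω]
    [IsAlgClosure F Ω] (M : IntermediateField F Ω)
    (hM : ∀ (x p q : F) (X D : Ω), X ^ 2 = algebraMap F Ω x →
      D ^ 2 = algebraMap F Ω p + algebraMap F Ω q * X → D ∈ M)
    (K : IntermediateField F Ω) (hK : IsGExt (QuaternionGroup 2) K) : K ≤ M := by
  obtain ⟨hgal, ⟨ι⟩⟩ := hK
  have hcz : CharZero K := charZero_of_injective_algebraMap (algebraMap F K).injective
  set ρ : QuaternionGroup 2 →* (K ≃ₐ[F] K) := ι.symm.toMonoidHom with hρ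
  have hinj : Function.Injective ρ := ι.symm.injective
  have hsurj : Function.Surjective ρ := ι.symm.surjective
  -- rational elements
  have hfix : ∀ y : K, ρ (a 1) y = y → ρ (xa 0) y = y → ∃ r : F, algebraMap F K r = y := by
    intro y h1 h2
    have : y ∈ (⊥ : IntermediateField F K) := by
      rw [InfiniteGalois.mem_bot_iff_fixed]
      intro g
      obtain ⟨g', rfl⟩ := hsurj g
      have hpow : ∀ k : ℕ, ρ ((a 1) ^ k) y = y := by
        intro k
        induction k with
        | zero => rw [pow_zero, map_one]; rfl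
        | succ k ih => rw [pow_succ, map_mul, AlgEquiv.mul_apply, h1, ih]
      have ha : ∀ i : ZMod 4, ρ (a i) y = y := by
        intro i
        have e : ∀ i : ZMod 4, (a i : QuaternionGroup 2) = (a 1) ^ i.val := by decide
        rw [e i]; exact hpow _
      rcases g' with i | i
      · exact ha i
      · have e : ∀ i : ZMod 4, (xa i : QuaternionGroup 2) = xa 0 * a i := by decide
        rw [e i, map_mul, AlgEquiv.mul_apply, ha, h2]
    rw [IntermediateField.mem_bot] at this
    exact this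
  set s : K ≃ₐ[F] K := ρ (a 1) with hs
  set t : K ≃ₐ[F] K := ρ (xa 0) with ht
  set z : K ≃ₐ[F] K := ρ (a 2) with hz
  have hss : ∀ y, s (s y) = z y := by
    intro y; rw [hs, hz, ← AlgEquiv.mul_apply, ← map_mul]; rfl
  have htt : ∀ y, t (t y) = z y := by
    intro y; rw [ht, hz, ← AlgEquiv.mul_apply, ← map_mul]; rfl
  have hst : ∀ y, s (t y) = z (t (s y)) := by
    intro y
    rw [hs, ht, hz, ← AlgEquiv.mul_apply, ← AlgEquiv.mul_apply, ← AlgEquiv.mul_apply, ← map_mul,
      ← map_mul, ← map_mul]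
    have : (a 1 : QuaternionGroup 2) * xa 0 = a 2 * (xa 0 * a 1) := by decide
    rw [this, mul_assoc]
  have hzs : ∀ y, z (s y) = s (z y) := by
    intro y
    rw [hs, hz, ← AlgEquiv.mul_apply, ← AlgEquiv.mul_apply, ← map_mul, ← map_mul]
    have : (a 2 : QuaternionGroup 2) * a 1 = a 1 * a 2 := by decide
    rw [this]
  have hzt : ∀ y, z (t y) = t (z y) := by
    intro y
    rw [ht, hz, ← AlgEquiv.mul_apply, ← AlgEquiv.mul_apply, ← map_mul, ← map_mul]
    have : (a 2 : QuaternionGroup 2) * xa 0 = xa 0 * a 2 := by decide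
    rw [this]
  have hzz : ∀ y, z (z y) = y := by
    intro y
    rw [hz, ← AlgEquiv.mul_apply, ← map_mul]
    have : (a 2 : QuaternionGroup 2) * a 2 = 1 := by decide
    rw [this, map_one]; rfl
  have hz1 : z ≠ 1 := by
    intro h
    have h2 : ρ (a 2) = ρ 1 := by rw [map_one]; exact h
    have h3 := hinj h2
    revert h3; decide
  obtain ⟨y0, hy0⟩ : ∃ y0, z y0 ≠ y0 := by
    by_contra hcon
    push Not at hcon
    exact hz1 (AlgEquiv.ext hcon)
  -- theta
  set θ : K := y0 - z y0 with hθ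
  have hθ0 : θ ≠ 0 := fun h => hy0 (sub_eq_zero.1 h).symm
  have hzθ : z θ = -θ := by rw [hθ, map_sub, hzz]; ring
  set θ1 : K := s θ with hθ1
  set θ2 : K := t θ with hθ2
  set θ3 : K := s (t θ) with hθ3
  have hθ10 : θ1 ≠ 0 := by rw [hθ1]; simpa using hθ0
  have hθ20 : θ2 ≠ 0 := by rw [hθ2]; simpa using hθ0
  have hθ30 : θ3 ≠ 0 := by rw [hθ3]; simpa using hθ0
  have s1 : s θ1 = -θ := by rw [hθ1, hss, hzθ]
  have s2 : s θ2 = θ3 := rfl
  have z1 : z θ1 = -θ1 := by rw [hθ1, hzs, hzθ, map_neg]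
  have z2 : z θ2 = -θ2 := by rw [hθ2, hzt, hzθ, map_neg]
  have z3 : z θ3 = -θ3 := by
    show z (s θ2) = -(s θ2)
    rw [hzs, z2, map_neg]
  have s3 : s θ3 = -θ2 := by
    show s (s θ2) = -θ2
    rw [hss, z2]
  have t2 : t θ2 = -θ := by rw [hθ2, htt, hzθ]
  have t1 : t θ1 = -θ3 := by
    have h := hst θ
    have h' : z θ3 = t θ1 := by
      show z (s (t θ)) = t (s θ)
      rw [h, hzz]
    rw [← h', z3]
  have t3 : t θ3 = θ1 := by
    have h := hst θ2
    rw [t2, map_neg] at h
    have h' : z (-(s θ)) = t θ3 := by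
      show z (-(s θ)) = t (s θ2)
      rw [h, hzz]
    rw [← h', map_neg]
    show -(z θ1) = θ1
    rw [z1, neg_neg]
  -- alpha, beta
  obtain ⟨α, hα0, hα⟩ := exists_eigen ρ hinj chi1 chi1_mul rfl
  obtain ⟨β, hβ0, hβ⟩ := exists_eigen ρ hinj chi2 chi2_mul rfl
  have sα : s α = α := by
    have := hα (a 1)
    have e : chi1 (a 1) = 1 := rfl
    rw [e] at this
    simpa using this
  have tα : t α = -α := by
    have := hα (xa 0)
    have e : chi1 (xa 0) = -1 := rfl
    rw [e] at this
    simpa using this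
  have sβ : s β = -β := by
    have := hβ (a 1)
    have e : chi2 (a 1) = -1 := rfl
    rw [e] at this
    simpa using this
  have tβ : t β = β := by
    have := hβ (xa 0)
    have e : chi2 (xa 0) = 1 := rfl
    rw [e] at this
    simpa using this
  obtain ⟨A, hA⟩ := hfix (α ^ 2) (by rw [map_pow, sα]) (by rw [map_pow, tα]; ring)
  obtain ⟨B, hB⟩ := hfix (β ^ 2) (by rw [map_pow, sβ]; ring) (by rw [map_pow, tβ])
  -- u
  obtain ⟨p1, hp1⟩ := hfix ((θ * θ1 / β + θ2 * (-θ3) / β) / 2)
    (by simp only [map_div₀, map_mul, map_add, map_neg, map_ofNat, s1, s2, s3, sβ, ← hθ1]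
        field_simp
        try ring)
    (by simp only [map_div₀, map_mul, map_add, map_neg, map_ofNat, t1, t2, t3, tβ, ← hθ2]
        field_simp
        try ring)
  obtain ⟨q1, hq1⟩ := hfix ((θ * θ1 / β - θ2 * (-θ3) / β) / (2 * α))
    (by simp only [map_div₀, map_mul, map_sub, map_neg, map_ofNat, s1, s2, s3, sβ, sα, ← hθ1]
        field_simp
        try ring)
    (by simp only [map_div₀, map_mul, map_sub, map_neg, map_ofNat, t1, t2, t3, tβ, tα, ← hθ2]
        field_simp
        try ring)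
  -- v
  obtain ⟨p2, hp2⟩ := hfix ((θ * θ2 / α + θ1 * θ3 / α) / 2)
    (by simp only [map_div₀, map_mul, map_add, map_neg, map_ofNat, s1, s2, s3, sα, ← hθ1]
        field_simp
        try ring)
    (by simp only [map_div₀, map_mul, map_add, map_neg, map_ofNat, t1, t2, t3, tα, ← hθ2]
        field_simp
        try ring)
  obtain ⟨q2, hq2⟩ := hfix ((θ * θ2 / α - θ1 * θ3 / α) / (2 * β))
    (by simp only [map_div₀, map_mul, map_sub, map_neg, map_ofNat, s1, s2, s3, sβ, sα, ← hθ1]
        field_simp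
        try ring)
    (by simp only [map_div₀, map_mul, map_sub, map_neg, map_ofNat, t1, t2, t3, tβ, tα, ← hθ2]
        field_simp
        try ring)
  -- w
  obtain ⟨p3, hp3⟩ := hfix ((θ * θ3 / α - θ1 * θ2 / α) / 2)
    (by simp only [map_div₀, map_mul, map_sub, map_neg, map_ofNat, s1, s2, s3, sα, ← hθ1]
        field_simp
        try ring)
    (by simp only [map_div₀, map_mul, map_sub, map_neg, map_ofNat, t1, t2, t3, tα, ← hθ2]
        field_simp
        try ring)
  obtain ⟨q3, hq3⟩ := hfix ((θ * θ3 / α + θ1 * θ2 / α) / (2 * (α * β)))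
    (by simp only [map_div₀, map_mul, map_add, map_neg, map_ofNat, s1, s2, s3, sβ, sα, ← hθ1]
        field_simp
        try ring)
    (by simp only [map_div₀, map_mul, map_add, map_neg, map_ofNat, t1, t2, t3, tβ, tα, ← hθ2]
        field_simp
        try ring)
  obtain ⟨r, hr⟩ := hfix (α ^ 2 / (θ * θ1 * θ2 * θ3))
    (by simp only [map_div₀, map_mul, map_pow, map_neg, s1, s2, s3, sα, ← hθ1]
        field_simp)
    (by simp only [map_div₀, map_mul, map_pow, map_neg, t1, t2, t3, tα, ← hθ2]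
        field_simp)
  -- move to Ω
  have hcΩ : CharZero Ω := charZero_of_injective_algebraMap (algebraMap F Ω).injective
  have hsqrt : ∀ y : Ω, ∃ c : Ω, c ^ 2 = y := by
    have : IsAlgClosed Ω := IsAlgClosure.isAlgClosed F
    intro y
    exact IsAlgClosed.exists_pow_nat_eq y (by norm_num)
  have hrat : ∀ r : F, algebraMap F Ω r ∈ M := fun r => M.algebraMap_mem r
  have hsq : ∀ (D : Ω) (r : F), D ^ 2 = algebraMap F Ω r → D ∈ M := by
    intro D r hD
    exact hM 1 r 0 1 D (by simp) (by rw [hD]; simp)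
  have coeA : ∀ r : F, ((algebraMap F K r : K) : Ω) = algebraMap F Ω r := fun _ => rfl
  have hαM : (α : Ω) ∈ M := hsq _ A (by rw [← coeA, hA]; push_cast; rfl)
  have hβM : (β : Ω) ∈ M := hsq _ B (by rw [← coeA, hB]; push_cast; rfl)
  have hu : θ * θ1 / β = algebraMap F K p1 + algebraMap F K q1 * α := by
    rw [hp1, hq1]; field_simp; ring
  have hv : β * (θ * θ2 / α) = algebraMap F K (q2 * B) + algebraMap F K p2 * β := by
    rw [map_mul, hp2, hq2, hB]; field_simp; ring
  have hw : θ * θ3 / α = algebraMap F K p3 + algebraMap F K q3 * (α * β) := by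
    rw [hp3, hq3]; field_simp; ring
  obtain ⟨C1, hC1⟩ := hsqrt ((θ * θ1 / β : K) : Ω)
  obtain ⟨C2, hC2⟩ := hsqrt ((β * (θ * θ2 / α) : K) : Ω)
  obtain ⟨C3, hC3⟩ := hsqrt ((θ * θ3 / α : K) : Ω)
  have hC1M : C1 ∈ M := by
    refine hM A p1 q1 (α : Ω) C1 ?_ ?_
    · rw [← coeA, hA]; push_cast; rfl
    · rw [hC1, hu]; push_cast; simp only [coeA]
  have hC2M : C2 ∈ M := by
    refine hM B (q2 * B) p2 (β : Ω) C2 ?_ ?_
    · rw [← coeA, hB]; push_cast; rfl
    · rw [hC2, hv]; push_cast; simp only [coeA]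
  have hC3M : C3 ∈ M := by
    refine hM (A * B) p3 q3 ((α * β : K) : Ω) C3 ?_ ?_
    · rw [← coeA, map_mul, hA, hB]; push_cast; ring
    · rw [hC3, hw]; push_cast; simp only [coeA]
  have hC10 : C1 ≠ 0 := by
    intro h
    have h2 : ((θ * θ1 / β : K) : Ω) = 0 := by rw [← hC1, h]; ring
    have h3 : (θ * θ1 / β : K) = 0 := by exact_mod_cast h2
    exact div_ne_zero (mul_ne_zero hθ0 hθ10) hβ0 h3
  have hC20 : C2 ≠ 0 := by
    intro h
    have h2 : ((β * (θ * θ2 / α) : K) : Ω) = 0 := by rw [← hC2, h]; ring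
    have h3 : (β * (θ * θ2 / α) : K) = 0 := by exact_mod_cast h2
    exact mul_ne_zero hβ0 (div_ne_zero (mul_ne_zero hθ0 hθ20) hα0) h3
  have hC30 : C3 ≠ 0 := by
    intro h
    have h2 : ((θ * θ3 / α : K) : Ω) = 0 := by rw [← hC3, h]; ring
    have h3 : (θ * θ3 / α : K) = 0 := by exact_mod_cast h2
    exact div_ne_zero (mul_ne_zero hθ0 hθ30) hα0 h3
  have hθM : (θ : Ω) ∈ M := by
    have hC4 : ((θ : Ω) / (C1 * C2 * C3)) ^ 2 = algebraMap F Ω r := by
      rw [div_pow, mul_pow, mul_pow, hC1, hC2, hC3, ← coeA, hr]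
      have : θ ^ 2 = (α ^ 2 / (θ * θ1 * θ2 * θ3)) *
          ((θ * θ1 / β) * (β * (θ * θ2 / α)) * (θ * θ3 / α)) := by
        field_simp
      have h2 : θ ^ 2 / ((θ * θ1 / β) * (β * (θ * θ2 / α)) * (θ * θ3 / α))
          = (α ^ 2 / (θ * θ1 * θ2 * θ3)) := by
        rw [div_eq_iff]
        · exact this
        · exact mul_ne_zero (mul_ne_zero (div_ne_zero (mul_ne_zero hθ0 hθ10) hβ0)
            (mul_ne_zero hβ0 (div_ne_zero (mul_ne_zero hθ0 hθ20) hα0)))
            (div_ne_zero (mul_ne_zero hθ0 hθ30) hα0)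
      rw [← h2]
      push_cast
      rfl
    have h4 := hsq _ r hC4
    have : (θ : Ω) = (θ / (C1 * C2 * C3)) * (C1 * C2 * C3) := by field_simp
    rw [this]
    exact M.mul_mem h4 (M.mul_mem (M.mul_mem hC1M hC2M) hC3M)
  -- elements fixed by z
  have hfixed : ∀ e : K, z e = e → (e : Ω) ∈ M := by
    intro e he
    have hse : s (s e) = e := by rw [hss, he]
    have hte : t (t e) = e := by rw [htt, he]
    have hze : ∀ y : K, z y = y → z (s y) = s y ∧ z (t y) = t y := by
      intro y hy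
      exact ⟨by rw [hzs, hy], by rw [hzt, hy]⟩
    have hts : t (s e) = s (t e) := by
      rw [hst, (hze _ (hze e he).1).2]
    have hsst : s (s (t e)) = t e := by rw [hss, (hze e he).2]
    have htst : t (s (t e)) = s e := by
      rw [← hts, htt, (hze e he).1]
    obtain ⟨e0, he0⟩ := hfix ((e + s e + t e + s (t e)) / 4)
      (by simp only [map_div₀, map_add, map_ofNat, hse, hsst]; ring)
      (by simp only [map_div₀, map_add, map_ofNat, hte, hts, htst]; ring)
    obtain ⟨e1, he1⟩ := hfix ((e + s e - t e - s (t e)) / (4 * α))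
      (by simp only [map_div₀, map_add, map_sub, map_mul, map_ofNat, hse, hsst, sα]; ring)
      (by simp only [map_div₀, map_add, map_sub, map_mul, map_ofNat, hte, hts, htst, tα]
          field_simp; ring)
    obtain ⟨e2, he2⟩ := hfix ((e - s e + t e - s (t e)) / (4 * β))
      (by simp only [map_div₀, map_add, map_sub, map_mul, map_ofNat, hse, hsst, sβ]
          field_simp; ring)
      (by simp only [map_div₀, map_add, map_sub, map_mul, map_ofNat, hte, hts, htst, tβ]; ring)
    obtain ⟨e3, he3⟩ := hfix ((e - s e - t e + s (t e)) / (4 * (α * β)))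
      (by simp only [map_div₀, map_add, map_sub, map_mul, map_ofNat, hse, hsst, sα, sβ]
          field_simp; ring)
      (by simp only [map_div₀, map_add, map_sub, map_mul, map_ofNat, hte, hts, htst, tα, tβ]
          field_simp; ring)
    have hsum : e = algebraMap F K e0 + algebraMap F K e1 * α + algebraMap F K e2 * β
        + algebraMap F K e3 * (α * β) := by
      rw [he0, he1, he2, he3]; field_simp; ring
    rw [hsum]
    push_cast
    try simp only [coeA]
    exact M.add_mem (M.add_mem (M.add_mem (hrat _) (M.mul_mem (hrat _) hαM))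
      (M.mul_mem (hrat _) hβM)) (M.mul_mem (hrat _) (M.mul_mem hαM hβM))
  -- all elements
  intro y hy
  have key : ∀ y : K, (y : Ω) ∈ M := by
    intro y
    have h1 := hfixed ((y + z y) / 2) (by
      simp only [map_div₀, map_add, map_ofNat, hzz]; ring)
    have h2 := hfixed ((y - z y) / (2 * θ)) (by
      simp only [map_div₀, map_sub, map_mul, map_ofNat, hzz, hzθ]
      field_simp; ring)
    have e : y = (y + z y) / 2 + (y - z y) / (2 * θ) * θ := by field_simp; ring
    rw [e]
    push_cast at h1 h2 ⊢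
    exact M.add_mem h1 (M.mul_mem h2 hθM)
  exact key ⟨y, hy⟩

end Pool.Agent.H16.QD4
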