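import Mathlib

/-! Bilinear bounds for rank-one expansions (endpoint estimates for the Clarkson interpolation). -/

namespace Pool.Agent.H16.SC

open scoped InnerProductSpace ComplexConjugate BigOperators

variable {H : Type*} [NormedAddCommGroup H] [InnerProductSpace ℂ H]

lemma sum_norm_sq_expand {E : Type*} [NormedAddCommGroup E] [InnerProductSpace ℂ E]
    {A B : Type*} [Fintype A] [Fintype B] [DecidableEq A] (U : A → E) (M : B → A → ℂ)
    (m : A → ℝ)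
    (h : ∀ a a', (∑ b, conj (M b a) * M b a') * ⟪U a, U a'⟫_ℂ
      = if a = a' then (m a : ℂ) else 0) :
    ∑ b, ‖∑ a, M b a • U a‖ ^ 2 = ∑ a, m a := by
  have key : ((∑ b, ‖∑ a, M b a • U a‖ ^ 2 : ℝ) : ℂ) = ((∑ a, m a : ℝ) : ℂ) := by
    push_cast
    have h1 : ∀ b, ((‖∑ a, M b a • U a‖ : ℂ)) ^ 2
        = ∑ a, ∑ a', conj (M b a) * M b a' * ⟪U a, U a'⟫_ℂ := by
      intro b
      refine (inner_self_eq_norm_sq_to_K (𝕜 := ℂ) (∑ a, M b a • U a)).symm.trans ?_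
      rw [sum_inner]
      refine Finset.sum_congr rfl fun a _ => ?_
      rw [inner_sum]
      refine Finset.sum_congr rfl fun a' _ => ?_
      rw [inner_smul_left, inner_smul_right]
      ring
    rw [Finset.sum_congr rfl fun b _ => h1 b, Finset.sum_comm]
    refine Finset.sum_congr rfl fun a _ => ?_
    rw [Finset.sum_comm]
    have h2 : ∀ a', ∑ b, conj (M b a) * M b a' * ⟪U a, U a'⟫_ℂ
        = if a = a' then (m a : ℂ) else 0 := by
      intro a'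
      rw [← h a a', Finset.sum_mul]
    rw [Finset.sum_congr rfl fun a' _ => h2 a']
    simp
  exact_mod_cast key

/-- realization of the sesquilinear product `(a,b) ↦ ⟪a,a'⟫⟪b',b⟫` in a Euclidean space -/
lemma exists_tensor {A : Type*} [Fintype A] (v : A → H) :
    ∃ (E : Type) (_ : NormedAddCommGroup E) (_ : InnerProductSpace ℂ E) (Ψ : A → A → E),
      ∀ a b a' b', ⟪Ψ a b, Ψ a' b'⟫_ℂ = ⟪v a, v a'⟫_ℂ * ⟪v b', v b⟫_ℂ := by
  classical
  let W : Submodule ℂ H := Submodule.span ℂ (Set.range v)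
  have : FiniteDimensional ℂ W := FiniteDimensional.span_of_finite ℂ (Set.finite_range v)
  let d := stdOrthonormalBasis ℂ W
  let w : A → W := fun a => ⟨v a, Submodule.subset_span ⟨a, rfl⟩⟩
  let ι := Fin (Module.finrank ℂ W)
  refine ⟨EuclideanSpace ℂ (ι × ι), inferInstance, inferInstance,
    fun a b => WithLp.toLp 2 (fun k => ⟪d k.1, w a⟫_ℂ * ⟪w b, d k.2⟫_ℂ), ?_⟩
  intro a b a' b'
  have h1 : ⟪v a, v a'⟫_ℂ = ∑ k, ⟪w a, d k⟫_ℂ * ⟪d k, w a'⟫_ℂ := by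
    rw [OrthonormalBasis.sum_inner_mul_inner]; rfl
  have h2 : ⟪v b', v b⟫_ℂ = ∑ k, ⟪w b', d k⟫_ℂ * ⟪d k, w b⟫_ℂ := by
    rw [OrthonormalBasis.sum_inner_mul_inner]; rfl
  rw [h1, h2, Finset.sum_mul_sum, PiLp.inner_apply, ← Finset.univ_product_univ,
    Finset.sum_product]
  refine Finset.sum_congr rfl fun k _ => Finset.sum_congr rfl fun l _ => ?_
  simp only [RCLike.inner_apply, map_mul, inner_conj_symm]
  ring

section bounds

variable {A G B J : Type*} [Fintype A] [Fintype G] [Fintype B] [Fintype J]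
  [DecidableEq A] [DecidableEq G] [DecidableEq B] [DecidableEq J]

/-- the bilinear form -/
noncomputable def bil (pi : A → J) (ph : G → B) (T : B → J → ℝ) (e f : A → H) (g h : G → H)
    (c : A → ℂ) (x : G → ℂ) : ℂ :=
  ∑ a, ∑ r, (T (ph r) (pi a) : ℂ) * c a * x r * (⟪f a, h r⟫_ℂ * ⟪g r, e a⟫_ℂ)

omit [Fintype J] in
lemma hs_bound (pi : A → J) (ph : G → B) (T : B → J → ℝ) (N : ℝ)
    (hT : ∀ j k, ∑ b, T b j * T b k = if j = k then N else 0)
    (e f : A → H) (g h : G → H)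
    (he : ∀ a a', pi a = pi a' → ⟪e a, e a'⟫_ℂ = if a = a' then 1 else 0)
    (hf : ∀ a a', pi a = pi a' → ⟪f a, f a'⟫_ℂ = if a = a' then 1 else 0)
    (hg : ∀ r r', ph r = ph r' → ⟪g r, g r'⟫_ℂ = if r = r' then 1 else 0)
    (hh : ∀ r r', ph r = ph r' → ⟪h r, h r'⟫_ℂ = if r = r' then 1 else 0)
    (c : A → ℂ) (x : G → ℂ) :
    ‖bil pi ph T e f g h c x‖ ≤ √(N * ∑ a, ‖c a‖ ^ 2) * √(∑ r, ‖x r‖ ^ 2) := by
  obtain ⟨E, i1, i2, Ψ, hΨ⟩ := exists_tensor (H := H)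
    (Sum.elim (Sum.elim e f) (Sum.elim g h))
  let U : A → E := fun a => Ψ (Sum.inl (Sum.inr a)) (Sum.inl (Sum.inl a))
  let V : G → E := fun r => Ψ (Sum.inr (Sum.inr r)) (Sum.inr (Sum.inl r))
  have hUV : ∀ a r, ⟪U a, V r⟫_ℂ = ⟪f a, h r⟫_ℂ * ⟪g r, e a⟫_ℂ := fun a r => by
    simp only [U, V, hΨ, Sum.elim_inl, Sum.elim_inr]
  have hUU : ∀ a a', ⟪U a, U a'⟫_ℂ = ⟪f a, f a'⟫_ℂ * ⟪e a', e a⟫_ℂ := fun a r => by
    simp only [U, hΨ, Sum.elim_inl, Sum.elim_inr]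
  have hVV : ∀ a a', ⟪V a, V a'⟫_ℂ = ⟪h a, h a'⟫_ℂ * ⟪g a', g a⟫_ℂ := fun a r => by
    simp only [V, hΨ, Sum.elim_inl, Sum.elim_inr]
  let P : B → E := fun b => ∑ a, ((T b (pi a) : ℂ) * conj (c a)) • U a
  let Q : B → E := fun b => ∑ r, (if ph r = b then x r else 0) • V r
  have hP : ∑ b, ‖P b‖ ^ 2 = ∑ a, N * ‖c a‖ ^ 2 := by
    apply sum_norm_sq_expand
    intro a a'
    have h1 : ∑ b, conj ((T b (pi a) : ℂ) * conj (c a)) * ((T b (pi a') : ℂ) * conj (c a'))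
        = ((∑ b, T b (pi a) * T b (pi a') : ℝ) : ℂ) * (c a * conj (c a')) := by
      push_cast
      rw [Finset.sum_mul]
      refine Finset.sum_congr rfl fun b _ => ?_
      simp only [map_mul, Complex.conj_ofReal, Complex.conj_conj]
      ring
    rw [h1, hT, hUU]
    by_cases hpp : pi a = pi a'
    · rw [if_pos hpp, hf a a' hpp, he a' a hpp.symm]
      by_cases haa : a = a'
      · subst haa
        simp only [if_true, mul_one]
        rw [Complex.mul_conj, Complex.normSq_eq_norm_sq]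
        push_cast
        ring
      · rw [if_neg haa, if_neg haa]; simp
    · rw [if_neg hpp, if_neg (fun h => hpp (by rw [h]))]
      simp
  have hQ : ∑ b, ‖Q b‖ ^ 2 = ∑ r, ‖x r‖ ^ 2 := by
    apply sum_norm_sq_expand
    intro r r'
    have h1 : ∑ b, conj (if ph r = b then x r else 0) * (if ph r' = b then x r' else 0)
        = if ph r = ph r' then conj (x r) * x r' else 0 := by
      rw [Finset.sum_eq_single (ph r)]
      · by_cases hpp : ph r = ph r'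
        · simp [hpp]
        · have : ¬ ph r' = ph r := fun h => hpp h.symm
          simp [hpp, this]
      · intro b _ hb
        have : ¬ ph r = b := fun h => hb h.symm
        simp [this]
      · intro h; exact absurd (Finset.mem_univ _) h
    rw [h1, hVV]
    by_cases hpp : ph r = ph r'
    · rw [if_pos hpp, hh r r' hpp, hg r' r hpp.symm]
      by_cases haa : r = r'
      · subst haa
        simp only [if_true, mul_one]
        rw [mul_comm, Complex.mul_conj, Complex.normSq_eq_norm_sq]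
      · rw [if_neg haa, if_neg haa]; simp
    · rw [if_neg hpp, if_neg (fun h => hpp (by rw [h]))]
      simp
  have hmain : bil pi ph T e f g h c x = ∑ b, ⟪P b, Q b⟫_ℂ := by
    have h1 : ∀ b, ⟪P b, Q b⟫_ℂ = ∑ a, ∑ r, (if ph r = b then
        (T b (pi a) : ℂ) * c a * x r * (⟪f a, h r⟫_ℂ * ⟪g r, e a⟫_ℂ) else 0) := by
      intro b
      simp only [P, Q]
      rw [sum_inner]
      refine Finset.sum_congr rfl fun a _ => ?_
      rw [inner_sum]
      refine Finset.sum_congr rfl fun r _ => ?_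
      rw [inner_smul_left, inner_smul_right, hUV]
      by_cases hb : ph r = b
      · rw [if_pos hb, if_pos hb]
        simp only [map_mul, Complex.conj_ofReal, Complex.conj_conj]
        ring
      · rw [if_neg hb, if_neg hb]; ring
    rw [Finset.sum_congr rfl fun b _ => h1 b, Finset.sum_comm]
    refine Finset.sum_congr rfl fun a _ => ?_
    rw [Finset.sum_comm]
    refine Finset.sum_congr rfl fun r _ => ?_
    simp
  rw [hmain]
  calc ‖∑ b, ⟪P b, Q b⟫_ℂ‖ ≤ ∑ b, ‖⟪P b, Q b⟫_ℂ‖ := norm_sum_le _ _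
    _ ≤ ∑ b, ‖P b‖ * ‖Q b‖ := Finset.sum_le_sum fun b _ => norm_inner_le_norm _ _
    _ ≤ √(∑ b, ‖P b‖ ^ 2) * √(∑ b, ‖Q b‖ ^ 2) := Real.sum_mul_le_sqrt_mul_sqrt _ _ _
    _ = _ := by rw [hP, hQ, Finset.mul_sum]

lemma bessel_two {K : Type*} [Fintype K] (g h : K → H) (hg : Orthonormal ℂ g)
    (hh : Orthonormal ℂ h) (e f : H) (he : ‖e‖ = 1) (hf : ‖f‖ = 1) :
    ∑ r, ‖⟪f, h r⟫_ℂ‖ * ‖⟪g r, e⟫_ℂ‖ ≤ 1 := by
  have h1 : ∑ r, ‖⟪f, h r⟫_ℂ‖ ^ 2 ≤ 1 := by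
    have := hh.sum_inner_products_le (x := f) (s := Finset.univ)
    rw [hf] at this
    simpa [norm_inner_symm] using this
  have h2 : ∑ r, ‖⟪g r, e⟫_ℂ‖ ^ 2 ≤ 1 := by
    have := hg.sum_inner_products_le (x := e) (s := Finset.univ)
    rw [he] at this
    simpa using this
  calc ∑ r, ‖⟪f, h r⟫_ℂ‖ * ‖⟪g r, e⟫_ℂ‖
      ≤ √(∑ r, ‖⟪f, h r⟫_ℂ‖ ^ 2) * √(∑ r, ‖⟪g r, e⟫_ℂ‖ ^ 2) :=
        Real.sum_mul_le_sqrt_mul_sqrt _ _ _
    _ ≤ 1 * 1 := by
        apply mul_le_mul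
        · exact Real.sqrt_le_iff.mpr ⟨by norm_num, by simpa using h1⟩
        · exact Real.sqrt_le_iff.mpr ⟨by norm_num, by simpa using h2⟩
        · positivity
        · norm_num
    _ = 1 := by norm_num

lemma l1_bound (pi : A → J) (ph : G → B) (T : B → J → ℝ) (hT1 : ∀ b j, |T b j| ≤ 1)
    (e f : A → H) (g h : G → H)
    (he : ∀ a a', pi a = pi a' → ⟪e a, e a'⟫_ℂ = if a = a' then 1 else 0)
    (hf : ∀ a a', pi a = pi a' → ⟪f a, f a'⟫_ℂ = if a = a' then 1 else 0)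
    (hg : ∀ r r', ph r = ph r' → ⟪g r, g r'⟫_ℂ = if r = r' then 1 else 0)
    (hh : ∀ r r', ph r = ph r' → ⟪h r, h r'⟫_ℂ = if r = r' then 1 else 0)
    (c : A → ℂ) (x : G → ℂ) (ρ : B → ℝ) (hρ0 : ∀ b, 0 ≤ ρ b) (hρ : ∀ r, ‖x r‖ ≤ ρ (ph r)) :
    ‖bil pi ph T e f g h c x‖ ≤ (∑ a, ‖c a‖) * ∑ b, ρ b := by
  have hee : ∀ a, ‖e a‖ = 1 := fun a => by
    rw [norm_eq_sqrt_re_inner (𝕜 := ℂ), he a a rfl]; simp
  have hff : ∀ a, ‖f a‖ = 1 := fun a => by
    rw [norm_eq_sqrt_re_inner (𝕜 := ℂ), hf a a rfl]; simp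
  have hkey : ∀ a, ∑ r, ρ (ph r) * (‖⟪f a, h r⟫_ℂ‖ * ‖⟪g r, e a⟫_ℂ‖) ≤ ∑ b, ρ b := by
    intro a
    rw [← Finset.sum_fiberwise (s := Finset.univ) (g := ph)]
    refine Finset.sum_le_sum fun b _ => ?_
    have h1 : ∑ r ∈ Finset.univ.filter (fun r => ph r = b),
        ρ (ph r) * (‖⟪f a, h r⟫_ℂ‖ * ‖⟪g r, e a⟫_ℂ‖)
        = ρ b * ∑ r : {r // ph r = b}, ‖⟪f a, h r⟫_ℂ‖ * ‖⟪g r, e a⟫_ℂ‖ := by
      rw [Finset.sum_subtype (p := fun r => ph r = b) _ (by intro r; simp), Finset.mul_sum]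
      refine Finset.sum_congr rfl fun r _ => ?_
      rw [r.2]
    rw [h1]
    have h2 := bessel_two (fun r : {r // ph r = b} => g r) (fun r : {r // ph r = b} => h r)
      (by
        rw [orthonormal_iff_ite]
        intro r r'
        rw [hg r r' (r.2.trans r'.2.symm)]
        simp only [Subtype.ext_iff])
      (by
        rw [orthonormal_iff_ite]
        intro r r'
        rw [hh r r' (r.2.trans r'.2.symm)]
        simp only [Subtype.ext_iff]) (e a) (f a) (hee a) (hff a)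
    calc ρ b * _ ≤ ρ b * 1 := mul_le_mul_of_nonneg_left h2 (hρ0 b)
      _ = ρ b := mul_one _
  unfold bil
  calc ‖∑ a, ∑ r, (T (ph r) (pi a) : ℂ) * c a * x r * (⟪f a, h r⟫_ℂ * ⟪g r, e a⟫_ℂ)‖
      ≤ ∑ a, ∑ r, ‖(T (ph r) (pi a) : ℂ) * c a * x r * (⟪f a, h r⟫_ℂ * ⟪g r, e a⟫_ℂ)‖ := by
        refine (norm_sum_le _ _).trans (Finset.sum_le_sum fun a _ => norm_sum_le _ _)
    _ ≤ ∑ a, ∑ r, ‖c a‖ * (ρ (ph r) * (‖⟪f a, h r⟫_ℂ‖ * ‖⟪g r, e a⟫_ℂ‖)) := by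
        refine Finset.sum_le_sum fun a _ => Finset.sum_le_sum fun r _ => ?_
        simp only [norm_mul, Complex.norm_real, Real.norm_eq_abs]
        have h1 := hT1 (ph r) (pi a)
        have h2 := hρ r
        have h3 : |T (ph r) (pi a)| * ‖c a‖ * ‖x r‖ ≤ 1 * ‖c a‖ * ρ (ph r) := by
          gcongr
        calc |T (ph r) (pi a)| * ‖c a‖ * ‖x r‖ * (‖⟪f a, h r⟫_ℂ‖ * ‖⟪g r, e a⟫_ℂ‖)
            ≤ 1 * ‖c a‖ * ρ (ph r) * (‖⟪f a, h r⟫_ℂ‖ * ‖⟪g r, e a⟫_ℂ‖) := by gcongr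
          _ = _ := by ring
    _ = ∑ a, ‖c a‖ * ∑ r, ρ (ph r) * (‖⟪f a, h r⟫_ℂ‖ * ‖⟪g r, e a⟫_ℂ‖) := by
        refine Finset.sum_congr rfl fun a _ => ?_
        rw [Finset.mul_sum]
    _ ≤ ∑ a, ‖c a‖ * ∑ b, ρ b := by
        refine Finset.sum_le_sum fun a _ => ?_
        exact mul_le_mul_of_nonneg_left (hkey a) (norm_nonneg _)
    _ = _ := by rw [Finset.sum_mul]

end bounds

end Pool.Agent.H16.SC
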