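import Pool.Agent.H16.SC1

/-! Three-lines interpolation for the bilinear form. -/

namespace Pool.Agent.H16.SC

open scoped InnerProductSpace ComplexConjugate BigOperators

/-- `y ^ z` with the convention `0 ^ z = 0` for all `z` -/
noncomputable def ee (y : ℝ) (z : ℂ) : ℂ := if y = 0 then 0 else Complex.exp (z * (Real.log y : ℂ))

lemma ee_norm {y : ℝ} (hy : 0 ≤ y) (z : ℂ) : ‖ee y z‖ = if y = 0 then 0 else y ^ z.re := by
  unfold ee
  split_ifs with h
  · simp
  · have hy' : 0 < y := lt_of_le_of_ne hy (Ne.symm h)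
    rw [Complex.norm_exp, Real.rpow_def_of_pos hy']
    congr 1
    simp [Complex.mul_re, mul_comm]

lemma ee_norm_le {y : ℝ} (hy : 0 ≤ y) (z : ℂ) : ‖ee y z‖ ≤ y ^ z.re := by
  rw [ee_norm hy]
  split_ifs with h
  · positivity
  · exact le_rfl

lemma ee_norm_le_one {y : ℝ} (hy : 0 ≤ y) (hy1 : y ≤ 1) (z : ℂ) (hz : 0 ≤ z.re) :
    ‖ee y z‖ ≤ 1 :=
  (ee_norm_le hy z).trans (Real.rpow_le_one hy hy1 hz)

lemma ee_norm_sq_le {y : ℝ} (hy : 0 ≤ y) (z : ℂ) : ‖ee y z‖ ^ 2 ≤ y ^ (2 * z.re) := by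
  calc ‖ee y z‖ ^ 2 ≤ (y ^ z.re) ^ 2 := by
        gcongr
        exact ee_norm_le hy z
    _ = y ^ (z.re * (2 : ℕ)) := (Real.rpow_mul_natCast hy _ _).symm
    _ = y ^ (2 * z.re) := by norm_num [mul_comm]

lemma ee_one {y : ℝ} (hy : 0 ≤ y) : ee y 1 = (y : ℂ) := by
  unfold ee
  split_ifs with h
  · simp [h]
  · have hy' : 0 < y := lt_of_le_of_ne hy (Ne.symm h)
    rw [one_mul, ← Complex.ofReal_exp, Real.exp_log hy']

lemma ee_diff (y : ℝ) (κ : ℂ → ℂ) (hκ : Differentiable ℂ κ) :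
    Differentiable ℂ (fun z => ee y (κ z)) := by
  unfold ee
  split_ifs with h
  · exact differentiable_const _
  · exact (hκ.mul_const _).cexp

variable {H : Type*} [NormedAddCommGroup H] [InnerProductSpace ℂ H]

variable {A G B J : Type*} [Fintype A] [Fintype G] [Fintype B] [Fintype J]
  [DecidableEq A] [DecidableEq G] [DecidableEq B] [DecidableEq J]

lemma le_one_of_rpow_sum {K : Type*} [Fintype K] (C : K → ℝ) (hC : ∀ a, 0 ≤ C a) (q : ℝ)
    (hq : 0 < q) (h : ∑ a, C a ^ q ≤ 1) (a : K) : C a ≤ 1 := by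
  by_contra hlt
  push_neg at hlt
  have h1 : 1 < C a ^ q := Real.one_lt_rpow hlt hq
  have h2 : C a ^ q ≤ ∑ a, C a ^ q :=
    Finset.single_le_sum (f := fun a => C a ^ q) (fun b _ => Real.rpow_nonneg (hC b) q)
      (Finset.mem_univ a)
  linarith

lemma core (pi : A → J) (ph : G → B) (T : B → J → ℝ) (N : ℝ) (hN : 0 ≤ N)
    (hT1 : ∀ b j, |T b j| ≤ 1)
    (hT : ∀ j k, ∑ b, T b j * T b k = if j = k then N else 0)
    (e f : A → H) (g h : G → H)
    (he : ∀ a a', pi a = pi a' → ⟪e a, e a'⟫_ℂ = if a = a' then 1 else 0)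
    (hf : ∀ a a', pi a = pi a' → ⟪f a, f a'⟫_ℂ = if a = a' then 1 else 0)
    (hg : ∀ r r', ph r = ph r' → ⟪g r, g r'⟫_ℂ = if r = r' then 1 else 0)
    (hh : ∀ r r', ph r = ph r' → ⟪h r, h r'⟫_ℂ = if r = r' then 1 else 0)
    (p q : ℝ) (hp : 2 ≤ p) (hpq : 1 / p + 1 / q = 1)
    (C : A → ℝ) (hC : ∀ a, 0 ≤ C a) (hC1 : ∑ a, C a ^ q ≤ 1)
    (r : B → ℝ) (hr : ∀ b, 0 ≤ r b) (hr1 : ∑ b, r b ^ q ≤ 1)
    (y : G → ℝ) (hy : ∀ s, 0 ≤ y s)
    (hy1 : ∀ b, ∑ s ∈ Finset.univ.filter (fun s => ph s = b), y s ^ p ≤ 1) :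
    ‖bil pi ph T e f g h (fun a => (C a : ℂ)) (fun s => (r (ph s) : ℂ) * (y s : ℂ))‖
      ≤ N ^ (1 / p) := by
  have hp0 : 0 < p := by linarith
  have hpi : 1 / p ≤ 1 / 2 := one_div_le_one_div_of_le (by norm_num) hp
  have hpi0 : 0 < 1 / p := by positivity
  have hq0 : 0 < q := by
    have : 0 < 1 / q := by linarith
    exact one_div_pos.mp this
  have hC2 : ∀ a, C a ≤ 1 := le_one_of_rpow_sum C hC q hq0 hC1
  have hr2 : ∀ b, r b ≤ 1 := le_one_of_rpow_sum r hr q hq0 hr1
  have hy2 : ∀ s, y s ≤ 1 := by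
    intro s
    by_contra hlt
    push_neg at hlt
    have h1 : 1 < y s ^ p := Real.one_lt_rpow hlt hp0
    have h2 : y s ^ p ≤ ∑ s' ∈ Finset.univ.filter (fun s' => ph s' = ph s), y s' ^ p :=
      Finset.single_le_sum (f := fun a => y a ^ p) (fun b _ => Real.rpow_nonneg (hy b) p)
        (by simp)
    linarith [hy1 (ph s)]
  let cc : ℂ → A → ℂ := fun z a => ee (C a) ((q : ℂ) * (1 + z) / 2)
  let xx : ℂ → G → ℂ := fun z s =>
    ee (r (ph s)) ((q : ℂ) * (1 + z) / 2) * ee (y s) ((p : ℂ) * (1 - z) / 2)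
  let Φ : ℂ → ℂ := fun z => bil pi ph T e f g h (cc z) (xx z)
  have hre1 : ∀ z : ℂ, ((q : ℂ) * (1 + z) / 2).re = q * (1 + z.re) / 2 := by
    intro z
    have : ((q : ℂ) * (1 + z) / 2) = ((q / 2 : ℝ) : ℂ) * (1 + z) := by push_cast; ring
    rw [this, Complex.re_ofReal_mul]
    simp; ring
  have hre2 : ∀ z : ℂ, ((p : ℂ) * (1 - z) / 2).re = p * (1 - z.re) / 2 := by
    intro z
    have : ((p : ℂ) * (1 - z) / 2) = ((p / 2 : ℝ) : ℂ) * (1 - z) := by push_cast; ring
    rw [this, Complex.re_ofReal_mul]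
    simp; ring
  have hdiff : Differentiable ℂ Φ := by
    have h1 : ∀ a, Differentiable ℂ (fun z => cc z a) := fun a =>
      ee_diff _ _ (by fun_prop)
    have h2 : ∀ s, Differentiable ℂ (fun z => xx z s) := fun s =>
      (ee_diff _ _ (by fun_prop)).mul (ee_diff _ _ (by fun_prop))
    show Differentiable ℂ (fun z => ∑ a, ∑ s, (T (ph s) (pi a) : ℂ) * cc z a * xx z s *
      (⟪f a, h s⟫_ℂ * ⟪g s, e a⟫_ℂ))
    refine Differentiable.fun_sum fun a _ => Differentiable.fun_sum fun s _ => ?_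
    exact (((h1 a).const_mul _).mul (h2 s)).mul_const _
  have hbdd : BddAbove ((norm ∘ Φ) '' Complex.HadamardThreeLines.verticalClosedStrip 0 1) := by
    refine ⟨∑ a, ∑ s, |T (ph s) (pi a)| * 1 * (1 * 1) * ‖⟪f a, h s⟫_ℂ * ⟪g s, e a⟫_ℂ‖, ?_⟩
    rintro _ ⟨z, hz, rfl⟩
    have hz0 : 0 ≤ z.re := hz.1
    have hz1 : z.re ≤ 1 := hz.2
    show ‖bil pi ph T e f g h (cc z) (xx z)‖ ≤ _
    unfold bil
    refine (norm_sum_le _ _).trans (Finset.sum_le_sum fun a _ => (norm_sum_le _ _).trans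
      (Finset.sum_le_sum fun s _ => ?_))
    rw [norm_mul, norm_mul, norm_mul, Complex.norm_real, Real.norm_eq_abs]
    have e1 : ‖cc z a‖ ≤ 1 := ee_norm_le_one (hC a) (hC2 a) _ (by rw [hre1]; positivity)
    have e2 : ‖xx z s‖ ≤ 1 * 1 := by
      show ‖ee (r (ph s)) _ * ee (y s) _‖ ≤ _
      rw [norm_mul]
      apply mul_le_mul
      · exact ee_norm_le_one (hr _) (hr2 _) _ (by rw [hre1]; positivity)
      · refine ee_norm_le_one (hy _) (hy2 _) _ ?_
        rw [hre2]
        have : 0 ≤ 1 - z.re := by linarith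
        positivity
      · positivity
      · norm_num
    gcongr
  have hleft : ∀ z ∈ Complex.re ⁻¹' {0}, ‖Φ z‖ ≤ √N := by
    intro z hz
    have hz0 : z.re = 0 := hz
    have hb := hs_bound pi ph T N hT e f g h he hf hg hh (cc z) (xx z)
    have s1 : ∑ a, ‖cc z a‖ ^ 2 ≤ 1 := by
      refine le_trans (Finset.sum_le_sum fun a _ => ?_) hC1
      refine (ee_norm_sq_le (hC a) _).trans (le_of_eq ?_)
      rw [hre1, hz0]; congr 1; ring
    have s2 : ∑ s, ‖xx z s‖ ^ 2 ≤ 1 := by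
      have t1 : ∀ s, ‖xx z s‖ ^ 2 ≤ r (ph s) ^ q * y s ^ p := by
        intro s
        show ‖ee (r (ph s)) _ * ee (y s) _‖ ^ 2 ≤ _
        rw [norm_mul, mul_pow]
        apply mul_le_mul
        · refine (ee_norm_sq_le (hr _) _).trans (le_of_eq ?_)
          rw [hre1, hz0]; congr 1; ring
        · refine (ee_norm_sq_le (hy _) _).trans (le_of_eq ?_)
          rw [hre2, hz0]; congr 1; ring
        · positivity
        · exact Real.rpow_nonneg (hr _) _
      calc ∑ s, ‖xx z s‖ ^ 2 ≤ ∑ s, r (ph s) ^ q * y s ^ p := Finset.sum_le_sum fun s _ => t1 s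
        _ = ∑ b, ∑ s ∈ Finset.univ.filter (fun s => ph s = b), r (ph s) ^ q * y s ^ p :=
            (Finset.sum_fiberwise _ _ _).symm
        _ = ∑ b, r b ^ q * ∑ s ∈ Finset.univ.filter (fun s => ph s = b), y s ^ p := by
            refine Finset.sum_congr rfl fun b _ => ?_
            rw [Finset.mul_sum]
            refine Finset.sum_congr rfl fun s hs => ?_
            rw [(Finset.mem_filter.mp hs).2]
        _ ≤ ∑ b, r b ^ q * 1 := by
            refine Finset.sum_le_sum fun b _ => ?_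
            exact mul_le_mul_of_nonneg_left (hy1 b) (Real.rpow_nonneg (hr b) q)
        _ ≤ 1 := by simpa using hr1
    calc ‖Φ z‖ ≤ _ := hb
      _ ≤ √(N * 1) * √1 := by gcongr
      _ = √N := by simp
  have hright : ∀ z ∈ Complex.re ⁻¹' {1}, ‖Φ z‖ ≤ 1 := by
    intro z hz
    have hz0 : z.re = 1 := hz
    have hb := l1_bound pi ph T hT1 e f g h he hf hg hh (cc z) (xx z) (fun b => r b ^ q)
      (fun b => Real.rpow_nonneg (hr b) q) (by
        intro s
        show ‖ee (r (ph s)) _ * ee (y s) _‖ ≤ _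
        rw [norm_mul]
        calc ‖ee (r (ph s)) ((q : ℂ) * (1 + z) / 2)‖ * ‖ee (y s) ((p : ℂ) * (1 - z) / 2)‖
            ≤ r (ph s) ^ q * 1 := by
              apply mul_le_mul
              · refine (ee_norm_le (hr _) _).trans (le_of_eq ?_)
                rw [hre1, hz0]; congr 1; ring
              · exact ee_norm_le_one (hy _) (hy2 _) _ (by rw [hre2, hz0]; simp)
              · positivity
              · exact Real.rpow_nonneg (hr _) _
          _ = _ := mul_one _)
    have s1 : ∑ a, ‖cc z a‖ ≤ 1 := by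
      refine le_trans (Finset.sum_le_sum fun a _ => ?_) hC1
      refine (ee_norm_le (hC a) _).trans (le_of_eq ?_)
      rw [hre1, hz0]; congr 1; ring
    calc ‖Φ z‖ ≤ _ := hb
      _ ≤ 1 * 1 := mul_le_mul s1 hr1 (Finset.sum_nonneg fun b _ => Real.rpow_nonneg (hr b) q)
          (by norm_num)
      _ = 1 := by norm_num
  have hθ : ((1 - 2 / p : ℝ) : ℂ) ∈ Complex.HadamardThreeLines.verticalClosedStrip 0 1 := by
    constructor
    · show (0 : ℝ) ≤ ((1 - 2 / p : ℝ) : ℂ).re
      rw [Complex.ofReal_re]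
      have : 2 / p = 2 * (1 / p) := by ring
      linarith
    · show ((1 - 2 / p : ℝ) : ℂ).re ≤ 1
      rw [Complex.ofReal_re]
      have : 2 / p = 2 * (1 / p) := by ring
      linarith
  have hthree := Complex.HadamardThreeLines.norm_le_interp_of_mem_verticalClosedStrip₀₁' Φ hθ
    hdiff.diffContOnCl hbdd hleft hright
  rw [Complex.ofReal_re, Real.one_rpow, mul_one] at hthree
  have hΦθ : Φ ((1 - 2 / p : ℝ) : ℂ)
      = bil pi ph T e f g h (fun a => (C a : ℂ)) (fun s => (r (ph s) : ℂ) * (y s : ℂ)) := by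
    have q1 : (q : ℂ) * (1 + ((1 - 2 / p : ℝ) : ℂ)) / 2 = 1 := by
      have : q * (1 + (1 - 2 / p)) / 2 = 1 := by
        have h1 : 1 / q = 1 - 1 / p := by linarith
        have h2 : q * (1 / q) = 1 := by field_simp
        rw [h1] at h2
        calc q * (1 + (1 - 2 / p)) / 2 = q * (1 - 1 / p) := by ring
          _ = 1 := h2
      exact_mod_cast congrArg (fun t : ℝ => (t : ℂ)) this
    have p1 : (p : ℂ) * (1 - ((1 - 2 / p : ℝ) : ℂ)) / 2 = 1 := by
      have : p * (1 - (1 - 2 / p)) / 2 = 1 := by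
        field_simp
        ring
      exact_mod_cast congrArg (fun t : ℝ => (t : ℂ)) this
    show bil pi ph T e f g h (cc _) (xx _) = _
    have e1 : cc ((1 - 2 / p : ℝ) : ℂ) = fun a => (C a : ℂ) := by
      funext a
      show ee (C a) _ = _
      rw [q1, ee_one (hC a)]
    have e2 : xx ((1 - 2 / p : ℝ) : ℂ) = fun s => (r (ph s) : ℂ) * (y s : ℂ) := by
      funext s
      show ee (r (ph s)) _ * ee (y s) _ = _
      rw [q1, p1, ee_one (hr _), ee_one (hy _)]
    rw [e1, e2]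
  rw [hΦθ] at hthree
  refine hthree.trans (le_of_eq ?_)
  rw [Real.sqrt_eq_rpow, ← Real.rpow_mul hN]
  congr 1
  ring

lemma bil_smul (pi : A → J) (ph : G → B) (T : B → J → ℝ) (e f : A → H) (g h : G → H)
    (c : A → ℂ) (x : G → ℂ) (s t : ℂ) :
    bil pi ph T e f g h (fun a => s * c a) (fun a => t * x a)
      = s * t * bil pi ph T e f g h c x := by
  unfold bil
  rw [Finset.mul_sum]
  refine Finset.sum_congr rfl fun a _ => ?_
  rw [Finset.mul_sum]
  refine Finset.sum_congr rfl fun a _ => ?_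
  ring

lemma core' (pi : A → J) (ph : G → B) (T : B → J → ℝ) (N : ℝ) (hN : 0 ≤ N)
    (hT1 : ∀ b j, |T b j| ≤ 1)
    (hT : ∀ j k, ∑ b, T b j * T b k = if j = k then N else 0)
    (e f : A → H) (g h : G → H)
    (he : ∀ a a', pi a = pi a' → ⟪e a, e a'⟫_ℂ = if a = a' then 1 else 0)
    (hf : ∀ a a', pi a = pi a' → ⟪f a, f a'⟫_ℂ = if a = a' then 1 else 0)
    (hg : ∀ r r', ph r = ph r' → ⟪g r, g r'⟫_ℂ = if r = r' then 1 else 0)
    (hh : ∀ r r', ph r = ph r' → ⟪h r, h r'⟫_ℂ = if r = r' then 1 else 0)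
    (p q : ℝ) (hp : 2 ≤ p) (hpq : 1 / p + 1 / q = 1)
    (C : A → ℝ) (hC : ∀ a, 0 ≤ C a) (X : G → ℝ) (hX : ∀ s, 0 ≤ X s) :
    ‖bil pi ph T e f g h (fun a => (C a : ℂ)) (fun s => (X s : ℂ))‖
      ≤ N ^ (1 / p) * (∑ a, C a ^ q) ^ (1 / q) *
        (∑ b, (∑ s ∈ Finset.univ.filter (fun s => ph s = b), X s ^ p) ^ (q / p)) ^ (1 / q) := by
  have hp0 : 0 < p := by linarith
  have hpi : 1 / p ≤ 1 / 2 := one_div_le_one_div_of_le (by norm_num) hp
  have hpi0 : 0 < 1 / p := by positivity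
  have hq0 : 0 < q := by
    have : 0 < 1 / q := by linarith
    exact one_div_pos.mp this
  set S := ∑ a, C a ^ q with hS
  have hS0 : 0 ≤ S := Finset.sum_nonneg fun a _ => Real.rpow_nonneg (hC a) q
  set r : B → ℝ := fun b =>
    (∑ s ∈ Finset.univ.filter (fun s => ph s = b), X s ^ p) ^ (1 / p) with hr
  have hin0 : ∀ b, 0 ≤ ∑ s ∈ Finset.univ.filter (fun s => ph s = b), X s ^ p := fun b =>
    Finset.sum_nonneg fun s _ => Real.rpow_nonneg (hX s) p
  have hr0 : ∀ b, 0 ≤ r b := fun b => Real.rpow_nonneg (hin0 b) _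
  have hrq : ∀ b, r b ^ q
      = (∑ s ∈ Finset.univ.filter (fun s => ph s = b), X s ^ p) ^ (q / p) := by
    intro b
    rw [hr]
    simp only
    rw [← Real.rpow_mul (hin0 b)]
    congr 1; ring
  have hrp : ∀ b, r b ^ p = ∑ s ∈ Finset.univ.filter (fun s => ph s = b), X s ^ p := by
    intro b
    rw [hr]
    simp only
    rw [← Real.rpow_mul (hin0 b)]
    rw [one_div, inv_mul_cancel₀ hp0.ne', Real.rpow_one]
  have hXr : ∀ s, X s ≤ r (ph s) := by
    intro s
    have h1 : X s ^ p ≤ r (ph s) ^ p := by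
      rw [hrp]
      exact Finset.single_le_sum (f := fun s => X s ^ p)
        (fun b _ => Real.rpow_nonneg (hX b) p) (by simp)
    exact (Real.rpow_le_rpow_iff (hX s) (hr0 _) hp0).mp h1
  set R := ∑ b, r b ^ q with hR
  have hR0 : 0 ≤ R := Finset.sum_nonneg fun a _ => Real.rpow_nonneg (hr0 a) q
  have hRR : (∑ b, (∑ s ∈ Finset.univ.filter (fun s => ph s = b), X s ^ p) ^ (q / p)) = R := by
    rw [hR]
    exact Finset.sum_congr rfl fun b _ => (hrq b).symm
  rw [hRR]
  rcases hS0.eq_or_lt with hS0' | hS0'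
  · -- C = 0
    have hC0 : ∀ a, C a = 0 := by
      intro a
      have := (Finset.sum_eq_zero_iff_of_nonneg
        (fun a _ => Real.rpow_nonneg (hC a) q)).mp hS0'.symm a (Finset.mem_univ a)
      exact (Real.rpow_eq_zero (hC a) hq0.ne').mp this
    have : bil pi ph T e f g h (fun a => (C a : ℂ)) (fun s => (X s : ℂ)) = 0 := by
      unfold bil
      simp [hC0]
    rw [this, norm_zero]
    positivity
  rcases hR0.eq_or_lt with hR0' | hR0'
  · have hr0' : ∀ b, r b = 0 := by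
      intro a
      have := (Finset.sum_eq_zero_iff_of_nonneg
        (fun a _ => Real.rpow_nonneg (hr0 a) q)).mp hR0'.symm a (Finset.mem_univ a)
      exact (Real.rpow_eq_zero (hr0 a) hq0.ne').mp this
    have hX0 : ∀ s, X s = 0 := fun s => le_antisymm (by rw [← hr0' (ph s)]; exact hXr s) (hX s)
    have : bil pi ph T e f g h (fun a => (C a : ℂ)) (fun s => (X s : ℂ)) = 0 := by
      unfold bil
      simp [hX0]
    rw [this, norm_zero]
    positivity
  · set σ := S ^ (1 / q) with hσ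
    set τ := R ^ (1 / q) with hτ
    have hσ0 : 0 < σ := Real.rpow_pos_of_pos hS0' _
    have hτ0 : 0 < τ := Real.rpow_pos_of_pos hR0' _
    have hσq : σ ^ q = S := by
      rw [hσ, ← Real.rpow_mul hS0, one_div, inv_mul_cancel₀ hq0.ne', Real.rpow_one]
    have hτq : τ ^ q = R := by
      rw [hτ, ← Real.rpow_mul hR0, one_div, inv_mul_cancel₀ hq0.ne', Real.rpow_one]
    have hc := core pi ph T N hN hT1 hT e f g h he hf hg hh p q hp hpq
      (fun a => C a / σ) (fun a => div_nonneg (hC a) hσ0.le) (by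
        apply le_of_eq
        have : ∀ a, (C a / σ) ^ q = C a ^ q / S := fun a => by
          rw [Real.div_rpow (hC a) hσ0.le, hσq]
        rw [Finset.sum_congr rfl fun a _ => this a, ← Finset.sum_div]
        exact div_self hS0'.ne')
      (fun b => r b / τ) (fun a => div_nonneg (hr0 a) hτ0.le) (by
        apply le_of_eq
        have : ∀ a, (r a / τ) ^ q = r a ^ q / R := fun a => by
          rw [Real.div_rpow (hr0 a) hτ0.le, hτq]
        rw [Finset.sum_congr rfl fun a _ => this a, ← Finset.sum_div]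
        exact div_self hR0'.ne')
      (fun s => X s / r (ph s)) (fun s => div_nonneg (hX s) (hr0 _)) (by
        intro b
        have : ∀ s ∈ Finset.univ.filter (fun s => ph s = b),
            (X s / r (ph s)) ^ p = X s ^ p / r b ^ p := fun s hs => by
          rw [Real.div_rpow (hX s) (hr0 _), (Finset.mem_filter.mp hs).2]
        rw [Finset.sum_congr rfl this, ← Finset.sum_div, hrp]
        exact div_self_le_one _)
    have h1 : bil pi ph T e f g h (fun a => (C a : ℂ)) (fun s => (X s : ℂ))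
        = (σ : ℂ) * (τ : ℂ) * bil pi ph T e f g h (fun a => ((C a / σ : ℝ) : ℂ))
          (fun s => ((r (ph s) / τ : ℝ) : ℂ) * ((X s / r (ph s) : ℝ) : ℂ)) := by
      rw [← bil_smul]
      congr 1
      · funext a
        rw [← Complex.ofReal_mul, mul_div_cancel₀ _ hσ0.ne']
      · funext s
        rw [← Complex.ofReal_mul, ← Complex.ofReal_mul]
        congr 1
        by_cases h0 : r (ph s) = 0
        · have : X s = 0 := le_antisymm (by rw [← h0]; exact hXr s) (hX s)
          rw [this]; simp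
        · field_simp
    rw [h1, norm_mul, norm_mul, Complex.norm_real, Complex.norm_real, Real.norm_of_nonneg hσ0.le,
      Real.norm_of_nonneg hτ0.le]
    calc σ * τ * _ ≤ σ * τ * N ^ (1 / p) := by
          apply mul_le_mul_of_nonneg_left hc (by positivity)
      _ = _ := by ring

end Pool.Agent.H16.SC
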