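import Pool.Agent.H16.SC2

/-! Finite-product version of the interpolation bound. -/

namespace Pool.Agent.H16.SC

open scoped InnerProductSpace ComplexConjugate BigOperators

variable {H : Type*} [NormedAddCommGroup H] [InnerProductSpace ℂ H]

variable {B J : Type*} [Fintype B] [Fintype J] [DecidableEq B] [DecidableEq J]

lemma bil_prod_bound (T : B → J → ℝ) (N : ℝ) (hN : 0 ≤ N)
    (hT1 : ∀ b j, |T b j| ≤ 1)
    (hT : ∀ j k, ∑ b, T b j * T b k = if j = k then N else 0)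
    (p q : ℝ) (hp : 2 ≤ p) (hpq : 1 / p + 1 / q = 1)
    (C : J → ℕ → ℝ) (hC : ∀ j i, 0 ≤ C j i) (X : B → ℕ → ℝ) (hX : ∀ b l, 0 ≤ X b l)
    (e f : J → ℕ → H) (g h : B → ℕ → H)
    (he : ∀ j i i', C j i ≠ 0 → C j i' ≠ 0 → ⟪e j i, e j i'⟫_ℂ = if i = i' then 1 else 0)
    (hf : ∀ j i i', C j i ≠ 0 → C j i' ≠ 0 → ⟪f j i, f j i'⟫_ℂ = if i = i' then 1 else 0)
    (hg : ∀ b l l', X b l ≠ 0 → X b l' ≠ 0 → ⟪g b l, g b l'⟫_ℂ = if l = l' then 1 else 0)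
    (hh : ∀ b l l', X b l ≠ 0 → X b l' ≠ 0 → ⟪h b l, h b l'⟫_ℂ = if l = l' then 1 else 0)
    (F0 G0 : Finset ℕ) :
    ‖∑ j, ∑ i ∈ F0, ∑ b, ∑ l ∈ G0, (T b j : ℂ) * (C j i : ℂ) * (X b l : ℂ) *
        (⟪f j i, h b l⟫_ℂ * ⟪g b l, e j i⟫_ℂ)‖
      ≤ N ^ (1 / p) * (∑ j, ∑ i ∈ F0, C j i ^ q) ^ (1 / q) *
        (∑ b, (∑ l ∈ G0, X b l ^ p) ^ (q / p)) ^ (1 / q) := by
  have hp0 : 0 < p := by linarith
  have hpi : 1 / p ≤ 1 / 2 := one_div_le_one_div_of_le (by norm_num) hp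
  have hq0 : 0 < q := by
    have : 0 < 1 / q := by linarith
    exact one_div_pos.mp this
  let F : Finset (J × ℕ) := (Finset.univ ×ˢ F0).filter (fun a => C a.1 a.2 ≠ 0)
  let G : Finset (B × ℕ) := (Finset.univ ×ˢ G0).filter (fun a => X a.1 a.2 ≠ 0)
  have hc := core' (A := ↥F) (G := ↥G) (fun a => a.1.1) (fun r => r.1.1) T N hN hT1 hT
    (fun a => e a.1.1 a.1.2) (fun a => f a.1.1 a.1.2) (fun r => g r.1.1 r.1.2)
    (fun r => h r.1.1 r.1.2)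
    (by
      rintro ⟨⟨j, i⟩, ha⟩ ⟨⟨j', i'⟩, ha'⟩ (hjj : j = j')
      subst hjj
      have h1 := (Finset.mem_filter.mp ha).2
      have h2 := (Finset.mem_filter.mp ha').2
      simp only [ne_eq, Subtype.mk.injEq, Prod.mk.injEq, true_and]
      exact he j i i' h1 h2)
    (by
      rintro ⟨⟨j, i⟩, ha⟩ ⟨⟨j', i'⟩, ha'⟩ (hjj : j = j')
      subst hjj
      have h1 := (Finset.mem_filter.mp ha).2
      have h2 := (Finset.mem_filter.mp ha').2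
      simp only [ne_eq, Subtype.mk.injEq, Prod.mk.injEq, true_and]
      exact hf j i i' h1 h2)
    (by
      rintro ⟨⟨j, i⟩, ha⟩ ⟨⟨j', i'⟩, ha'⟩ (hjj : j = j')
      subst hjj
      have h1 := (Finset.mem_filter.mp ha).2
      have h2 := (Finset.mem_filter.mp ha').2
      simp only [ne_eq, Subtype.mk.injEq, Prod.mk.injEq, true_and]
      exact hg j i i' h1 h2)
    (by
      rintro ⟨⟨j, i⟩, ha⟩ ⟨⟨j', i'⟩, ha'⟩ (hjj : j = j')
      subst hjj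
      have h1 := (Finset.mem_filter.mp ha).2
      have h2 := (Finset.mem_filter.mp ha').2
      simp only [ne_eq, Subtype.mk.injEq, Prod.mk.injEq, true_and]
      exact hh j i i' h1 h2)
    p q hp hpq (fun a => C a.1.1 a.1.2) (fun a => hC _ _) (fun r => X r.1.1 r.1.2)
    (fun r => hX _ _)
  have sumF : ∀ {M : Type} [AddCommMonoid M] (φ : J × ℕ → M),
      (∀ a, C a.1 a.2 = 0 → φ a = 0) → ∑ a : ↥F, φ a = ∑ j, ∑ i ∈ F0, φ (j, i) := by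
    intro M _ φ hφ
    rw [Finset.sum_coe_sort F φ, Finset.sum_filter_of_ne, Finset.sum_product]
    intro a _ ha h0
    exact ha (hφ a h0)
  have sumG : ∀ {M : Type} [AddCommMonoid M] (φ : B × ℕ → M),
      (∀ a, X a.1 a.2 = 0 → φ a = 0) → ∑ a : ↥G, φ a = ∑ j, ∑ i ∈ G0, φ (j, i) := by
    intro M _ φ hφ
    rw [Finset.sum_coe_sort G φ, Finset.sum_filter_of_ne, Finset.sum_product]
    intro a _ ha h0
    exact ha (hφ a h0)
  have e1 : bil (fun a : ↥F => a.1.1) (fun r : ↥G => r.1.1) T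
      (fun a => e a.1.1 a.1.2) (fun a => f a.1.1 a.1.2) (fun r => g r.1.1 r.1.2)
      (fun r => h r.1.1 r.1.2) (fun a => (C a.1.1 a.1.2 : ℂ)) (fun r => (X r.1.1 r.1.2 : ℂ))
      = ∑ j, ∑ i ∈ F0, ∑ b, ∑ l ∈ G0, (T b j : ℂ) * (C j i : ℂ) * (X b l : ℂ) *
        (⟪f j i, h b l⟫_ℂ * ⟪g b l, e j i⟫_ℂ) := by
    unfold bil
    rw [sumF (fun a : J × ℕ => ∑ r : ↥G, (T r.1.1 a.1 : ℂ) * (C a.1 a.2 : ℂ) *
      (X r.1.1 r.1.2 : ℂ) * (⟪f a.1 a.2, h r.1.1 r.1.2⟫_ℂ * ⟪g r.1.1 r.1.2, e a.1 a.2⟫_ℂ))]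
    · refine Finset.sum_congr rfl fun j _ => Finset.sum_congr rfl fun i _ => ?_
      rw [sumG (fun r : B × ℕ => (T r.1 j : ℂ) * (C j i : ℂ) *
        (X r.1 r.2 : ℂ) * (⟪f j i, h r.1 r.2⟫_ℂ * ⟪g r.1 r.2, e j i⟫_ℂ))]
      intro a ha
      simp [ha]
    · intro a ha
      simp [ha]
  have e2 : ∑ a : ↥F, C a.1.1 a.1.2 ^ q = ∑ j, ∑ i ∈ F0, C j i ^ q :=
    sumF (fun a : J × ℕ => C a.1 a.2 ^ q) (fun a ha => by
      simp only [ha]; exact Real.zero_rpow hq0.ne')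
  have e3 : ∀ b, ∑ s ∈ Finset.univ.filter (fun s : ↥G => s.1.1 = b), X s.1.1 s.1.2 ^ p
      = ∑ l ∈ G0, X b l ^ p := by
    intro b
    rw [Finset.sum_filter]
    rw [sumG (fun r : B × ℕ => if r.1 = b then X r.1 r.2 ^ p else 0) (fun a ha => by
      simp only [ha]; rw [Real.zero_rpow hp0.ne']; simp)]
    rw [Finset.sum_eq_single b]
    · simp
    · intro b' _ hb'
      simp [hb']
    · intro h; exact absurd (Finset.mem_univ _) h
  rw [e1, e2] at hc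
  simp only [e3] at hc
  exact hc

end Pool.Agent.H16.SC
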