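import Mathlib

/-! Diagonalisation of unitary matrices, and monomial matrices. -/

namespace Pool.Agent.H16.SUn

open Matrix

variable {n : ℕ}

abbrev V (n : ℕ) := Fin n → ℂ

/-- The Hermitian product. -/
def ip (v w : V n) : ℂ := star v ⬝ᵥ w

theorem ip_add_right (a b c : V n) : ip a (b + c) = ip a b + ip a c := by
  simp [ip, dotProduct_add]

theorem ip_smul_left (t : ℂ) (a c : V n) : ip (t • a) c = star t * ip a c := by
  simp [ip, star_smul, smul_dotProduct]

theorem ip_smul_right (t : ℂ) (a c : V n) : ip a (t • c) = t * ip a c := by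
  simp [ip, dotProduct_smul]

theorem ip_star (a b : V n) : star (ip a b) = ip b a := by
  simp only [ip, dotProduct, star_sum, star_mul', Pi.star_apply, star_star]
  exact Finset.sum_congr rfl (fun i _ => mul_comm _ _)

theorem adj {A : Matrix (Fin n) (Fin n) ℂ} (v w : V n) :
    ip v (A *ᵥ w) = ip (Aᴴ *ᵥ v) w := by
  unfold ip
  rw [star_mulVec, conjTranspose_conjTranspose, dotProduct_mulVec]

theorem ip_self_re (v : V n) : ip v v = ((∑ x, ‖v x‖ ^ 2 : ℝ) : ℂ) := by
  unfold ip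
  simp only [dotProduct, Pi.star_apply]
  push_cast
  refine Finset.sum_congr rfl (fun x _ => ?_)
  have := Complex.conj_mul' (v x)
  simpa using this

theorem ip_self_pos {v : V n} (hv : v ≠ 0) : ∃ r : ℝ, 0 < r ∧ ip v v = (r : ℂ) := by
  refine ⟨∑ x, ‖v x‖ ^ 2, ?_, ip_self_re v⟩
  obtain ⟨x, hx⟩ : ∃ x, v x ≠ 0 := by
    by_contra h
    push Not at h
    exact hv (funext h)
  apply Finset.sum_pos' (fun _ _ => by positivity)
  exact ⟨x, Finset.mem_univ _, by positivity⟩

theorem norm_one {A : Matrix (Fin n) (Fin n) ℂ} (hA : Aᴴ * A = 1) {v : V n}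
    (hv : v ≠ 0) {z : ℂ} (h : A *ᵥ v = z • v) : star z * z = 1 := by
  have h1 : ip (A *ᵥ v) (A *ᵥ v) = ip v v := by
    rw [adj, mulVec_mulVec, hA, one_mulVec]
  rw [h, ip_smul_left, ip_smul_right] at h1
  obtain ⟨r, hr, hr2⟩ := ip_self_pos hv
  have : ip v v ≠ 0 := by rw [hr2]; exact_mod_cast hr.ne'
  have h2 : (star z * z - 1) * ip v v = 0 := by linear_combination h1
  rcases mul_eq_zero.mp h2 with h3 | h3
  · linear_combination h3
  · exact absurd h3 this

theorem eig_adj {A : Matrix (Fin n) (Fin n) ℂ} (hA : Aᴴ * A = 1) {v : V n}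
    {z : ℂ} (hz : star z * z = 1) (h : A *ᵥ v = z • v) : Aᴴ *ᵥ v = star z • v := by
  have h1 : Aᴴ *ᵥ (A *ᵥ v) = v := by rw [mulVec_mulVec, hA, one_mulVec]
  rw [h, mulVec_smul] at h1
  calc Aᴴ *ᵥ v = (star z * z) • (Aᴴ *ᵥ v) := by rw [hz, one_smul]
    _ = star z • (z • (Aᴴ *ᵥ v)) := by rw [mul_smul]
    _ = star z • v := by rw [h1]

theorem normalize {v : V n} (hv : v ≠ 0) : ∃ c : ℂ, c ≠ 0 ∧ ip (c • v) (c • v) = 1 := by
  obtain ⟨r, hr, hr2⟩ := ip_self_pos hv
  refine ⟨((Real.sqrt r)⁻¹ : ℝ), ?_, ?_⟩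
  · have : 0 < (Real.sqrt r)⁻¹ := inv_pos.mpr (Real.sqrt_pos.mpr hr)
    exact_mod_cast this.ne'
  · rw [ip_smul_left, ip_smul_right, hr2]
    have h1 : Real.sqrt r * Real.sqrt r = r := Real.mul_self_sqrt hr.le
    have h2 : Real.sqrt r ≠ 0 := (Real.sqrt_pos.mpr hr).ne'
    have h3 : (Real.sqrt r)⁻¹ * ((Real.sqrt r)⁻¹ * r) = 1 := by
      field_simp
      nlinarith [h1]
    have h4 : star (((Real.sqrt r)⁻¹ : ℝ) : ℂ) = (((Real.sqrt r)⁻¹ : ℝ) : ℂ) := by
      simp
    rw [h4]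
    exact_mod_cast h3

/-- The linear map whose kernel is the orthogonal complement of the family. -/
def cmap {k : ℕ} (v : Fin k → V n) : V n →ₗ[ℂ] (Fin k → ℂ) where
  toFun x := fun i => ip (v i) x
  map_add' a b := by
    funext y; simp [ip_add_right]
  map_smul' t a := by
    funext y; simp [ip_smul_right]

/-- A family of orthonormal eigenvectors. -/
structure Fam (A : Matrix (Fin n) (Fin n) ℂ) (k : ℕ)
    (v : Fin k → V n) (z : Fin k → ℂ) : Prop where
  eig : ∀ i, A *ᵥ v i = z i • v i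
  on : ∀ i j, ip (v i) (v j) = if i = j then 1 else 0

theorem exists_next {A : Matrix (Fin n) (Fin n) ℂ} (hA : Aᴴ * A = 1) {k : ℕ}
    (hk : k < n) {v : Fin k → V n} {z : Fin k → ℂ} (hF : Fam A k v z) :
    ∃ (x : V n) (c : ℂ), A *ᵥ x = c • x ∧ ip x x = 1 ∧ (∀ i, ip (v i) x = 0) := by
  set W := LinearMap.ker (cmap v) with hW
  have hmemW : ∀ x, x ∈ W ↔ ∀ i, ip (v i) x = 0 := by
    intro x
    rw [hW, LinearMap.mem_ker]
    exact ⟨fun h i => congrFun h i, fun h => funext h⟩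
  have hne : W ≠ ⊥ := by
    apply LinearMap.ker_ne_bot_of_finrank_lt
    simp only [Module.finrank_fintype_fun_eq_card, Fintype.card_fin]
    omega
  have hvne : ∀ i, v i ≠ 0 := by
    intro i h0
    have := hF.on i i
    rw [h0] at this
    simp [ip] at this
  have hz : ∀ i, star (z i) * z i = 1 := fun i => norm_one hA (hvne i) (hF.eig i)
  have hinv : ∀ x ∈ W, A.mulVecLin x ∈ W := by
    intro x hx
    rw [hmemW] at hx ⊢
    intro i
    rw [mulVecLin_apply, adj, eig_adj hA (hz i) (hF.eig i), ip_smul_left, hx i, mul_zero]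
  have : Nontrivial W := Submodule.nontrivial_iff_ne_bot.mpr hne
  obtain ⟨c, hc⟩ := Module.End.exists_eigenvalue (A.mulVecLin.restrict hinv)
  obtain ⟨w, hw⟩ := hc.exists_hasEigenvector
  have hw1 : (A.mulVecLin.restrict hinv) w = c • w := hw.apply_eq_smul
  have hw0 : (w : V n) ≠ 0 := by
    intro h
    exact hw.2 (Subtype.ext h)
  have hw2 : A *ᵥ (w : V n) = c • (w : V n) := by
    have := congrArg Subtype.val hw1
    simpa using this
  obtain ⟨t, ht, ht2⟩ := normalize hw0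
  have hmem := (hmemW w).mp w.2
  refine ⟨t • (w : V n), c, ?_, ht2, ?_⟩
  · rw [mulVec_smul, hw2, smul_comm]
  · intro i
    rw [ip_smul_right, hmem i, mul_zero]

theorem fam_cons {A : Matrix (Fin n) (Fin n) ℂ} {k : ℕ}
    {v : Fin k → V n} {z : Fin k → ℂ} (hF : Fam A k v z) {x : V n} {c : ℂ}
    (h1 : A *ᵥ x = c • x) (h2 : ip x x = 1) (h3 : ∀ i, ip (v i) x = 0) :
    Fam A (k + 1) (Fin.cons x v : Fin (k + 1) → V n) (Fin.cons c z : Fin (k + 1) → ℂ) where
  eig := by
    intro i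
    refine Fin.cases ?_ (fun i => ?_) i
    · simpa using h1
    · simpa using hF.eig i
  on := by
    intro i j
    refine Fin.cases ?_ (fun i => ?_) i <;> refine Fin.cases ?_ (fun j => ?_) j
    · simpa using h2
    · have := ip_star (v j) x
      rw [h3 j, star_zero] at this
      simp only [Fin.cons_zero, Fin.cons_succ, ← this]
      rw [if_neg (Fin.succ_ne_zero j).symm]
    · simp only [Fin.cons_zero, Fin.cons_succ, h3 i]
      rw [if_neg (Fin.succ_ne_zero i)]
    · simp only [Fin.cons_succ, hF.on i j, Fin.succ_inj]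

theorem exists_fam {A : Matrix (Fin n) (Fin n) ℂ} (hA : Aᴴ * A = 1) :
    ∀ k, k ≤ n → ∃ (v : Fin k → V n) (z : Fin k → ℂ), Fam A k v z := by
  intro k
  induction k with
  | zero =>
    intro _
    exact ⟨fun i => i.elim0, fun i => i.elim0, fun i => i.elim0, fun i => i.elim0⟩
  | succ k ih =>
    intro hk
    obtain ⟨v, z, hF⟩ := ih (by omega)
    obtain ⟨x, c, e1, e2, e3⟩ := exists_next hA (by omega) hF
    exact ⟨Fin.cons x v, Fin.cons c z, fam_cons hF e1 e2 e3⟩

theorem diagonalise {A : Matrix (Fin n) (Fin n) ℂ} (hA : Aᴴ * A = 1) :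
    ∃ (P : Matrix (Fin n) (Fin n) ℂ) (z : Fin n → ℂ), Pᴴ * P = 1 ∧ P * Pᴴ = 1 ∧
      A = P * Matrix.diagonal z * Pᴴ ∧ ∀ i, star (z i) * z i = 1 := by
  obtain ⟨v, z, hF⟩ := exists_fam hA n le_rfl
  set P : Matrix (Fin n) (Fin n) ℂ := fun x i => v i x with hP
  have h1 : Pᴴ * P = 1 := by
    ext i j
    have key : (Pᴴ * P) i j = ip (v i) (v j) := by
      rw [Matrix.mul_apply]
      exact Finset.sum_congr rfl (fun x _ => by rw [Matrix.conjTranspose_apply]; rfl)
    rw [key, hF.on, Matrix.one_apply]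
  have h2 : P * Pᴴ = 1 := mul_eq_one_comm.mp h1
  refine ⟨P, z, h1, h2, ?_, ?_⟩
  · have h3 : A * P = P * Matrix.diagonal z := by
      ext x i
      rw [Matrix.mul_diagonal]
      have key : (A * P) x i = (A *ᵥ (v i)) x := by
        rw [Matrix.mul_apply]
        simp [mulVec, dotProduct, hP]
      rw [key, hF.eig]
      simp [hP, mul_comm]
    calc A = A * (P * Pᴴ) := by rw [h2, mul_one]
      _ = P * Matrix.diagonal z * Pᴴ := by rw [← mul_assoc, h3]
  · intro i
    apply norm_one hA _ (hF.eig i)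
    intro h0
    have := hF.on i i
    rw [h0] at this
    simp [ip] at this

/-- Monomial matrices. -/
def mono (σ : Equiv.Perm (Fin n)) (c : Fin n → ℂ) :
    Matrix (Fin n) (Fin n) ℂ := fun x y => if x = σ y then c y else 0

theorem mono_mul (σ τ : Equiv.Perm (Fin n)) (c d : Fin n → ℂ) :
    mono σ c * mono τ d = mono (σ * τ) (fun y => c (τ y) * d y) := by
  ext x y
  simp only [Matrix.mul_apply, mono]
  rw [Finset.sum_eq_single (τ y)]
  · by_cases h : x = σ (τ y)
    · simp [h]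
    · simp [h]
  · intro b _ hb
    simp [hb]
  · intro h
    exact absurd (Finset.mem_univ _) h

theorem mono_det (σ : Equiv.Perm (Fin n)) (c : Fin n → ℂ) :
    (mono σ c).det = (Equiv.Perm.sign σ : ℂ) * ∏ i, c i := by
  have h : mono σ c = (Matrix.diagonal c).submatrix (⇑(σ⁻¹ : Equiv.Perm (Fin n))) id := by
    ext x y
    simp only [mono, Matrix.submatrix_apply, Matrix.diagonal_apply, id]
    by_cases h : x = σ y
    · subst h; simp
    · have h' : ¬ (σ⁻¹ : Equiv.Perm (Fin n)) x = y := by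
        intro h'; exact h (by rw [← h']; simp)
      rw [if_neg h, if_neg h']
  rw [h, Matrix.det_permute, Matrix.det_diagonal, Equiv.Perm.sign_inv]

/-- Being an involution of the special unitary group. -/
def IsInv (n : ℕ) (A : Matrix (Fin n) (Fin n) ℂ) : Prop :=
  A ∈ Matrix.specialUnitaryGroup (Fin n) ℂ ∧ A * A = 1

theorem mono_isInv {σ : Equiv.Perm (Fin n)} {c : Fin n → ℂ}
    (h1 : ∀ y, σ (σ y) = y) (h2 : ∀ y, c (σ y) * c y = 1) (h3 : ∀ y, star (c (σ y)) = c y)
    (h4 : (Equiv.Perm.sign σ : ℂ) * ∏ i, c i = 1) :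
    IsInv n (mono σ c) := by
  have hs : σ * σ = 1 := Equiv.ext (fun y => by simp [h1])
  have hm : mono σ c * mono σ c = 1 := by
    rw [mono_mul, hs]
    ext x y
    simp [mono, h2, Matrix.one_apply]
  have hh : (mono σ c)ᴴ = mono σ c := by
    ext x y
    simp only [Matrix.conjTranspose_apply, mono]
    by_cases h : x = σ y
    · have h' : y = σ x := by rw [h, h1]
      rw [if_pos h, if_pos h', ← h3 y, h]
    · have h' : ¬ y = σ x := by
        intro h'; exact h (by rw [h', h1])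
      rw [if_neg h, if_neg h', star_zero]
  refine ⟨?_, hm⟩
  rw [Matrix.mem_specialUnitaryGroup_iff, Matrix.mem_unitaryGroup_iff]
  refine ⟨?_, ?_⟩
  · rw [Matrix.star_eq_conjTranspose, hh, hm]
  · rw [mono_det, h4]

theorem isInv_conj {P I : Matrix (Fin n) (Fin n) ℂ} (h1 : Pᴴ * P = 1) (h2 : P * Pᴴ = 1)
    (hI : IsInv n I) : IsInv n (P * I * Pᴴ) := by
  obtain ⟨hI1, hI2⟩ := hI
  rw [Matrix.mem_specialUnitaryGroup_iff, Matrix.mem_unitaryGroup_iff,
    Matrix.star_eq_conjTranspose] at hI1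
  refine ⟨?_, ?_⟩
  · rw [Matrix.mem_specialUnitaryGroup_iff, Matrix.mem_unitaryGroup_iff,
      Matrix.star_eq_conjTranspose]
    refine ⟨?_, ?_⟩
    · rw [conjTranspose_mul, conjTranspose_mul, conjTranspose_conjTranspose]
      calc P * I * Pᴴ * (P * (Iᴴ * Pᴴ)) = P * I * (Pᴴ * P) * Iᴴ * Pᴴ := by simp only [mul_assoc]
        _ = P * (I * Iᴴ) * Pᴴ := by rw [h1]; simp only [mul_assoc, one_mul]
        _ = 1 := by rw [hI1.1, mul_one, h2]
    · rw [det_mul, det_mul, hI1.2, mul_one, ← det_mul, h2, det_one]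
  · calc P * I * Pᴴ * (P * I * Pᴴ) = P * I * (Pᴴ * P) * I * Pᴴ := by simp only [mul_assoc]
      _ = P * (I * I) * Pᴴ := by rw [h1]; simp only [mul_assoc, one_mul]
      _ = 1 := by rw [hI2, mul_one, h2]

end Pool.Agent.H16.SUn
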