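import Pool.Agent.H16.SUn1

/-! Products of involutions for diagonal matrices. -/

namespace Pool.Agent.H16.SUn

open Matrix

variable {n : ℕ}

theorem diag_mono (x : Fin n → ℂ) : Matrix.diagonal x = mono 1 x := by
  ext i j
  simp only [mono, Matrix.diagonal_apply, Equiv.Perm.one_apply]
  by_cases h : i = j
  · subst h; simp
  · simp [h]

/-- A sign-balanced pairing gives two involutions. -/
theorem two_inv (σ : Equiv.Perm (Fin n)) (x s : Fin n → ℂ) (h1 : ∀ y, σ (σ y) = y)
    (hx : ∀ y, star (x y) * x y = 1) (hc : ∀ y, x (σ y) = star (x y))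
    (hs : ∀ y, s y = 1 ∨ s y = -1) (hss : ∀ y, s (σ y) = s y) (hp : ∏ i, x i = 1)
    (hsig : (Equiv.Perm.sign σ : ℂ) * ∏ i, s i = 1) :
    ∃ I1 I2, IsInv n I1 ∧ IsInv n I2 ∧ Matrix.diagonal x = I1 * I2 := by
  have hs2 : ∀ y, s y * s y = 1 := by
    intro y; rcases hs y with h | h <;> rw [h] <;> norm_num
  have hst : ∀ y, star (s y) = s y := by
    intro y; rcases hs y with h | h <;> rw [h] <;> simp
  have hps : ∏ i, star (x i) = 1 := by
    rw [← star_prod, hp, star_one]
  refine ⟨mono σ (fun y => star (x y) * s y), mono σ s, ?_, ?_, ?_⟩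
  · apply mono_isInv h1
    · intro y
      simp only [hc, hss, star_star]
      calc x y * s y * (star (x y) * s y) = (star (x y) * x y) * (s y * s y) := by ring
        _ = 1 := by rw [hx, hs2, mul_one]
    · intro y
      simp only [hc, hss, star_star, star_mul', hst]
    · rw [Finset.prod_mul_distrib, hps, one_mul, hsig]
  · apply mono_isInv h1
    · intro y; rw [hss, hs2]
    · intro y; rw [hss, hst]
    · exact hsig
  · have hs1 : σ * σ = 1 := Equiv.ext (fun y => by simp [h1])
    rw [mono_mul, diag_mono, hs1]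
    congr 1
    funext y
    rw [hc, hss, star_star, mul_assoc, hs2, mul_one]

/-- With a fixed point or with even sign, two involutions suffice. -/
theorem two_inv' (σ : Equiv.Perm (Fin n)) (x : Fin n → ℂ) (h1 : ∀ y, σ (σ y) = y)
    (hx : ∀ y, star (x y) * x y = 1) (hc : ∀ y, x (σ y) = star (x y)) (hp : ∏ i, x i = 1)
    (hf : Equiv.Perm.sign σ = 1 ∨ ∃ f, σ f = f) :
    ∃ I1 I2, IsInv n I1 ∧ IsInv n I2 ∧ Matrix.diagonal x = I1 * I2 := by
  rcases Int.units_eq_one_or (Equiv.Perm.sign σ) with h | h
  · apply two_inv σ x (fun _ => 1) h1 hx hc (fun _ => Or.inl rfl) (fun _ => rfl) hp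
    rw [h]; simp
  · rcases hf with h' | ⟨f, hf⟩
    · rw [h] at h'
      exact absurd h' (by decide)
    · apply two_inv σ x (fun y => if y = f then -1 else 1) h1 hx hc _ _ hp
      · rw [h]
        simp
      · intro y
        by_cases hy : y = f
        · right; simp [hy]
        · left; simp [hy]
      · intro y
        have : σ y = f ↔ y = f := by
          constructor
          · intro h2
            rw [← h1 y, h2, hf]
          · intro h2; rw [h2, hf]
        simp only [this]

/-- With odd sign and two different transposed pairs, three involutions suffice. -/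
theorem three_inv (σ : Equiv.Perm (Fin n)) (x : Fin n → ℂ) (h1 : ∀ y, σ (σ y) = y)
    (hx : ∀ y, star (x y) * x y = 1) (hc : ∀ y, x (σ y) = star (x y)) (hp : ∏ i, x i = 1)
    (hsg : Equiv.Perm.sign σ = -1) (a b : Fin n) (ha : σ a ≠ a) (hb : σ b ≠ b)
    (hab : b ≠ a) (hab' : b ≠ σ a) :
    ∃ I1 I2 I3, IsInv n I1 ∧ IsInv n I2 ∧ IsInv n I3 ∧ Matrix.diagonal x = I1 * I2 * I3 := by
  have hinj : ∀ y z, σ y = z → y = σ z := by
    intro y z h; rw [← h, h1]
  have hps : ∏ i, star (x i) = 1 := by
    rw [← star_prod, hp, star_one]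
  have hab1 : σ b ≠ a := fun h => hab' (hinj _ _ h)
  have hab2 : σ b ≠ σ a := fun h => hab (σ.injective h)
  -- the three permutations
  set p1 : Equiv.Perm (Fin n) := σ * Equiv.swap b (σ b) with hp1
  set p2 : Equiv.Perm (Fin n) := σ * Equiv.swap a (σ a) with hp2
  set p3 : Equiv.Perm (Fin n) := Equiv.swap a (σ a) * Equiv.swap b (σ b) with hp3
  have v1 : ∀ y, p1 y = if y = b ∨ y = σ b then y else σ y := by
    intro y
    simp only [hp1, Equiv.Perm.mul_apply, Equiv.swap_apply_def]
    by_cases e1 : y = b
    · subst e1; simp [h1]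
    · by_cases e2 : y = σ b
      · subst e2; simp [hb]
      · simp [e1, e2]
  have v2 : ∀ y, p2 y = if y = a ∨ y = σ a then y else σ y := by
    intro y
    simp only [hp2, Equiv.Perm.mul_apply, Equiv.swap_apply_def]
    by_cases e1 : y = a
    · subst e1; simp [h1]
    · by_cases e2 : y = σ a
      · subst e2; simp [ha]
      · simp [e1, e2]
  have v3 : ∀ y, p3 y = if y = a ∨ y = σ a ∨ y = b ∨ y = σ b then σ y else y := by
    intro y
    simp only [hp3, Equiv.Perm.mul_apply, Equiv.swap_apply_def]
    by_cases e1 : y = b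
    · subst e1
      simp [hab1, hab2]
    · by_cases e2 : y = σ b
      · subst e2
        simp [hb, h1, hab, hab']
      · by_cases e3 : y = a
        · subst e3; simp [e1, e2]
        · by_cases e4 : y = σ a
          · subst e4; simp [ha, e1, e2, h1]
          · simp [e1, e2, e3, e4]
  have s1 : Equiv.Perm.sign p1 = 1 := by
    rw [hp1, Equiv.Perm.sign_mul, hsg, Equiv.Perm.sign_swap (Ne.symm hb)]; decide
  have s2 : Equiv.Perm.sign p2 = 1 := by
    rw [hp2, Equiv.Perm.sign_mul, hsg, Equiv.Perm.sign_swap (Ne.symm ha)]; decide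
  have s3 : Equiv.Perm.sign p3 = 1 := by
    rw [hp3, Equiv.Perm.sign_mul, Equiv.Perm.sign_swap (Ne.symm hb),
      Equiv.Perm.sign_swap (Ne.symm ha)]; decide
  have memb : ∀ y, (σ y = b ∨ σ y = σ b) ↔ (y = b ∨ y = σ b) := by
    intro y
    constructor
    · rintro (h | h)
      · right; exact hinj _ _ h
      · left; exact σ.injective h
    · rintro (h | h)
      · right; rw [h]
      · left; rw [h, h1]
  have mema : ∀ y, (σ y = a ∨ σ y = σ a) ↔ (y = a ∨ y = σ a) := by
    intro y
    constructor
    · rintro (h | h)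
      · right; exact hinj _ _ h
      · left; exact σ.injective h
    · rintro (h | h)
      · right; rw [h]
      · left; rw [h, h1]
  -- the coefficient functions
  set c1 : Fin n → ℂ := fun y => if y = b ∨ y = σ b then 1 else star (x y) with hc1
  set c2 : Fin n → ℂ := fun y => if y = b ∨ y = σ b then star (x y) else 1 with hc2
  have hc12 : ∀ y, c1 y * c2 y = star (x y) := by
    intro y
    simp only [hc1, hc2]
    split_ifs <;> simp
  have hprod2 : ∏ i, c2 i = 1 := by
    have hsub : ∏ i, c2 i = ∏ i ∈ ({b, σ b} : Finset (Fin n)), c2 i := by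
      symm
      apply Finset.prod_subset (Finset.subset_univ _)
      intro y _ hy
      simp only [Finset.mem_insert, Finset.mem_singleton] at hy
      simp only [hc2, if_neg hy]
    rw [hsub, Finset.prod_pair (Ne.symm hb)]
    simp only [hc2, true_or, or_true, if_true, hc, star_star]
    exact hx b
  have hprod1 : ∏ i, c1 i = 1 := by
    have : (∏ i, c1 i) * (∏ i, c2 i) = 1 := by
      rw [← Finset.prod_mul_distrib]
      simp only [hc12, hps]
    rw [hprod2, mul_one] at this
    exact this
  have i1 : IsInv n (mono p1 c1) := by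
    apply mono_isInv
    · intro y
      by_cases e : y = b ∨ y = σ b
      · rw [v1 y, if_pos e, v1 y, if_pos e]
      · have e' : ¬ (σ y = b ∨ σ y = σ b) := fun h => e ((memb y).mp h)
        rw [v1 y, if_neg e, v1 (σ y), if_neg e', h1]
    · intro y
      by_cases e : y = b ∨ y = σ b
      · rw [v1 y, if_pos e]; simp only [hc1, if_pos e, mul_one]
      · have e' : ¬ (σ y = b ∨ σ y = σ b) := fun h => e ((memb y).mp h)
        rw [v1 y, if_neg e]; simp only [hc1, if_neg e, if_neg e', hc, star_star]
        rw [mul_comm]; exact hx y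
    · intro y
      by_cases e : y = b ∨ y = σ b
      · rw [v1 y, if_pos e]; simp only [hc1, if_pos e, star_one]
      · have e' : ¬ (σ y = b ∨ σ y = σ b) := fun h => e ((memb y).mp h)
        rw [v1 y, if_neg e]; simp only [hc1, if_neg e, if_neg e', hc, star_star]
    · rw [s1, hprod1]; simp
  have i2 : IsInv n (mono p2 c2) := by
    have nb : ¬ (b = a ∨ b = σ a) := by
      rintro (h | h)
      · exact hab h
      · exact hab' h
    have nsb : ¬ (σ b = a ∨ σ b = σ a) := fun h => nb ((mema b).mp h)
    apply mono_isInv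
    · intro y
      by_cases e : y = a ∨ y = σ a
      · rw [v2 y, if_pos e, v2 y, if_pos e]
      · have e' : ¬ (σ y = a ∨ σ y = σ a) := fun h => e ((mema y).mp h)
        rw [v2 y, if_neg e, v2 (σ y), if_neg e', h1]
    · intro y
      by_cases e : y = b ∨ y = σ b
      · have e' : (σ y = b ∨ σ y = σ b) := (memb y).mpr e
        have e2 : ¬ (y = a ∨ y = σ a) := by
          rcases e with h | h
          · rw [h]; exact nb
          · rw [h]; exact nsb
        rw [v2 y, if_neg e2]; simp only [hc2, if_pos e, if_pos e', hc, star_star]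
        rw [mul_comm]; exact hx y
      · have e' : ¬ (σ y = b ∨ σ y = σ b) := fun h => e ((memb y).mp h)
        rw [v2 y]
        by_cases e2 : y = a ∨ y = σ a
        · rw [if_pos e2]; simp only [hc2, if_neg e, mul_one]
        · rw [if_neg e2]; simp only [hc2, if_neg e, if_neg e', mul_one]
    · intro y
      by_cases e : y = b ∨ y = σ b
      · have e' : (σ y = b ∨ σ y = σ b) := (memb y).mpr e
        have e2 : ¬ (y = a ∨ y = σ a) := by
          rcases e with h | h
          · rw [h]; exact nb
          · rw [h]; exact nsb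
        rw [v2 y, if_neg e2]; simp only [hc2, if_pos e, if_pos e', hc, star_star]
      · have e' : ¬ (σ y = b ∨ σ y = σ b) := fun h => e ((memb y).mp h)
        rw [v2 y]
        by_cases e2 : y = a ∨ y = σ a
        · rw [if_pos e2]; simp only [hc2, if_neg e, star_one]
        · rw [if_neg e2]; simp only [hc2, if_neg e, if_neg e', star_one]
    · rw [s2, hprod2]; simp
  have i3 : IsInv n (mono p3 (fun _ => 1)) := by
    apply mono_isInv
    · intro y
      by_cases e : y = a ∨ y = σ a ∨ y = b ∨ y = σ b
      · have e' : (σ y = a ∨ σ y = σ a ∨ σ y = b ∨ σ y = σ b) := by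
          rcases e with h | h | h | h
          · right; left; rw [h]
          · left; rw [h, h1]
          · right; right; right; rw [h]
          · right; right; left; rw [h, h1]
        rw [v3 y, if_pos e, v3 (σ y), if_pos e', h1]
      · rw [v3 y, if_neg e, v3 y, if_neg e]
    · intro y; simp
    · intro y; simp
    · rw [s3]; simp
  refine ⟨_, _, _, i1, i2, i3, ?_⟩
  rw [mono_mul, mono_mul, diag_mono]
  have hq : p1 * p2 * p3 = 1 := by
    ext y : 1
    simp only [Equiv.Perm.mul_apply, Equiv.Perm.one_apply]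
    have nb : ¬ (b = a ∨ b = σ a) := by
      rintro (h | h)
      · exact hab h
      · exact hab' h
    have nsb : ¬ (σ b = a ∨ σ b = σ a) := fun h => nb ((mema b).mp h)
    by_cases e1 : y = a ∨ y = σ a
    · have e2 : y = a ∨ y = σ a ∨ y = b ∨ y = σ b := by tauto
      have e3 : σ y = a ∨ σ y = σ a := (mema y).mpr e1
      have e4 : ¬ (σ y = b ∨ σ y = σ b) := by
        intro h
        rcases h with h | h
        · rw [h] at e3; exact nb e3
        · rw [h] at e3; exact nsb e3
      rw [v3, if_pos e2, v2, if_pos e3, v1, if_neg e4, h1]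
    · by_cases e2 : y = b ∨ y = σ b
      · have e3 : y = a ∨ y = σ a ∨ y = b ∨ y = σ b := by tauto
        have e4 : ¬ (σ y = a ∨ σ y = σ a) := fun h => e1 ((mema y).mp h)
        rw [v3, if_pos e3, v2, if_neg e4, h1, v1, if_pos e2]
      · have e3 : ¬ (y = a ∨ y = σ a ∨ y = b ∨ y = σ b) := by tauto
        have e4 : ¬ (σ y = b ∨ σ y = σ b) := fun h => e2 ((memb y).mp h)
        rw [v3, if_neg e3, v2, if_neg e1, v1, if_neg e4, h1]
  rw [hq]
  congr 1
  funext y
  have nb : ¬ (b = a ∨ b = σ a) := by
    rintro (h | h)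
    · exact hab h
    · exact hab' h
  have nsb : ¬ (σ b = a ∨ σ b = σ a) := fun h => nb ((mema b).mp h)
  by_cases e1 : y = a ∨ y = σ a
  · have e2 : y = a ∨ y = σ a ∨ y = b ∨ y = σ b := by tauto
    have e3 : σ y = a ∨ σ y = σ a := (mema y).mpr e1
    have e4 : ¬ (σ y = b ∨ σ y = σ b) := by
      intro h
      rcases h with h | h
      · rw [h] at e3; exact nb e3
      · rw [h] at e3; exact nsb e3
    rw [v3, if_pos e2, v2, if_pos e3]
    simp only [hc1, hc2, if_neg e4, hc, star_star, mul_one]
  · by_cases e2 : y = b ∨ y = σ b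
    · have e3 : y = a ∨ y = σ a ∨ y = b ∨ y = σ b := by tauto
      have e4 : ¬ (σ y = a ∨ σ y = σ a) := fun h => e1 ((mema y).mp h)
      have e5 : σ y = b ∨ σ y = σ b := (memb y).mpr e2
      rw [v3, if_pos e3, v2, if_neg e4, h1]
      simp only [hc1, hc2, if_pos e2, if_pos e5, hc, star_star, mul_one, one_mul]
    · have e3 : ¬ (y = a ∨ y = σ a ∨ y = b ∨ y = σ b) := by tauto
      have e4 : ¬ (σ y = b ∨ σ y = σ b) := fun h => e2 ((memb y).mp h)
      rw [v3, if_neg e3, v2, if_neg e1]
      simp only [hc1, hc2, if_neg e2, if_neg e4, hc, star_star, mul_one]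

end Pool.Agent.H16.SUn
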