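import Pool.Agent.H16.SUn2

/-! The main argument for the special unitary group. -/

namespace Pool.Agent.H16.SUn

open Matrix

variable {n : ℕ}

/-- The first pairing: `0-1, 2-3, ...`. -/
def tX (n : ℕ) (i : Fin n) : Fin n :=
  if (i : ℕ) % 2 = 0 then (if h : (i : ℕ) + 1 < n then ⟨(i : ℕ) + 1, h⟩ else i)
  else ⟨(i : ℕ) - 1, by omega⟩

/-- The second pairing: `0, 1-2, 3-4, ...`. -/
def tY (n : ℕ) (i : Fin n) : Fin n :=
  if (i : ℕ) % 2 = 1 then (if h : (i : ℕ) + 1 < n then ⟨(i : ℕ) + 1, h⟩ else i)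
  else ⟨(i : ℕ) - 1, by omega⟩

theorem tX_inv (i : Fin n) : tX n (tX n i) = i := by
  unfold tX
  by_cases h : (i : ℕ) % 2 = 0
  · by_cases h' : (i : ℕ) + 1 < n
    · have h2 : ¬ ((i : ℕ) + 1) % 2 = 0 := by omega
      simp only [h, h', dif_pos, if_true, h2, if_false]
      apply Fin.ext; simp
    · simp only [h, h', if_true, dif_neg, not_false_eq_true]
  · have h2 : ((i : ℕ) - 1) % 2 = 0 := by omega
    have h3 : ((i : ℕ) - 1) + 1 < n := by omega
    simp only [h, if_false, h2, if_true, h3, dif_pos]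
    apply Fin.ext; simp; omega

theorem tY_inv (i : Fin n) : tY n (tY n i) = i := by
  unfold tY
  by_cases h : (i : ℕ) % 2 = 1
  · by_cases h' : (i : ℕ) + 1 < n
    · have h2 : ¬ ((i : ℕ) + 1) % 2 = 1 := by omega
      simp only [h, h', dif_pos, if_true, h2, if_false]
      apply Fin.ext; simp
    · simp only [h, h', if_true, dif_neg, not_false_eq_true]
  · by_cases h0 : (i : ℕ) = 0
    · have h2 : ¬ ((i : ℕ) - 1) % 2 = 1 := by omega
      simp only [h, if_false, h2]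
      apply Fin.ext; simp; omega
    · have h2 : ((i : ℕ) - 1) % 2 = 1 := by omega
      have h3 : ((i : ℕ) - 1) + 1 < n := by omega
      simp only [h, if_false, h2, if_true, h3, dif_pos]
      apply Fin.ext; simp; omega

/-- The first pairing as a permutation. -/
def sX (n : ℕ) : Equiv.Perm (Fin n) := ⟨tX n, tX n, tX_inv, tX_inv⟩

/-- The second pairing as a permutation. -/
def sY (n : ℕ) : Equiv.Perm (Fin n) := ⟨tY n, tY n, tY_inv, tY_inv⟩

theorem sX_apply (i : Fin n) : sX n i = tX n i := rfl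

theorem sY_apply (i : Fin n) : sY n i = tY n i := rfl

/-- Partial products. -/
noncomputable def pp (z : Fin n → ℂ) (k : ℕ) : ℂ :=
  ∏ i ∈ Finset.range k, (if h : i < n then z ⟨i, h⟩ else 1)

theorem pp_zero (z : Fin n → ℂ) : pp z 0 = 1 := by simp [pp]

theorem pp_succ (z : Fin n → ℂ) (i : Fin n) : pp z ((i : ℕ) + 1) = pp z i * z i := by
  unfold pp
  rw [Finset.prod_range_succ, dif_pos i.2]

theorem pp_n (z : Fin n → ℂ) (hz : ∏ i, z i = 1) : pp z n = 1 := by
  unfold pp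
  rw [Finset.prod_range, ← hz]
  exact Finset.prod_congr rfl (fun i _ => by rw [dif_pos i.2])

theorem pp_norm (z : Fin n → ℂ) (hz : ∀ i, star (z i) * z i = 1) (k : ℕ) :
    star (pp z k) * pp z k = 1 := by
  unfold pp
  rw [star_prod, ← Finset.prod_mul_distrib]
  apply Finset.prod_eq_one
  intro i _
  by_cases h : i < n
  · rw [dif_pos h]; exact hz _
  · rw [dif_neg h]; simp

/-- The first factor. -/
noncomputable def xx (z : Fin n → ℂ) (i : Fin n) : ℂ :=
  if (i : ℕ) % 2 = 0 then pp z ((i : ℕ) + 1) else star (pp z i)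

/-- The second factor. -/
noncomputable def yy (z : Fin n → ℂ) (i : Fin n) : ℂ :=
  if (i : ℕ) % 2 = 1 then pp z ((i : ℕ) + 1) else star (pp z i)

theorem xx_mul_yy (z : Fin n → ℂ) (hz : ∀ i, star (z i) * z i = 1) (i : Fin n) :
    xx z i * yy z i = z i := by
  have h1 := pp_norm z hz i
  unfold xx yy
  by_cases h : (i : ℕ) % 2 = 0
  · have h' : ¬ (i : ℕ) % 2 = 1 := by omega
    rw [if_pos h, if_neg h', pp_succ]
    linear_combination z i * h1
  · have h' : (i : ℕ) % 2 = 1 := by omega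
    rw [if_neg h, if_pos h', pp_succ]
    linear_combination z i * h1

theorem xx_norm (z : Fin n → ℂ) (hz : ∀ i, star (z i) * z i = 1) (i : Fin n) :
    star (xx z i) * xx z i = 1 := by
  unfold xx
  split_ifs
  · exact pp_norm z hz _
  · rw [star_star, mul_comm]; exact pp_norm z hz _

theorem yy_norm (z : Fin n → ℂ) (hz : ∀ i, star (z i) * z i = 1) (i : Fin n) :
    star (yy z i) * yy z i = 1 := by
  unfold yy
  split_ifs
  · exact pp_norm z hz _
  · rw [star_star, mul_comm]; exact pp_norm z hz _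

theorem xx_sX (z : Fin n → ℂ) (hp : ∏ i, z i = 1) (i : Fin n) :
    xx z (sX n i) = star (xx z i) := by
  rw [sX_apply]
  unfold tX xx
  by_cases h : (i : ℕ) % 2 = 0
  · by_cases h' : (i : ℕ) + 1 < n
    · have h2 : ¬ ((i : ℕ) + 1) % 2 = 0 := by omega
      simp only [h, h', dif_pos, if_true, h2, if_false]
    · have h3 : (i : ℕ) + 1 = n := by omega
      simp only [h, h', if_true, dif_neg, not_false_eq_true]
      rw [h3, pp_n z hp, star_one]
  · have h2 : ((i : ℕ) - 1) % 2 = 0 := by omega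
    have h3 : ((i : ℕ) - 1) + 1 = (i : ℕ) := by omega
    simp only [h, if_false, h2, if_true, h3, star_star]

theorem yy_sY (z : Fin n → ℂ) (hp : ∏ i, z i = 1) (i : Fin n) :
    yy z (sY n i) = star (yy z i) := by
  rw [sY_apply]
  unfold tY yy
  by_cases h : (i : ℕ) % 2 = 1
  · by_cases h' : (i : ℕ) + 1 < n
    · have h2 : ¬ ((i : ℕ) + 1) % 2 = 1 := by omega
      simp only [h, h', dif_pos, if_true, h2, if_false]
    · have h3 : (i : ℕ) + 1 = n := by omega
      simp only [h, h', if_true, dif_neg, not_false_eq_true]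
      rw [h3, pp_n z hp, star_one]
  · by_cases h0 : (i : ℕ) = 0
    · have h2 : ¬ ((i : ℕ) - 1) % 2 = 1 := by omega
      have h3 : (i : ℕ) - 1 = 0 := by omega
      simp only [h, if_false, h2]
      rw [h3, h0, pp_zero]; simp
    · have h2 : ((i : ℕ) - 1) % 2 = 1 := by omega
      have h3 : ((i : ℕ) - 1) + 1 = (i : ℕ) := by omega
      simp only [h, if_false, h2, if_true, h3, star_star]

theorem xx_fix (z : Fin n → ℂ) (hp : ∏ i, z i = 1) (i : Fin n) (hi : sX n i = i) :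
    xx z i = 1 := by
  rw [sX_apply] at hi
  unfold tX at hi
  unfold xx
  by_cases h : (i : ℕ) % 2 = 0
  · by_cases h' : (i : ℕ) + 1 < n
    · exfalso
      rw [if_pos h, dif_pos h'] at hi
      have := congrArg Fin.val hi
      simp at this
    · have h3 : (i : ℕ) + 1 = n := by omega
      rw [if_pos h, h3, pp_n z hp]
  · exfalso
    rw [if_neg h] at hi
    have := congrArg Fin.val hi
    simp at this
    omega

theorem yy_fix (z : Fin n → ℂ) (hp : ∏ i, z i = 1) (i : Fin n) (hi : sY n i = i) :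
    yy z i = 1 := by
  rw [sY_apply] at hi
  unfold tY at hi
  unfold yy
  by_cases h : (i : ℕ) % 2 = 1
  · by_cases h' : (i : ℕ) + 1 < n
    · exfalso
      rw [if_pos h, dif_pos h'] at hi
      have := congrArg Fin.val hi
      simp at this
    · have h3 : (i : ℕ) + 1 = n := by omega
      rw [if_pos h, h3, pp_n z hp]
  · rw [if_neg h] at hi
    have := congrArg Fin.val hi
    simp at this
    have h0 : (i : ℕ) = 0 := by omega
    rw [if_neg h, h0, pp_zero, star_one]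

theorem prod_one (σ : Equiv.Perm (Fin n)) (x : Fin n → ℂ) (h1 : ∀ y, σ (σ y) = y)
    (hx : ∀ y, star (x y) * x y = 1) (hc : ∀ y, x (σ y) = star (x y))
    (hf : ∀ y, σ y = y → x y = 1) : ∏ i, x i = 1 := by
  apply Finset.prod_involution (fun a _ => σ a)
  · intro a _
    rw [hc, mul_comm]; exact hx a
  · intro a _ ha h
    exact ha (hf a h)
  · intro a _; exact Finset.mem_univ _
  · intro a _; exact h1 a

theorem yy_two (z : Fin n → ℂ) (hn : 0 < n) (hz : ∀ i, star (z i) * z i = 1)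
    (hp : ∏ i, z i = 1) :
    ∃ I1 I2, IsInv n I1 ∧ IsInv n I2 ∧ Matrix.diagonal (yy z) = I1 * I2 := by
  apply two_inv' (sY n) (yy z) tY_inv (yy_norm z hz) (yy_sY z hp)
    (prod_one (sY n) (yy z) tY_inv (yy_norm z hz) (yy_sY z hp) (yy_fix z hp))
  right
  refine ⟨⟨0, hn⟩, ?_⟩
  rw [sY_apply]
  apply Fin.ext
  simp [tY]

theorem xx_two (z : Fin n → ℂ) (hn : 0 < n) (hz : ∀ i, star (z i) * z i = 1)
    (hp : ∏ i, z i = 1) (h : Equiv.Perm.sign (sX n) = 1 ∨ n % 2 = 1) :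
    ∃ I1 I2, IsInv n I1 ∧ IsInv n I2 ∧ Matrix.diagonal (xx z) = I1 * I2 := by
  apply two_inv' (sX n) (xx z) tX_inv (xx_norm z hz) (xx_sX z hp)
    (prod_one (sX n) (xx z) tX_inv (xx_norm z hz) (xx_sX z hp) (xx_fix z hp))
  rcases h with h | h
  · left; exact h
  · right
    refine ⟨⟨n - 1, by omega⟩, ?_⟩
    rw [sX_apply]
    apply Fin.ext
    unfold tX
    have h1 : (n - 1) % 2 = 0 := by omega
    have h2 : ¬ (n - 1) + 1 < n := by omega
    simp only [h1, if_true, h2, dif_neg, not_false_eq_true]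

theorem xx_three (z : Fin n → ℂ) (hn : 4 ≤ n) (hz : ∀ i, star (z i) * z i = 1)
    (hp : ∏ i, z i = 1) (h : Equiv.Perm.sign (sX n) = -1) :
    ∃ I1 I2 I3, IsInv n I1 ∧ IsInv n I2 ∧ IsInv n I3 ∧
      Matrix.diagonal (xx z) = I1 * I2 * I3 := by
  have e0 : sX n ⟨0, by omega⟩ = ⟨1, by omega⟩ := by
    rw [sX_apply]
    unfold tX
    have h2 : 0 + 1 < n := by omega
    simp [h2]
  have e2 : sX n ⟨2, by omega⟩ = ⟨3, by omega⟩ := by
    rw [sX_apply]
    unfold tX
    have h2 : 2 + 1 < n := by omega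
    simp [h2]
  apply three_inv (sX n) (xx z) tX_inv (xx_norm z hz) (xx_sX z hp)
    (prod_one (sX n) (xx z) tX_inv (xx_norm z hz) (xx_sX z hp) (xx_fix z hp)) h
    ⟨0, by omega⟩ ⟨2, by omega⟩
  · rw [e0]; simp
  · rw [e2]; simp
  · simp
  · rw [e0]; simp

theorem isInv_one : IsInv n (1 : Matrix (Fin n) (Fin n) ℂ) :=
  ⟨Submonoid.one_mem _, mul_one _⟩

theorem reduce {A : Matrix (Fin n) (Fin n) ℂ} (hA : A ∈ Matrix.specialUnitaryGroup (Fin n) ℂ) :
    ∃ (P : Matrix (Fin n) (Fin n) ℂ) (z : Fin n → ℂ), Pᴴ * P = 1 ∧ P * Pᴴ = 1 ∧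
      A = P * (Matrix.diagonal (xx z) * Matrix.diagonal (yy z)) * Pᴴ ∧
      (∀ i, star (z i) * z i = 1) ∧ ∏ i, z i = 1 := by
  rw [Matrix.mem_specialUnitaryGroup_iff, Matrix.mem_unitaryGroup_iff,
    Matrix.star_eq_conjTranspose] at hA
  obtain ⟨h1, h2⟩ := hA
  have h3 : Aᴴ * A = 1 := mul_eq_one_comm.mp h1
  obtain ⟨P, z, e1, e2, e3, e4⟩ := diagonalise h3
  have hp : ∏ i, z i = 1 := by
    have : A.det = ∏ i, z i := by
      rw [e3, det_mul, det_mul, det_diagonal]
      calc P.det * (∏ i, z i) * Pᴴ.det = (P * Pᴴ).det * ∏ i, z i := by rw [det_mul]; ring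
        _ = ∏ i, z i := by rw [e2, det_one, one_mul]
    rw [← this, h2]
  refine ⟨P, z, e1, e2, ?_, e4, hp⟩
  rw [Matrix.diagonal_mul_diagonal]
  have : (fun i => xx z i * yy z i) = z := funext (fun i => xx_mul_yy z e4 i)
  rw [this]
  exact e3

theorem five {A : Matrix (Fin n) (Fin n) ℂ} (hn : 3 ≤ n)
    (hA : A ∈ Matrix.specialUnitaryGroup (Fin n) ℂ) :
    ∃ I1 I2 I3 I4 I5, IsInv n I1 ∧ IsInv n I2 ∧ IsInv n I3 ∧ IsInv n I4 ∧ IsInv n I5 ∧
      A = I1 * I2 * I3 * I4 * I5 := by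
  obtain ⟨P, z, e1, e2, e3, e4, e5⟩ := reduce hA
  obtain ⟨J1, J2, j1, j2, hY⟩ := yy_two z (by omega) e4 e5
  have key : ∃ K1 K2 K3, IsInv n K1 ∧ IsInv n K2 ∧ IsInv n K3 ∧
      Matrix.diagonal (xx z) = K1 * K2 * K3 := by
    rcases Int.units_eq_one_or (Equiv.Perm.sign (sX n)) with h | h
    · obtain ⟨K1, K2, k1, k2, hX⟩ := xx_two z (by omega) e4 e5 (Or.inl h)
      exact ⟨K1, K2, 1, k1, k2, isInv_one, by rw [mul_one, hX]⟩
    · by_cases h2 : n % 2 = 1
      · obtain ⟨K1, K2, k1, k2, hX⟩ := xx_two z (by omega) e4 e5 (Or.inr h2)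
        exact ⟨K1, K2, 1, k1, k2, isInv_one, by rw [mul_one, hX]⟩
      · exact xx_three z (by omega) e4 e5 h
  obtain ⟨K1, K2, K3, k1, k2, k3, hX⟩ := key
  refine ⟨_, _, _, _, _, isInv_conj e1 e2 k1, isInv_conj e1 e2 k2, isInv_conj e1 e2 k3,
    isInv_conj e1 e2 j1, isInv_conj e1 e2 j2, ?_⟩
  calc A = P * (K1 * K2 * K3 * (J1 * J2)) * Pᴴ := by rw [e3, hX, hY]
    _ = P * K1 * (1 * K2) * (1 * K3) * (1 * J1) * (1 * J2) * Pᴴ := by
        simp only [mul_assoc, one_mul]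
    _ = P * K1 * (Pᴴ * P * K2) * (Pᴴ * P * K3) * (Pᴴ * P * J1) * (Pᴴ * P * J2) * Pᴴ := by
        rw [e1]
    _ = _ := by simp only [mul_assoc]

end Pool.Agent.H16.SUn
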