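import Pool.Agent.H16.SUn3

/-! Four involutions when `n` is not `2` modulo `4`. -/

namespace Pool.Agent.H16.SUn

open Matrix

theorem sign_sX (m : ℕ) : Equiv.Perm.sign (sX (m * 2)) = (-1) ^ m := by
  have h := Equiv.Perm.sign_eq_sign_of_equiv
    (Equiv.prodCongrRight (fun _ : Fin m => Equiv.swap (0 : Fin 2) 1)) (sX (m * 2))
    finProdFinEquiv ?_
  · rw [← h, Equiv.Perm.sign_prodCongrRight]
    simp [Equiv.Perm.sign_swap]
  · rintro ⟨i, b⟩
    rw [sX_apply]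
    apply Fin.ext
    unfold tX
    fin_cases b
    · have h1 : (2 * (i : ℕ)) % 2 = 0 := by omega
      have h2 : 2 * (i : ℕ) + 1 < m * 2 := by have := i.2; omega
      simp [finProdFinEquiv, h2]
      omega
    · have h1 : ¬ (1 + 2 * (i : ℕ)) % 2 = 0 := by omega
      simp [finProdFinEquiv, h1]

theorem four {n : ℕ} {A : Matrix (Fin n) (Fin n) ℂ} (hn : 3 ≤ n) (h4 : n % 4 ≠ 2)
    (hA : A ∈ Matrix.specialUnitaryGroup (Fin n) ℂ) :
    ∃ I1 I2 I3 I4, IsInv n I1 ∧ IsInv n I2 ∧ IsInv n I3 ∧ IsInv n I4 ∧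
      A = I1 * I2 * I3 * I4 := by
  obtain ⟨P, z, e1, e2, e3, e4, e5⟩ := reduce hA
  obtain ⟨J1, J2, j1, j2, hY⟩ := yy_two z (by omega) e4 e5
  have hs : Equiv.Perm.sign (sX n) = 1 ∨ n % 2 = 1 := by
    by_cases h : n % 2 = 1
    · right; exact h
    · left
      obtain ⟨m, rfl⟩ : ∃ m, n = m * 2 := ⟨n / 2, by omega⟩
      rw [sign_sX]
      have : Even m := by rw [Nat.even_iff]; omega
      exact this.neg_one_pow
  obtain ⟨K1, K2, k1, k2, hX⟩ := xx_two z (by omega) e4 e5 hs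
  refine ⟨_, _, _, _, isInv_conj e1 e2 k1, isInv_conj e1 e2 k2,
    isInv_conj e1 e2 j1, isInv_conj e1 e2 j2, ?_⟩
  calc A = P * (K1 * K2 * (J1 * J2)) * Pᴴ := by rw [e3, hX, hY]
    _ = P * K1 * (1 * K2) * (1 * J1) * (1 * J2) * Pᴴ := by
        simp only [mul_assoc, one_mul]
    _ = P * K1 * (Pᴴ * P * K2) * (Pᴴ * P * J1) * (Pᴴ * P * J2) * Pᴴ := by
        rw [e1]
    _ = _ := by simp only [mul_assoc]

end Pool.Agent.H16.SUn
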