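import Mathlib

/-! Vector lemmas for the compact symplectic group. -/

namespace Pool.Agent.H16.Spn

open Matrix

/-- The symplectic matrix with blocks `0, 1, -1, 0`. -/
def JJ (n : ℕ) : Matrix (Fin n ⊕ Fin n) (Fin n ⊕ Fin n) ℂ :=
  Matrix.fromBlocks 0 1 (-1) 0

/-- The compact symplectic group as a set of complex matrices. -/
def IsSp (n : ℕ) (A : Matrix (Fin n ⊕ Fin n) (Fin n ⊕ Fin n) ℂ) : Prop :=
  A ∈ Matrix.unitaryGroup (Fin n ⊕ Fin n) ℂ ∧ Aᵀ * JJ n * A = JJ n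

variable {n : ℕ}

abbrev V (n : ℕ) := (Fin n ⊕ Fin n) → ℂ

/-- The antilinear map `v ↦ -J (conj v)`. -/
def jj (v : V n) : V n := fun x => match x with
  | Sum.inl i => - star (v (Sum.inr i))
  | Sum.inr i => star (v (Sum.inl i))

/-- The Hermitian product. -/
def ip (v w : V n) : ℂ := star v ⬝ᵥ w

theorem ip_def (v w : V n) : ip v w =
    ∑ i, (star (v (Sum.inl i)) * w (Sum.inl i)) + ∑ i, (star (v (Sum.inr i)) * w (Sum.inr i)) := by
  simp [ip, dotProduct, Fintype.sum_sum_type]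

theorem ip_add_left (a b c : V n) : ip (a + b) c = ip a c + ip b c := by
  simp [ip, add_dotProduct]

theorem ip_add_right (a b c : V n) : ip a (b + c) = ip a b + ip a c := by
  simp [ip, dotProduct_add]

theorem ip_sub_left (a b c : V n) : ip (a - b) c = ip a c - ip b c := by
  simp [ip, sub_dotProduct]

theorem ip_sub_right (a b c : V n) : ip a (b - c) = ip a b - ip a c := by
  simp [ip, dotProduct_sub]

theorem ip_smul_left (t : ℂ) (a c : V n) : ip (t • a) c = star t * ip a c := by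
  simp [ip, star_smul, smul_dotProduct]

theorem ip_smul_right (t : ℂ) (a c : V n) : ip a (t • c) = t * ip a c := by
  simp [ip, dotProduct_smul]

theorem ip_star (a b : V n) : star (ip a b) = ip b a := by
  simp only [ip_def, star_add, star_sum, star_mul', star_star]
  congr 1 <;> exact Finset.sum_congr rfl (fun i _ => mul_comm _ _)

theorem jj_add (a b : V n) : jj (a + b) = jj a + jj b := by
  funext x; rcases x with i | i
  · simp [jj]; ring
  · simp [jj]

theorem jj_sub (a b : V n) : jj (a - b) = jj a - jj b := by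
  funext x; rcases x with i | i
  · simp [jj]; ring
  · simp [jj]

theorem jj_smul (t : ℂ) (a : V n) : jj (t • a) = star t • jj a := by
  funext x; rcases x with i | i
  · simp [jj]
  · simp [jj]

theorem jj_jj (a : V n) : jj (jj a) = - a := by
  funext x; rcases x with i | i
  · simp [jj]
  · simp [jj]

theorem ip_jj_jj (a b : V n) : ip (jj a) (jj b) = star (ip a b) := by
  simp only [ip_def, jj, star_add, star_sum, star_mul', star_star, star_neg, neg_mul_neg]
  rw [add_comm]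

theorem ip_jj_swap (a b : V n) : ip (jj a) b = - ip (jj b) a := by
  simp only [ip_def, jj, star_star, star_neg, neg_mul, Finset.sum_neg_distrib, neg_add, neg_neg]
  rw [add_comm]
  congr 1
  · exact Finset.sum_congr rfl (fun i _ => mul_comm _ _)
  · rw [neg_inj]
    exact Finset.sum_congr rfl (fun i _ => mul_comm _ _)

theorem ip_jj_self (a : V n) : ip (jj a) a = 0 := by
  have h := ip_jj_swap a a
  have : 2 * ip (jj a) a = 0 := by linear_combination h
  simpa using this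

theorem ip_jj_self' (a : V n) : ip a (jj a) = 0 := by
  rw [← ip_star, ip_jj_self]; simp

theorem jj_eq (v : V n) : JJ n *ᵥ star v = - jj v := by
  funext x; rcases x with i | i
  · simp [JJ, jj, mulVec, dotProduct, fromBlocks, Matrix.one_apply]
  · simp [JJ, jj, mulVec, dotProduct, fromBlocks, Matrix.one_apply]

theorem JJ_mulVec_inl (v : V n) (i : Fin n) : (JJ n *ᵥ v) (Sum.inl i) = v (Sum.inr i) := by
  simp [JJ, mulVec, dotProduct, fromBlocks, Matrix.one_apply]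

theorem JJ_mulVec_inr (v : V n) (i : Fin n) : (JJ n *ᵥ v) (Sum.inr i) = - v (Sum.inl i) := by
  simp [JJ, mulVec, dotProduct, fromBlocks, Matrix.one_apply]

theorem JJ_mul_self : JJ n * JJ n = -1 := by
  simp [JJ, fromBlocks_multiply, ← fromBlocks_one, fromBlocks_neg]

theorem JJ_transpose : (JJ n)ᵀ = - JJ n := by
  simp [JJ, fromBlocks_transpose, fromBlocks_neg]

/-- Entrywise conjugate. -/
def cj (A : Matrix (Fin n ⊕ Fin n) (Fin n ⊕ Fin n) ℂ) :
    Matrix (Fin n ⊕ Fin n) (Fin n ⊕ Fin n) ℂ := A.map star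

theorem cj_eq (A : Matrix (Fin n ⊕ Fin n) (Fin n ⊕ Fin n) ℂ) : cj A = (Aᴴ)ᵀ := by
  ext i j; simp [cj]

theorem cj_JJ : cj (JJ n) = JJ n := by
  ext x y; rcases x with i | i <;> rcases y with j | j <;>
    simp [cj, JJ, fromBlocks, Matrix.one_apply]

/-- Alternative description. -/
theorem isSp_iff (A : Matrix (Fin n ⊕ Fin n) (Fin n ⊕ Fin n) ℂ) :
    IsSp n A ↔ (A * Aᴴ = 1 ∧ Aᴴ * A = 1) ∧ A * JJ n = JJ n * cj A := by
  unfold IsSp
  rw [Matrix.mem_unitaryGroup_iff]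
  constructor
  · rintro ⟨h1, h2⟩
    have h1' : A * Aᴴ = 1 := h1
    have h3 : Aᴴ * A = 1 := mul_eq_one_comm.mp h1'
    refine ⟨⟨h1', h3⟩, ?_⟩
    -- conj A * Aᵀ = 1
    have h4 : cj A * Aᵀ = 1 := by
      rw [cj_eq, ← transpose_mul, h1', transpose_one]
    have h5 : JJ n * A = cj A * JJ n := by
      calc JJ n * A = (cj A * Aᵀ) * (JJ n * A) := by rw [h4, one_mul]
        _ = cj A * (Aᵀ * JJ n * A) := by simp only [mul_assoc]
        _ = cj A * JJ n := by rw [h2]
    have h6 : JJ n * (JJ n * A) * JJ n = JJ n * (cj A * JJ n) * JJ n := by rw [h5]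
    have e1 : JJ n * (JJ n * A) * JJ n = - (A * JJ n) := by
      rw [← mul_assoc, JJ_mul_self]; simp
    have e2 : JJ n * (cj A * JJ n) * JJ n = - (JJ n * cj A) := by
      rw [mul_assoc, mul_assoc, JJ_mul_self]; simp
    rw [e1, e2] at h6
    exact neg_inj.mp h6
  · rintro ⟨⟨h1, h3⟩, h2⟩
    refine ⟨h1, ?_⟩
    have h4 : Aᵀ * cj A = 1 := by
      rw [cj_eq, ← transpose_mul, h3, transpose_one]
    have h6 : JJ n * (A * JJ n) * JJ n = JJ n * (JJ n * cj A) * JJ n := by rw [h2]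
    have e1 : JJ n * (A * JJ n) * JJ n = - (JJ n * A) := by
      rw [mul_assoc, mul_assoc, JJ_mul_self]; simp
    have e2 : JJ n * (JJ n * cj A) * JJ n = - (cj A * JJ n) := by
      rw [← mul_assoc, JJ_mul_self]; simp
    rw [e1, e2] at h6
    have h7 : JJ n * A = cj A * JJ n := neg_inj.mp h6
    calc Aᵀ * JJ n * A = Aᵀ * (JJ n * A) := mul_assoc _ _ _
      _ = (Aᵀ * cj A) * JJ n := by rw [h7, mul_assoc]
      _ = JJ n := by rw [h4, one_mul]

theorem cj_mul (A B : Matrix (Fin n ⊕ Fin n) (Fin n ⊕ Fin n) ℂ) : cj (A * B) = cj A * cj B := by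
  simp [cj_eq, conjTranspose_mul, transpose_mul]

theorem isSp_mul {A B : Matrix (Fin n ⊕ Fin n) (Fin n ⊕ Fin n) ℂ} (hA : IsSp n A)
    (hB : IsSp n B) : IsSp n (A * B) := by
  rw [isSp_iff] at *
  obtain ⟨⟨a1, a2⟩, a3⟩ := hA
  obtain ⟨⟨b1, b2⟩, b3⟩ := hB
  refine ⟨⟨?_, ?_⟩, ?_⟩
  · rw [conjTranspose_mul]
    calc A * B * (Bᴴ * Aᴴ) = A * (B * Bᴴ) * Aᴴ := by simp only [mul_assoc]
      _ = 1 := by rw [b1, mul_one, a1]
  · rw [conjTranspose_mul]
    calc Bᴴ * Aᴴ * (A * B) = Bᴴ * (Aᴴ * A) * B := by simp only [mul_assoc]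
      _ = 1 := by rw [a2, mul_one, b2]
  · rw [cj_mul, mul_assoc, b3, ← mul_assoc, a3, mul_assoc]

theorem isSp_conjTranspose {A : Matrix (Fin n ⊕ Fin n) (Fin n ⊕ Fin n) ℂ} (hA : IsSp n A) :
    IsSp n Aᴴ := by
  rw [isSp_iff] at *
  obtain ⟨⟨a1, a2⟩, a3⟩ := hA
  refine ⟨⟨by simpa using a2, by simpa using a1⟩, ?_⟩
  have h1 : cj Aᴴ = Aᵀ := by ext i j; simp [cj]
  rw [h1]
  have h4 : cj A * Aᵀ = 1 := by
    rw [cj_eq, ← transpose_mul, a1, transpose_one]
  calc Aᴴ * JJ n = Aᴴ * (JJ n * (cj A * Aᵀ)) := by rw [h4, mul_one]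
    _ = Aᴴ * (A * JJ n) * Aᵀ := by rw [a3]; simp only [mul_assoc]
    _ = (Aᴴ * A) * JJ n * Aᵀ := by simp only [mul_assoc]
    _ = JJ n * Aᵀ := by rw [a2, one_mul]

theorem comm_jj {A : Matrix (Fin n ⊕ Fin n) (Fin n ⊕ Fin n) ℂ} (hA : IsSp n A) (v : V n) :
    A *ᵥ jj v = jj (A *ᵥ v) := by
  rw [isSp_iff] at hA
  have h := hA.2
  have h1 : jj v = - (JJ n *ᵥ star v) := by rw [jj_eq, neg_neg]
  have h2 : jj (A *ᵥ v) = - (JJ n *ᵥ star (A *ᵥ v)) := by rw [jj_eq, neg_neg]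
  rw [h1, h2, mulVec_neg, mulVec_mulVec, h]
  have h3 : star (A *ᵥ v) = cj A *ᵥ star v := by
    funext x
    simp [cj, mulVec, dotProduct]
  rw [h3, mulVec_mulVec]

end Pool.Agent.H16.Spn
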