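import Pool.Agent.H16.Spn1

/-! Eigenvector families for the compact symplectic group. -/

namespace Pool.Agent.H16.Spn

open Matrix

variable {n : ℕ}

/-- A family of eigenvectors, orthonormal together with its `jj`-images. -/
structure Fam (A : Matrix (Fin n ⊕ Fin n) (Fin n ⊕ Fin n) ℂ) (k : ℕ)
    (v : Fin k → V n) (z : Fin k → ℂ) : Prop where
  eig : ∀ i, A *ᵥ v i = z i • v i
  on : ∀ i j, ip (v i) (v j) = if i = j then 1 else 0
  sk : ∀ i j, ip (jj (v i)) (v j) = 0

theorem adj {A : Matrix (Fin n ⊕ Fin n) (Fin n ⊕ Fin n) ℂ} (v w : V n) :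
    ip v (A *ᵥ w) = ip (Aᴴ *ᵥ v) w := by
  unfold ip
  rw [star_mulVec, conjTranspose_conjTranspose, dotProduct_mulVec]

theorem ip_self_re (v : V n) : ip v v = ((∑ x, ‖v x‖ ^ 2 : ℝ) : ℂ) := by
  unfold ip
  simp only [dotProduct, Pi.star_apply]
  push_cast
  refine Finset.sum_congr rfl (fun x _ => ?_)
  have := Complex.conj_mul' (v x)
  simpa using this

theorem ip_self_pos {v : V n} (hv : v ≠ 0) : ∃ r : ℝ, 0 < r ∧ ip v v = (r : ℂ) := by
  refine ⟨∑ x, ‖v x‖ ^ 2, ?_, ip_self_re v⟩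
  obtain ⟨x, hx⟩ : ∃ x, v x ≠ 0 := by
    by_contra h
    push Not at h
    exact hv (funext h)
  apply Finset.sum_pos' (fun _ _ => by positivity)
  exact ⟨x, Finset.mem_univ _, by positivity⟩

theorem norm_one {A : Matrix (Fin n ⊕ Fin n) (Fin n ⊕ Fin n) ℂ} (hA : IsSp n A) {v : V n}
    (hv : v ≠ 0) {z : ℂ} (h : A *ᵥ v = z • v) : star z * z = 1 := by
  rw [isSp_iff] at hA
  have h1 : ip (A *ᵥ v) (A *ᵥ v) = ip v v := by
    rw [adj, mulVec_mulVec, hA.1.2, one_mulVec]
  rw [h, ip_smul_left, ip_smul_right] at h1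
  obtain ⟨r, hr, hr2⟩ := ip_self_pos hv
  have : ip v v ≠ 0 := by rw [hr2]; exact_mod_cast hr.ne'
  have h2 : (star z * z - 1) * ip v v = 0 := by linear_combination h1
  rcases mul_eq_zero.mp h2 with h3 | h3
  · linear_combination h3
  · exact absurd h3 this

theorem eig_adj {A : Matrix (Fin n ⊕ Fin n) (Fin n ⊕ Fin n) ℂ} (hA : IsSp n A) {v : V n}
    {z : ℂ} (hz : star z * z = 1) (h : A *ᵥ v = z • v) : Aᴴ *ᵥ v = star z • v := by
  rw [isSp_iff] at hA
  have h1 : Aᴴ *ᵥ (A *ᵥ v) = v := by rw [mulVec_mulVec, hA.1.2, one_mulVec]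
  rw [h, mulVec_smul] at h1
  calc Aᴴ *ᵥ v = (star z * z) • (Aᴴ *ᵥ v) := by rw [hz, one_smul]
    _ = star z • (z • (Aᴴ *ᵥ v)) := by rw [mul_smul]
    _ = star z • v := by rw [h1]

theorem eig_jj {A : Matrix (Fin n ⊕ Fin n) (Fin n ⊕ Fin n) ℂ} (hA : IsSp n A) {v : V n}
    {z : ℂ} (h : A *ᵥ v = z • v) : A *ᵥ (jj v) = star z • jj v := by
  rw [comm_jj hA, h, jj_smul]

theorem normalize {v : V n} (hv : v ≠ 0) : ∃ c : ℂ, c ≠ 0 ∧ ip (c • v) (c • v) = 1 := by
  obtain ⟨r, hr, hr2⟩ := ip_self_pos hv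
  refine ⟨((Real.sqrt r)⁻¹ : ℝ), ?_, ?_⟩
  · have : 0 < (Real.sqrt r)⁻¹ := inv_pos.mpr (Real.sqrt_pos.mpr hr)
    exact_mod_cast this.ne'
  · rw [ip_smul_left, ip_smul_right, hr2]
    have h1 : Real.sqrt r * Real.sqrt r = r := Real.mul_self_sqrt hr.le
    have h2 : Real.sqrt r ≠ 0 := (Real.sqrt_pos.mpr hr).ne'
    have h3 : (Real.sqrt r)⁻¹ * ((Real.sqrt r)⁻¹ * r) = 1 := by
      field_simp
      nlinarith [h1]
    have h4 : star (((Real.sqrt r)⁻¹ : ℝ) : ℂ) = (((Real.sqrt r)⁻¹ : ℝ) : ℂ) := by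
      simp
    rw [h4]
    exact_mod_cast h3

/-- The linear map whose kernel is the orthogonal complement of the family. -/
def cmap {k : ℕ} (v : Fin k → V n) : V n →ₗ[ℂ] (Fin k ⊕ Fin k → ℂ) where
  toFun x := fun y => match y with
    | Sum.inl i => ip (v i) x
    | Sum.inr i => ip (jj (v i)) x
  map_add' a b := by
    funext y; rcases y with i | i <;> simp [ip_add_right]
  map_smul' t a := by
    funext y; rcases y with i | i <;> simp [ip_smul_right]

theorem cmap_zero_iff {k : ℕ} (v : Fin k → V n) (x : V n) :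
    x ∈ LinearMap.ker (cmap v) ↔ (∀ i, ip (v i) x = 0) ∧ (∀ i, ip (jj (v i)) x = 0) := by
  rw [LinearMap.mem_ker]
  constructor
  · intro h
    exact ⟨fun i => congrFun h (Sum.inl i), fun i => congrFun h (Sum.inr i)⟩
  · rintro ⟨h1, h2⟩
    funext y
    rcases y with i | i
    · exact h1 i
    · exact h2 i

theorem exists_next {A : Matrix (Fin n ⊕ Fin n) (Fin n ⊕ Fin n) ℂ} (hA : IsSp n A) {k : ℕ}
    (hk : k < n) {v : Fin k → V n} {z : Fin k → ℂ} (hF : Fam A k v z) :
    ∃ (x : V n) (c : ℂ), A *ᵥ x = c • x ∧ ip x x = 1 ∧ (∀ i, ip (v i) x = 0) ∧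
      (∀ i, ip (jj (v i)) x = 0) := by
  set W := LinearMap.ker (cmap v) with hW
  have hne : W ≠ ⊥ := by
    apply LinearMap.ker_ne_bot_of_finrank_lt
    simp only [Module.finrank_fintype_fun_eq_card, Fintype.card_sum, Fintype.card_fin]
    omega
  have hvne : ∀ i, v i ≠ 0 := by
    intro i h0
    have := hF.on i i
    rw [h0] at this
    simp [ip] at this
  have hz : ∀ i, star (z i) * z i = 1 := fun i => norm_one hA (hvne i) (hF.eig i)
  have hinv : ∀ x ∈ W, A.mulVecLin x ∈ W := by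
    intro x hx
    rw [hW, cmap_zero_iff] at hx ⊢
    refine ⟨fun i => ?_, fun i => ?_⟩
    · rw [mulVecLin_apply, adj, eig_adj hA (hz i) (hF.eig i), ip_smul_left, hx.1 i, mul_zero]
    · have hz2 : star (star (z i)) * star (z i) = 1 := by
        rw [star_star, mul_comm]; exact hz i
      rw [mulVecLin_apply, adj, eig_adj hA hz2 (eig_jj hA (hF.eig i)), ip_smul_left, hx.2 i,
        mul_zero]
  have : Nontrivial W := Submodule.nontrivial_iff_ne_bot.mpr hne
  obtain ⟨c, hc⟩ := Module.End.exists_eigenvalue (A.mulVecLin.restrict hinv)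
  obtain ⟨w, hw⟩ := hc.exists_hasEigenvector
  have hw1 : (A.mulVecLin.restrict hinv) w = c • w := hw.apply_eq_smul
  have hw0 : (w : V n) ≠ 0 := by
    intro h
    exact hw.2 (Subtype.ext h)
  have hw2 : A *ᵥ (w : V n) = c • (w : V n) := by
    have := congrArg Subtype.val hw1
    simpa using this
  obtain ⟨t, ht, ht2⟩ := normalize hw0
  have hmem := (cmap_zero_iff v w).mp w.2
  refine ⟨t • (w : V n), c, ?_, ht2, ?_, ?_⟩
  · rw [mulVec_smul, hw2, smul_comm]
  · intro i
    rw [ip_smul_right, hmem.1 i, mul_zero]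
  · intro i
    rw [ip_smul_right, hmem.2 i, mul_zero]

theorem fam_cons {A : Matrix (Fin n ⊕ Fin n) (Fin n ⊕ Fin n) ℂ} {k : ℕ}
    {v : Fin k → V n} {z : Fin k → ℂ} (hF : Fam A k v z) {x : V n} {c : ℂ}
    (h1 : A *ᵥ x = c • x) (h2 : ip x x = 1) (h3 : ∀ i, ip (v i) x = 0)
    (h4 : ∀ i, ip (jj (v i)) x = 0) :
    Fam A (k + 1) (Fin.cons x v : Fin (k + 1) → V n) (Fin.cons c z : Fin (k + 1) → ℂ) where
  eig := by
    intro i
    refine Fin.cases ?_ (fun i => ?_) i
    · simpa using h1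
    · simpa using hF.eig i
  on := by
    intro i j
    refine Fin.cases ?_ (fun i => ?_) i <;> refine Fin.cases ?_ (fun j => ?_) j
    · simpa using h2
    · have := ip_star (v j) x
      rw [h3 j, star_zero] at this
      simp only [Fin.cons_zero, Fin.cons_succ, ← this]
      rw [if_neg (Fin.succ_ne_zero j).symm]
    · simp only [Fin.cons_zero, Fin.cons_succ, h3 i]
      rw [if_neg (Fin.succ_ne_zero i)]
    · simp only [Fin.cons_succ, hF.on i j, Fin.succ_inj]
  sk := by
    intro i j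
    refine Fin.cases ?_ (fun i => ?_) i <;> refine Fin.cases ?_ (fun j => ?_) j
    · simpa using ip_jj_self x
    · simp only [Fin.cons_zero, Fin.cons_succ]
      rw [ip_jj_swap, h4 j, neg_zero]
    · simpa using h4 i
    · simpa using hF.sk i j

/-- Families of every size between `1` and `n` ending in a given unit eigenvector. -/
theorem exists_fam {A : Matrix (Fin n ⊕ Fin n) (Fin n ⊕ Fin n) ℂ} (hA : IsSp n A)
    {x0 : V n} {c0 : ℂ} (h0 : A *ᵥ x0 = c0 • x0) (h1 : ip x0 x0 = 1) :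
    ∀ k, k + 1 ≤ n → ∃ (v : Fin (k + 1) → V n) (z : Fin (k + 1) → ℂ), Fam A (k + 1) v z ∧
      z (Fin.last k) = c0 := by
  intro k
  induction k with
  | zero =>
    intro _
    refine ⟨fun _ => x0, fun _ => c0, ⟨fun _ => h0, ?_, fun _ _ => ip_jj_self x0⟩, rfl⟩
    intro i j
    have hij : i = j := Fin.ext (by omega)
    rw [if_pos hij]; exact h1
  | succ k ih =>
    intro hk
    obtain ⟨v, z, hF, hl⟩ := ih (by omega)
    obtain ⟨x, c, e1, e2, e3, e4⟩ := exists_next hA (by omega) hF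
    refine ⟨Fin.cons x v, Fin.cons c z, fam_cons hF e1 e2 e3 e4, ?_⟩
    have : Fin.last (k + 1) = Fin.succ (Fin.last k) := by simp
    rw [this, Fin.cons_succ, hl]

/-- The matrix of a full family. -/
def PM (v : Fin n → V n) : Matrix (Fin n ⊕ Fin n) (Fin n ⊕ Fin n) ℂ := fun x y => match y with
  | Sum.inl i => v i x
  | Sum.inr i => jj (v i) x

/-- The diagonal matrix `diag (z, conj z)`. -/
def DM (z : Fin n → ℂ) : Matrix (Fin n ⊕ Fin n) (Fin n ⊕ Fin n) ℂ :=
  Matrix.diagonal (fun y => match y with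
    | Sum.inl i => z i
    | Sum.inr i => star (z i))

theorem PM_sp {A : Matrix (Fin n ⊕ Fin n) (Fin n ⊕ Fin n) ℂ} {v : Fin n → V n} {z : Fin n → ℂ}
    (hF : Fam A n v z) : IsSp n (PM v) := by
  rw [isSp_iff]
  have h1 : (PM v)ᴴ * PM v = 1 := by
    ext a b
    have key : ((PM v)ᴴ * PM v) a b = ip (fun x => PM v x a) (fun x => PM v x b) := by
      simp [Matrix.mul_apply, ip, dotProduct]
    rw [key]
    rcases a with i | i <;> rcases b with j | j
    · have : ip (fun x => PM v x (Sum.inl i)) (fun x => PM v x (Sum.inl j)) = ip (v i) (v j) := rfl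
      rw [this, hF.on, Matrix.one_apply]
      simp
    · have : ip (fun x => PM v x (Sum.inl i)) (fun x => PM v x (Sum.inr j)) =
        ip (v i) (jj (v j)) := rfl
      rw [this, ← ip_star, hF.sk, Matrix.one_apply]
      simp
    · have : ip (fun x => PM v x (Sum.inr i)) (fun x => PM v x (Sum.inl j)) =
        ip (jj (v i)) (v j) := rfl
      rw [this, hF.sk, Matrix.one_apply]
      simp
    · have : ip (fun x => PM v x (Sum.inr i)) (fun x => PM v x (Sum.inr j)) =
        ip (jj (v i)) (jj (v j)) := rfl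
      rw [this, ip_jj_jj, hF.on, Matrix.one_apply]
      by_cases h : i = j <;> simp [h]
  refine ⟨⟨mul_eq_one_comm.mp h1, h1⟩, ?_⟩
  ext x b
  have key : (JJ n * cj (PM v)) x b = (JJ n *ᵥ star (fun y => PM v y b)) x := by
    simp [Matrix.mul_apply, mulVec, dotProduct, cj]
  rw [key, jj_eq]
  rcases b with j | j
  · have : (PM v * JJ n) x (Sum.inl j) = - PM v x (Sum.inr j) := by
      simp [Matrix.mul_apply, Fintype.sum_sum_type, JJ, fromBlocks, Matrix.one_apply]
    rw [this]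
    rfl
  · have : (PM v * JJ n) x (Sum.inr j) = PM v x (Sum.inl j) := by
      simp [Matrix.mul_apply, Fintype.sum_sum_type, JJ, fromBlocks, Matrix.one_apply]
    rw [this]
    have h2 : jj (fun y => PM v y (Sum.inr j)) = - v j := by
      have : (fun y => PM v y (Sum.inr j)) = jj (v j) := rfl
      rw [this, jj_jj]
    rw [h2]
    simp [PM]

theorem A_PM {A : Matrix (Fin n ⊕ Fin n) (Fin n ⊕ Fin n) ℂ} (hA : IsSp n A)
    {v : Fin n → V n} {z : Fin n → ℂ}
    (hF : Fam A n v z) : A * PM v = PM v * DM z := by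
  ext x b
  rw [DM, Matrix.mul_diagonal]
  have key : (A * PM v) x b = (A *ᵥ (fun y => PM v y b)) x := by
    simp [Matrix.mul_apply, mulVec, dotProduct]
  rw [key]
  rcases b with j | j
  · have : (fun y => PM v y (Sum.inl j)) = v j := rfl
    rw [this, hF.eig]
    simp [PM, mul_comm]
  · have : (fun y => PM v y (Sum.inr j)) = jj (v j) := rfl
    rw [this, eig_jj hA (hF.eig j)]
    simp [PM, mul_comm]

end Pool.Agent.H16.Spn
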