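import Pool.Agent.H16.Spn2

/-! Involutions: monomial ones and reflections. -/

namespace Pool.Agent.H16.Spn

open Matrix

variable {n : ℕ}

/-- Monomial matrices. -/
def mono (σ : Fin n ⊕ Fin n → Fin n ⊕ Fin n) (c : Fin n ⊕ Fin n → ℂ) :
    Matrix (Fin n ⊕ Fin n) (Fin n ⊕ Fin n) ℂ := fun x y => if x = σ y then c y else 0

theorem mono_mul (σ τ : Fin n ⊕ Fin n → Fin n ⊕ Fin n) (c d : Fin n ⊕ Fin n → ℂ) :
    mono σ c * mono τ d = mono (fun y => σ (τ y)) (fun y => c (τ y) * d y) := by
  ext x y
  simp only [Matrix.mul_apply, mono]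
  rw [Finset.sum_eq_single (τ y)]
  · simp
  · intro b _ hb
    simp [hb]
  · intro h
    exact absurd (Finset.mem_univ _) h

/-- swap of the two summands -/
def sw : Fin n ⊕ Fin n → Fin n ⊕ Fin n
  | Sum.inl i => Sum.inr i
  | Sum.inr i => Sum.inl i

/-- sign of the two summands -/
def sg : Fin n ⊕ Fin n → ℂ
  | Sum.inl _ => -1
  | Sum.inr _ => 1

theorem JJ_mono : JJ n = mono sw sg := by
  ext x y; rcases x with i | i <;> rcases y with j | j <;>
    simp [mono, sw, sg, JJ, fromBlocks, Matrix.one_apply] <;> split_ifs <;> simp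

theorem cj_mono (σ : Fin n ⊕ Fin n → Fin n ⊕ Fin n) (c : Fin n ⊕ Fin n → ℂ) :
    cj (mono σ c) = mono σ (fun y => star (c y)) := by
  ext x y
  simp only [cj, Matrix.map_apply, mono]
  split_ifs <;> simp

/-- Being an involution of the compact symplectic group. -/
def IsInv (n : ℕ) (A : Matrix (Fin n ⊕ Fin n) (Fin n ⊕ Fin n) ℂ) : Prop :=
  IsSp n A ∧ A * A = 1

theorem isInv_of {A : Matrix (Fin n ⊕ Fin n) (Fin n ⊕ Fin n) ℂ} (h1 : A * A = 1) (h2 : Aᴴ = A)
    (h3 : A * JJ n = JJ n * cj A) : IsInv n A := by
  refine ⟨?_, h1⟩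
  rw [isSp_iff]
  exact ⟨⟨by rw [h2, h1], by rw [h2, h1]⟩, h3⟩

theorem mono_id_one : (mono (fun y => y) (fun _ => 1) :
    Matrix (Fin n ⊕ Fin n) (Fin n ⊕ Fin n) ℂ) = 1 := by
  ext x y
  simp [mono, Matrix.one_apply]

theorem mono_isInv {σ : Fin n ⊕ Fin n → Fin n ⊕ Fin n} {c : Fin n ⊕ Fin n → ℂ}
    (h1 : ∀ y, σ (σ y) = y) (h2 : ∀ y, c (σ y) * c y = 1) (h3 : ∀ y, star (c (σ y)) = c y)
    (h4 : ∀ y, σ (sw y) = sw (σ y)) (h5 : ∀ y, c (sw y) * sg y = sg (σ y) * star (c y)) :
    IsInv n (mono σ c) := by
  apply isInv_of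
  · rw [mono_mul]
    simp only [h1, h2]
    exact mono_id_one
  · ext x y
    simp only [Matrix.conjTranspose_apply, mono]
    by_cases h : x = σ y
    · have h' : y = σ x := by rw [h, h1]
      rw [if_pos h, if_pos h', ← h3 y, h]
    · have h' : ¬ y = σ x := by
        intro h'; exact h (by rw [h', h1])
      rw [if_neg h, if_neg h', star_zero]
  · rw [JJ_mono, cj_mono, mono_mul, mono_mul]
    simp only [h4, h5]

/-- The pairing of indices. -/
structure Pairing (n : ℕ) where
  τ : Fin n → Fin n
  ε : Fin n → ℂ
  inv : ∀ i, τ (τ i) = i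
  ep : ∀ i, ε i = 1 ∨ ε i = -1
  op : ∀ i, τ i ≠ i → ε (τ i) = - ε i
  fixd : ∀ i, τ i = i → Odd n ∧ (i : ℕ) + 1 = n

/-- The pairing `0-1, 2-3, ...`. -/
def stdPairing (n : ℕ) : Pairing n where
  τ i := if h : (i : ℕ) % 2 = 0 then (if h' : (i : ℕ) + 1 < n then ⟨(i : ℕ) + 1, h'⟩ else i)
    else ⟨(i : ℕ) - 1, by omega⟩
  ε i := if (i : ℕ) % 2 = 0 then 1 else -1
  inv := by
    intro i
    by_cases h : (i : ℕ) % 2 = 0
    · by_cases h' : (i : ℕ) + 1 < n
      · have h2 : ¬ ((i : ℕ) + 1) % 2 = 0 := by omega
        simp only [h, h', dif_pos, h2, dif_neg, not_false_eq_true]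
        apply Fin.ext; simp
      · simp only [h, h', dif_pos, dif_neg, not_false_eq_true]
    · have h2 : ((i : ℕ) - 1) % 2 = 0 := by omega
      have h3 : ((i : ℕ) - 1) + 1 < n := by omega
      simp only [h, h2, h3, dif_pos, dif_neg, not_false_eq_true]
      apply Fin.ext; simp; omega
  ep := by
    intro i
    by_cases h : (i : ℕ) % 2 = 0
    · left; rw [if_pos h]
    · right; rw [if_neg h]
  op := by
    intro i hi
    by_cases h : (i : ℕ) % 2 = 0
    · by_cases h' : (i : ℕ) + 1 < n
      · have h2 : ¬ ((i : ℕ) + 1) % 2 = 0 := by omega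
        simp only [h, h', dif_pos, if_true, h2, if_false]
      · exfalso; apply hi
        simp only [h, h', dif_pos, dif_neg, not_false_eq_true]
    · have h2 : ((i : ℕ) - 1) % 2 = 0 := by omega
      simp only [h, dif_neg, not_false_eq_true, h2, if_true, if_false, neg_neg]
  fixd := by
    intro i hi
    by_cases h : (i : ℕ) % 2 = 0
    · by_cases h' : (i : ℕ) + 1 < n
      · exfalso
        simp only [h, h', dif_pos] at hi
        have := congrArg Fin.val hi
        simp at this
      · have h3 : (i : ℕ) + 1 = n := by omega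
        refine ⟨?_, h3⟩
        rw [Nat.odd_iff]; omega
    · exfalso
      simp only [h, dif_neg, not_false_eq_true] at hi
      have := congrArg Fin.val hi
      simp at this
      omega

theorem diag_four (P : Pairing n) (z : Fin n → ℂ) (hz : ∀ i, star (z i) * z i = 1)
    (hf : ∀ i, P.τ i = i → z i = 1) :
    ∃ I1 I2 I3 I4, IsInv n I1 ∧ IsInv n I2 ∧ IsInv n I3 ∧ IsInv n I4 ∧
      DM z = I1 * I2 * I3 * I4 := by
  classical
  -- the square roots
  set w : Fin n → ℂ := fun i => (z i * z (P.τ i)) ^ ((1 : ℂ) / 2) with hw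
  have hz0 : ∀ i, z i ≠ 0 := by
    intro i h; have := hz i; rw [h] at this; simp at this
  have hww : ∀ i, w i * w i = z i * z (P.τ i) := by
    intro i
    simp only [hw]
    rw [← Complex.cpow_add _ _ (mul_ne_zero (hz0 _) (hz0 _))]
    norm_num
  have hwt : ∀ i, w (P.τ i) = w i := by
    intro i
    simp only [hw, P.inv, mul_comm]
  have hnz : ∀ i, ‖z i‖ = 1 := by
    intro i
    have h1 := hz i
    have h2 : ((‖z i‖ ^ 2 : ℝ) : ℂ) = 1 := by
      rw [← h1]; push_cast; exact (Complex.conj_mul' (z i)).symm
    have h3 : ‖z i‖ ^ 2 = 1 := by exact_mod_cast h2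
    nlinarith [norm_nonneg (z i)]
  have hnw : ∀ i, ‖w i‖ = 1 := by
    intro i
    have h1 : ‖w i‖ * ‖w i‖ = 1 := by
      rw [← norm_mul, hww, norm_mul, hnz, hnz, mul_one]
    nlinarith [norm_nonneg (w i)]
  have hw1 : ∀ i, star (w i) * w i = 1 := by
    intro i
    have := Complex.conj_mul' (w i)
    rw [hnw] at this
    simpa using this
  have hw0 : ∀ i, w i ≠ 0 := by
    intro i h; have := hw1 i; rw [h] at this; simp at this
  have hwf : ∀ i, P.τ i = i → w i = 1 := by
    intro i hi
    simp only [hw, hi, hf i hi, mul_one, Complex.one_cpow]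
  -- u = z / w
  set u : Fin n → ℂ := fun i => z i * star (w i) with hu
  have hu1 : ∀ i, star (u i) * u i = 1 := by
    intro i
    simp only [hu, star_mul', star_star]
    calc star (z i) * w i * (z i * star (w i)) = (star (z i) * z i) * (star (w i) * w i) := by ring
      _ = 1 := by rw [hz, hw1, mul_one]
  have huw : ∀ i, u i * w i = z i := by
    intro i
    simp only [hu]
    calc z i * star (w i) * w i = z i * (star (w i) * w i) := by ring
      _ = z i := by rw [hw1, mul_one]
  have hut : ∀ i, u (P.τ i) = star (u i) := by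
    intro i
    simp only [hu, star_mul', star_star, hwt]
    -- z τ * conj w = conj z * w
    have h1 := hww i
    calc z (P.τ i) * star (w i) = (star (z i) * z i) * z (P.τ i) * star (w i) := by
          rw [hz, one_mul]
      _ = star (z i) * (z i * z (P.τ i)) * star (w i) := by ring
      _ = star (z i) * (w i * w i) * star (w i) := by rw [h1]
      _ = star (z i) * w i * (star (w i) * w i) := by ring
      _ = star (z i) * w i := by rw [hw1, mul_one]
  have huf : ∀ i, P.τ i = i → u i = 1 := by
    intro i hi
    simp only [hu, hf i hi, hwf i hi]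
    simp
  have hee : ∀ i, P.ε i * P.ε i = 1 := by
    intro i; rcases P.ep i with h | h <;> rw [h] <;> norm_num
  have hes : ∀ i, star (P.ε i) = P.ε i := by
    intro i; rcases P.ep i with h | h <;> rw [h] <;> simp
  -- the permutations
  set s1 : Fin n ⊕ Fin n → Fin n ⊕ Fin n := fun y => match y with
    | Sum.inl i => Sum.inl (P.τ i)
    | Sum.inr i => Sum.inr (P.τ i) with hs1
  set s3 : Fin n ⊕ Fin n → Fin n ⊕ Fin n := fun y => match y with
    | Sum.inl i => if P.τ i = i then Sum.inl i else Sum.inr (P.τ i)
    | Sum.inr i => if P.τ i = i then Sum.inr i else Sum.inl (P.τ i) with hs3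
  set c1 : Fin n ⊕ Fin n → ℂ := fun y => match y with
    | Sum.inl i => star (u i)
    | Sum.inr i => u i with hc1
  set c3 : Fin n ⊕ Fin n → ℂ := fun y => match y with
    | Sum.inl i => if P.τ i = i then 1 else P.ε i * star (w i)
    | Sum.inr i => if P.τ i = i then 1 else P.ε (P.τ i) * w i with hc3
  set c4 : Fin n ⊕ Fin n → ℂ := fun y => match y with
    | Sum.inl i => if P.τ i = i then 1 else P.ε i
    | Sum.inr i => if P.τ i = i then 1 else P.ε (P.τ i) with hc4
  have htt : ∀ i, P.τ i = i ↔ P.τ (P.τ i) = P.τ i := by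
    intro i
    constructor
    · intro h; rw [h, h]
    · intro h; rw [P.inv] at h; exact h.symm
  have b1 : IsInv n (mono s1 c1) := by
    apply mono_isInv
    · rintro (i | i) <;> simp [hs1, P.inv]
    · rintro (i | i)
      · simp only [hs1, hc1, hut, star_star]; rw [mul_comm]; exact hu1 i
      · simp only [hs1, hc1, hut]; exact hu1 i
    · rintro (i | i)
      · simp only [hs1, hc1, hut, star_star]
      · simp only [hs1, hc1, hut, star_star]
    · rintro (i | i) <;> simp [hs1, sw]
    · rintro (i | i) <;> simp [hs1, hc1, sw, sg]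
  have b2 : IsInv n (mono s1 (fun _ => 1)) := by
    apply mono_isInv
    · rintro (i | i) <;> simp [hs1, P.inv]
    · rintro (i | i) <;> simp
    · rintro (i | i) <;> simp
    · rintro (i | i) <;> simp [hs1, sw]
    · rintro (i | i) <;> simp [hs1, sg]
  have b3 : IsInv n (mono s3 c3) := by
    apply mono_isInv
    · rintro (i | i)
      · by_cases h : P.τ i = i
        · simp [hs3, h]
        · have h' : ¬ P.τ (P.τ i) = P.τ i := fun q => h ((htt i).mpr q)
          have h'' : ¬ i = P.τ i := fun q => h q.symm
          simp only [hs3, h, if_false, h', h'', P.inv]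
      · by_cases h : P.τ i = i
        · simp [hs3, h]
        · have h' : ¬ P.τ (P.τ i) = P.τ i := fun q => h ((htt i).mpr q)
          have h'' : ¬ i = P.τ i := fun q => h q.symm
          simp only [hs3, h, if_false, h', h'', P.inv]
    · rintro (i | i)
      · by_cases h : P.τ i = i
        · simp [hs3, hc3, h]
        · have h' : ¬ P.τ (P.τ i) = P.τ i := fun q => h ((htt i).mpr q)
          have h'' : ¬ i = P.τ i := fun q => h q.symm
          simp only [hs3, hc3, h, if_false, h', h'', P.inv, hwt]
          calc P.ε i * w i * (P.ε i * star (w i)) = (P.ε i * P.ε i) * (star (w i) * w i) := by ring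
            _ = 1 := by rw [hee, hw1, mul_one]
      · by_cases h : P.τ i = i
        · simp [hs3, hc3, h]
        · have h' : ¬ P.τ (P.τ i) = P.τ i := fun q => h ((htt i).mpr q)
          have h'' : ¬ i = P.τ i := fun q => h q.symm
          simp only [hs3, hc3, h, if_false, h', h'', hwt]
          calc P.ε (P.τ i) * star (w i) * (P.ε (P.τ i) * w i) =
              (P.ε (P.τ i) * P.ε (P.τ i)) * (star (w i) * w i) := by ring
            _ = 1 := by rw [hee, hw1, mul_one]
    · rintro (i | i)
      · by_cases h : P.τ i = i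
        · simp [hs3, hc3, h]
        · have h' : ¬ P.τ (P.τ i) = P.τ i := fun q => h ((htt i).mpr q)
          have h'' : ¬ i = P.τ i := fun q => h q.symm
          simp only [hs3, hc3, h, if_false, h', h'', P.inv, hwt, star_mul', hes]
      · by_cases h : P.τ i = i
        · simp [hs3, hc3, h]
        · have h' : ¬ P.τ (P.τ i) = P.τ i := fun q => h ((htt i).mpr q)
          have h'' : ¬ i = P.τ i := fun q => h q.symm
          simp only [hs3, hc3, h, if_false, h', h'', hwt, star_mul', hes, star_star]
    · rintro (i | i)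
      · by_cases h : P.τ i = i
        · simp [hs3, h, sw]
        · simp [hs3, h, sw]
      · by_cases h : P.τ i = i
        · simp [hs3, h, sw]
        · simp [hs3, h, sw]
    · rintro (i | i)
      · by_cases h : P.τ i = i
        · simp [hs3, hc3, h, sw, sg]
        · simp only [hs3, hc3, h, sw, sg, if_false, P.op i h, star_mul', hes, star_star]
          ring
      · by_cases h : P.τ i = i
        · simp [hs3, hc3, h, sw, sg]
        · simp only [hs3, hc3, h, sw, sg, if_false, P.op i h, star_mul', hes, star_neg]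
          ring
  have b4 : IsInv n (mono s3 c4) := by
    apply mono_isInv
    · rintro (i | i)
      · by_cases h : P.τ i = i
        · simp [hs3, h]
        · have h' : ¬ P.τ (P.τ i) = P.τ i := fun q => h ((htt i).mpr q)
          have h'' : ¬ i = P.τ i := fun q => h q.symm
          simp only [hs3, h, if_false, h', h'', P.inv]
      · by_cases h : P.τ i = i
        · simp [hs3, h]
        · have h' : ¬ P.τ (P.τ i) = P.τ i := fun q => h ((htt i).mpr q)
          have h'' : ¬ i = P.τ i := fun q => h q.symm
          simp only [hs3, h, if_false, h', h'', P.inv]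
    · rintro (i | i)
      · by_cases h : P.τ i = i
        · simp [hs3, hc4, h]
        · have h' : ¬ P.τ (P.τ i) = P.τ i := fun q => h ((htt i).mpr q)
          have h'' : ¬ i = P.τ i := fun q => h q.symm
          simp only [hs3, hc4, h, if_false, h', h'', P.inv, hee]
      · by_cases h : P.τ i = i
        · simp [hs3, hc4, h]
        · have h' : ¬ P.τ (P.τ i) = P.τ i := fun q => h ((htt i).mpr q)
          have h'' : ¬ i = P.τ i := fun q => h q.symm
          simp only [hs3, hc4, h, if_false, h', h'', hee]
    · rintro (i | i)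
      · by_cases h : P.τ i = i
        · simp [hs3, hc4, h]
        · have h' : ¬ P.τ (P.τ i) = P.τ i := fun q => h ((htt i).mpr q)
          have h'' : ¬ i = P.τ i := fun q => h q.symm
          simp only [hs3, hc4, h, if_false, h', h'', P.inv, hes]
      · by_cases h : P.τ i = i
        · simp [hs3, hc4, h]
        · have h' : ¬ P.τ (P.τ i) = P.τ i := fun q => h ((htt i).mpr q)
          have h'' : ¬ i = P.τ i := fun q => h q.symm
          simp only [hs3, hc4, h, if_false, h', h'', hes]
    · rintro (i | i)
      · by_cases h : P.τ i = i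
        · simp [hs3, h, sw]
        · simp [hs3, h, sw]
      · by_cases h : P.τ i = i
        · simp [hs3, h, sw]
        · simp [hs3, h, sw]
    · rintro (i | i)
      · by_cases h : P.τ i = i
        · simp [hs3, hc4, h, sw, sg]
        · simp only [hs3, hc4, h, sw, sg, if_false, P.op i h, hes]
          ring
      · by_cases h : P.τ i = i
        · simp [hs3, hc4, h, sw, sg]
        · simp only [hs3, hc4, h, sw, sg, if_false, P.op i h, hes, star_neg]
          ring
  refine ⟨_, _, _, _, b1, b2, b3, b4, ?_⟩
  rw [mono_mul, mono_mul, mono_mul]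
  ext x y
  rw [DM, Matrix.diagonal_apply, mono]
  have hperm : ∀ y, s1 (s1 (s3 (s3 y))) = y := by
    intro y
    have e1 : s3 (s3 y) = y := by
      rcases y with i | i
      · by_cases h : P.τ i = i
        · simp [hs3, h]
        · have h' : ¬ P.τ (P.τ i) = P.τ i := fun q => h ((htt i).mpr q)
          have h'' : ¬ i = P.τ i := fun q => h q.symm
          simp only [hs3, h, if_false, h', h'', P.inv]
      · by_cases h : P.τ i = i
        · simp [hs3, h]
        · have h' : ¬ P.τ (P.τ i) = P.τ i := fun q => h ((htt i).mpr q)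
          have h'' : ¬ i = P.τ i := fun q => h q.symm
          simp only [hs3, h, if_false, h', h'', P.inv]
    rw [e1]
    rcases y with i | i <;> simp [hs1, P.inv]
  have e1 : ∀ y, s3 (s3 y) = y := by
    intro y
    rcases y with i | i
    · by_cases h : P.τ i = i
      · simp [hs3, h]
      · have h' : ¬ P.τ (P.τ i) = P.τ i := fun q => h ((htt i).mpr q)
        have h'' : ¬ i = P.τ i := fun q => h q.symm
        simp only [hs3, h, if_false, h', h'', P.inv]
    · by_cases h : P.τ i = i
      · simp [hs3, h]
      · have h' : ¬ P.τ (P.τ i) = P.τ i := fun q => h ((htt i).mpr q)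
        have h'' : ¬ i = P.τ i := fun q => h q.symm
        simp only [hs3, h, if_false, h', h'', P.inv]
  simp only [hperm]
  by_cases hxy : x = y
  · subst hxy
    rw [if_pos rfl, if_pos rfl, e1]
    rcases x with i | i
    · by_cases h : P.τ i = i
      · simp [hs1, hs3, hc1, hc3, hc4, h, huf i h, hf i h]
      · have h' : ¬ P.τ (P.τ i) = P.τ i := fun q => h ((htt i).mpr q)
        have h'' : ¬ i = P.τ i := fun q => h q.symm
        simp only [hs1, hs3, hc1, hc3, hc4, h, if_false, h', h'', P.inv, hwt, hut, star_star]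
        calc z i = u i * w i := (huw i).symm
          _ = u i * w i * (P.ε i * P.ε i) := by rw [hee, mul_one]
          _ = _ := by ring
    · by_cases h : P.τ i = i
      · simp [hs1, hs3, hc1, hc3, hc4, h, huf i h, hf i h]
      · have h' : ¬ P.τ (P.τ i) = P.τ i := fun q => h ((htt i).mpr q)
        have h'' : ¬ i = P.τ i := fun q => h q.symm
        simp only [hs1, hs3, hc1, hc3, hc4, h, if_false, h', h'', hwt, hut]
        calc star (z i) = star (u i) * star (w i) := by rw [← huw i, star_mul']
          _ = star (u i) * star (w i) * (P.ε (P.τ i) * P.ε (P.τ i)) := by rw [hee, mul_one]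
          _ = _ := by ring
  · rw [if_neg hxy, if_neg hxy]

end Pool.Agent.H16.Spn
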