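import Pool.Agent.H16.Spn3

/-! Reflections and the main argument. -/

namespace Pool.Agent.H16.Spn

open Matrix

variable {n : ℕ}

/-- The quaternionic reflection in `u`. -/
noncomputable def refl (u : V n) (N : ℂ) : Matrix (Fin n ⊕ Fin n) (Fin n ⊕ Fin n) ℂ :=
  1 - (2 / N) • (vecMulVec u (star u) + vecMulVec (jj u) (star (jj u)))

theorem refl_mulVec (u : V n) (N : ℂ) (x : V n) :
    refl u N *ᵥ x = x - (2 / N) • (ip u x • u + ip (jj u) x • jj u) := by
  unfold refl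
  rw [sub_mulVec, one_mulVec, smul_mulVec, add_mulVec]
  congr 2
  congr 1
  · funext y
    simp only [mulVec, dotProduct, vecMulVec_apply, ip, Pi.smul_apply, smul_eq_mul, Finset.sum_mul]
    exact Finset.sum_congr rfl (fun i _ => by ring)
  · funext y
    simp only [mulVec, dotProduct, vecMulVec_apply, ip, Pi.smul_apply, smul_eq_mul, Finset.sum_mul]
    exact Finset.sum_congr rfl (fun i _ => by ring)

theorem mat_ext {A B : Matrix (Fin n ⊕ Fin n) (Fin n ⊕ Fin n) ℂ}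
    (h : ∀ x : V n, A *ᵥ x = B *ᵥ x) : A = B := by
  ext i j
  have := congrFun (h (Pi.single j 1)) i
  simpa using this

theorem mat_ext_star {A B : Matrix (Fin n ⊕ Fin n) (Fin n ⊕ Fin n) ℂ}
    (h : ∀ x : V n, A *ᵥ star x = B *ᵥ star x) : A = B := by
  apply mat_ext
  intro x
  have := h (star x)
  simpa using this

theorem refl_isInv {u : V n} {r : ℝ} (hr : 0 < r) (hu : ip u u = (r : ℂ)) :
    IsInv n (refl u r) := by
  have hr0 : (r : ℂ) ≠ 0 := by exact_mod_cast hr.ne'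
  have hjj : ip (jj u) (jj u) = (r : ℂ) := by
    rw [ip_jj_jj, hu]; simp
  have h0 : ip (jj u) u = 0 := ip_jj_self u
  have h0' : ip u (jj u) = 0 := ip_jj_self' u
  apply isInv_of
  · apply mat_ext
    intro x
    rw [← mulVec_mulVec, one_mulVec, refl_mulVec, refl_mulVec]
    simp only [ip_sub_right, ip_smul_right, ip_add_right, hu, hjj, h0, h0']
    funext y
    simp only [Pi.sub_apply, Pi.smul_apply, Pi.add_apply, smul_eq_mul]
    field_simp
    ring
  · unfold refl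
    rw [conjTranspose_sub, conjTranspose_one, conjTranspose_smul, conjTranspose_add]
    congr 2
    · simp
    · congr 1
      · ext i j; simp [vecMulVec_apply, mul_comm]
      · ext i j; simp [vecMulVec_apply, mul_comm]
  · apply mat_ext_star
    intro x
    rw [← mulVec_mulVec, ← mulVec_mulVec, jj_eq]
    have h3 : cj (refl u r) *ᵥ star x = star (refl u r *ᵥ x) := by
      funext y
      simp [cj, mulVec, dotProduct]
    rw [h3, jj_eq, mulVec_neg, neg_inj, refl_mulVec, refl_mulVec, jj_sub, jj_smul, jj_add,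
      jj_smul, jj_smul, jj_jj, ip_jj_jj]
    have h4 : star ((2 : ℂ) / (r : ℂ)) = 2 / r := by simp
    have h5 : star (ip (jj u) x) = - ip u (jj x) := by
      have e1 := ip_jj_jj (jj u) x
      rw [jj_jj] at e1
      have e2 : ip (-u) (jj x) = - ip u (jj x) := by
        simp [ip]
      rw [e2] at e1
      exact e1.symm
    rw [h4, h5]
    funext y
    simp only [Pi.sub_apply, Pi.smul_apply, Pi.add_apply, Pi.neg_apply, smul_eq_mul]
    ring

theorem isInv_one : IsInv n (1 : Matrix (Fin n ⊕ Fin n) (Fin n ⊕ Fin n) ℂ) := by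
  apply isInv_of
  · simp
  · simp
  · simp [cj_eq]

theorem isInv_conj {P I : Matrix (Fin n ⊕ Fin n) (Fin n ⊕ Fin n) ℂ} (hP : IsSp n P)
    (hI : IsInv n I) : IsInv n (P * I * Pᴴ) := by
  have h1 := (isSp_iff P).mp hP
  refine ⟨isSp_mul (isSp_mul hP hI.1) (isSp_conjTranspose hP), ?_⟩
  calc P * I * Pᴴ * (P * I * Pᴴ) = P * I * (Pᴴ * P) * I * Pᴴ := by simp only [mul_assoc]
    _ = P * (I * I) * Pᴴ := by rw [h1.1.2]; simp only [mul_assoc, one_mul]
    _ = 1 := by rw [hI.2, mul_one, h1.1.1]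

/-- Four involutions suffice when the leftover eigenvalue is one. -/
theorem four_of_fam {A : Matrix (Fin n ⊕ Fin n) (Fin n ⊕ Fin n) ℂ} (hA : IsSp n A)
    {v : Fin n → V n} {z : Fin n → ℂ} (hF : Fam A n v z)
    (hlast : ∀ i : Fin n, Odd n → (i : ℕ) + 1 = n → z i = 1) :
    ∃ I1 I2 I3 I4, IsInv n I1 ∧ IsInv n I2 ∧ IsInv n I3 ∧ IsInv n I4 ∧
      A = I1 * I2 * I3 * I4 := by
  have hz : ∀ i, star (z i) * z i = 1 := by
    intro i
    apply norm_one hA _ (hF.eig i)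
    intro h0
    have := hF.on i i
    rw [h0] at this
    simp [ip] at this
  obtain ⟨I1, I2, I3, I4, h1, h2, h3, h4, h5⟩ := diag_four (stdPairing n) z hz (by
    intro i hi
    obtain ⟨ho, hi2⟩ := (stdPairing n).fixd i hi
    exact hlast i ho hi2)
  have hP := PM_sp hF
  have hP' := (isSp_iff _).mp hP
  refine ⟨_, _, _, _, isInv_conj hP h1, isInv_conj hP h2, isInv_conj hP h3, isInv_conj hP h4, ?_⟩
  have hAP := A_PM hA hF
  set P := PM v with hPdef
  calc A = A * (P * Pᴴ) := by rw [hP'.1.1, mul_one]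
    _ = P * (I1 * I2 * I3 * I4) * Pᴴ := by rw [← mul_assoc, hAP, h5]
    _ = P * I1 * (1 * I2) * (1 * I3) * (1 * I4) * Pᴴ := by simp only [mul_assoc, one_mul]
    _ = P * I1 * (Pᴴ * P * I2) * (Pᴴ * P * I3) * (Pᴴ * P * I4) * Pᴴ := by rw [hP'.1.2]
    _ = _ := by simp only [mul_assoc]

/-- Any unit eigenvector exists. -/
theorem exists_unit_eig {A : Matrix (Fin n ⊕ Fin n) (Fin n ⊕ Fin n) ℂ} (hA : IsSp n A)
    (hn : 0 < n) : ∃ (x : V n) (c : ℂ), A *ᵥ x = c • x ∧ ip x x = 1 := by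
  have hF : Fam A 0 (fun i => i.elim0) (fun i => i.elim0) :=
    ⟨fun i => i.elim0, fun i => i.elim0, fun i => i.elim0⟩
  obtain ⟨x, c, h1, h2, _, _⟩ := exists_next hA hn hF
  exact ⟨x, c, h1, h2⟩

theorem four_of_eig {A : Matrix (Fin n ⊕ Fin n) (Fin n ⊕ Fin n) ℂ} (hA : IsSp n A)
    {x : V n} {c : ℂ} (hx : A *ᵥ x = c • x) (h1 : ip x x = 1) (hn : 0 < n)
    (hc : Odd n → c = 1) :
    ∃ I1 I2 I3 I4, IsInv n I1 ∧ IsInv n I2 ∧ IsInv n I3 ∧ IsInv n I4 ∧
      A = I1 * I2 * I3 * I4 := by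
  obtain ⟨k, rfl⟩ : ∃ k, n = k + 1 := ⟨n - 1, by omega⟩
  obtain ⟨v, z, hF, hl⟩ := exists_fam hA hx h1 k le_rfl
  apply four_of_fam hA hF
  intro i ho hi
  have : i = Fin.last k := by
    apply Fin.ext; simp; omega
  rw [this, hl, hc ho]

/-- The two prepared eigenvectors. -/
theorem two_eig {A : Matrix (Fin n ⊕ Fin n) (Fin n ⊕ Fin n) ℂ} (hA : IsSp n A)
    (hn : 2 ≤ n) : ∃ (p q : V n) (a b : ℂ), A *ᵥ p = a • p ∧ A *ᵥ q = b • q ∧
      ip p p = 1 ∧ ip q q = 1 ∧ ip p q = 0 ∧ ip (jj p) q = 0 ∧ 0 ≤ a.im ∧ b.im ≤ 0 := by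
  obtain ⟨x, c, h1, h2⟩ := exists_unit_eig hA (by omega)
  obtain ⟨v, z, hF, _⟩ := exists_fam hA h1 h2 1 hn
  have hx1 := hF.on 0 0
  have hx2 := hF.on 1 1
  have hx3 := hF.on 0 1
  have hx4 := hF.sk 0 1
  rw [if_pos rfl] at hx1 hx2
  rw [if_neg (by decide)] at hx3
  have hx5 := hF.eig 0
  have hx6 := hF.eig 1
  generalize v 0 = p0 at *
  generalize v 1 = q0 at *
  generalize z 0 = a0 at *
  generalize z 1 = b0 at *
  -- choose p
  obtain ⟨p, a, e1, e2, e3, e4, e5⟩ : ∃ (p : V n) (a : ℂ), A *ᵥ p = a • p ∧ ip p p = 1 ∧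
      ip p q0 = 0 ∧ ip (jj p) q0 = 0 ∧ 0 ≤ a.im := by
    by_cases h : 0 ≤ a0.im
    · exact ⟨p0, a0, hx5, hx1, hx3, hx4, h⟩
    · refine ⟨jj p0, star a0, eig_jj hA hx5, ?_, hx4, ?_, ?_⟩
      · rw [ip_jj_jj, hx1, star_one]
      · rw [jj_jj]
        have : ip (-p0) q0 = - ip p0 q0 := by simp [ip]
        rw [this, hx3, neg_zero]
      · simp only [Complex.star_def, Complex.conj_im]; linarith [not_le.mp h]
  by_cases h : b0.im ≤ 0
  · exact ⟨p, q0, a, b0, e1, hx6, e2, hx2, e3, e4, e5, h⟩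
  · refine ⟨p, jj q0, a, star b0, e1, eig_jj hA hx6, e2, ?_, ?_, ?_, e5, ?_⟩
    · rw [ip_jj_jj, hx2, star_one]
    · rw [← ip_star, ip_jj_swap, e4, neg_zero, star_zero]
    · rw [ip_jj_jj, e3, star_zero]
    · simp only [Complex.star_def, Complex.conj_im]; linarith [not_le.mp h]

/-- There is an involution making one an eigenvalue. -/
theorem exists_refl {A : Matrix (Fin n ⊕ Fin n) (Fin n ⊕ Fin n) ℂ} (hA : IsSp n A)
    (hn : 2 ≤ n) : ∃ (K : Matrix (Fin n ⊕ Fin n) (Fin n ⊕ Fin n) ℂ) (x : V n),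
      IsInv n K ∧ x ≠ 0 ∧ (A * K) *ᵥ x = x := by
  obtain ⟨p, q, a, b, e1, e2, e3, e4, e5, e6, e7, e8⟩ := two_eig hA hn
  have hp0 : p ≠ 0 := by rintro rfl; simp [ip] at e3
  have hq0 : q ≠ 0 := by rintro rfl; simp [ip] at e4
  have ha := norm_one hA hp0 e1
  have hb := norm_one hA hq0 e2
  -- coefficients
  obtain ⟨α, β, hαβ, hsum⟩ : ∃ α β : ℝ, (0 < α ^ 2 + β ^ 2) ∧ α ^ 2 * a.im + β ^ 2 * b.im = 0 := by
    by_cases h : a.im = 0
    · exact ⟨1, 0, by norm_num, by rw [h]; ring⟩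
    · have h' : 0 < a.im := lt_of_le_of_ne e7 (Ne.symm h)
      refine ⟨Real.sqrt (-b.im), Real.sqrt a.im, ?_, ?_⟩
      · rw [Real.sq_sqrt (by linarith), Real.sq_sqrt e7]; linarith
      · rw [Real.sq_sqrt (by linarith), Real.sq_sqrt e7]; ring
  set x : V n := (α : ℂ) • p + (β : ℂ) • q with hx
  set y : V n := ((α : ℂ) * star a) • p + ((β : ℂ) * star b) • q with hy
  have e5' : ip q p = 0 := by rw [← ip_star, e5, star_zero]
  have e6' : ip (jj q) p = 0 := by rw [ip_jj_swap, e6, neg_zero]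
  have e9 : ip (jj p) p = 0 := ip_jj_self p
  have e10 : ip (jj q) q = 0 := ip_jj_self q
  have hsα : star (α : ℂ) = α := by simp
  have hsβ : star (β : ℂ) = β := by simp
  have hxx : ip x x = ((α ^ 2 + β ^ 2 : ℝ) : ℂ) := by
    simp only [hx, ip_add_left, ip_add_right, ip_smul_left, ip_smul_right, e3, e4, e5, e5', hsα,
      hsβ]
    push_cast; ring
  have hyy : ip y y = ((α ^ 2 + β ^ 2 : ℝ) : ℂ) := by
    simp only [hy, ip_add_left, ip_add_right, ip_smul_left, ip_smul_right, e3, e4, e5, e5', hsα,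
      hsβ, star_mul', star_star]
    push_cast
    linear_combination (α : ℂ) ^ 2 * ha + (β : ℂ) ^ 2 * hb
  have hxy : ip x y = (α : ℂ) ^ 2 * star a + (β : ℂ) ^ 2 * star b := by
    simp only [hx, hy, ip_add_left, ip_add_right, ip_smul_left, ip_smul_right, e3, e4, e5, e5',
      hsα, hsβ]
    ring
  have hyx : ip y x = (α : ℂ) ^ 2 * a + (β : ℂ) ^ 2 * b := by
    rw [← ip_star, hxy]
    simp only [star_add, star_mul', star_pow, star_star, hsα, hsβ]
  have hreal : ip x y = ip y x := by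
    rw [hxy, hyx]
    apply Complex.ext
    · simp [pow_two]
    · have h1 : ((α : ℂ) ^ 2 * star a + (β : ℂ) ^ 2 * star b).im = -(α ^ 2 * a.im + β ^ 2 * b.im) := by
        simp [pow_two]; ring
      have h2 : ((α : ℂ) ^ 2 * a + (β : ℂ) ^ 2 * b).im = (α ^ 2 * a.im + β ^ 2 * b.im) := by
        simp [pow_two]
      rw [h1, h2, hsum, neg_zero]
  have hjxy : ip (jj x) y = 0 := by
    simp only [hx, hy, jj_add, jj_smul, ip_add_left, ip_add_right, ip_smul_left, ip_smul_right,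
      e6, e6', e9, e10]
    ring
  have hjyx : ip (jj y) x = 0 := by rw [ip_jj_swap, hjxy, neg_zero]
  have hAy : A *ᵥ y = x := by
    simp only [hy, hx, mulVec_add, mulVec_smul, e1, e2, smul_smul]
    congr 2
    · rw [mul_assoc, ha, mul_one]
    · rw [mul_assoc, hb, mul_one]
  have hx0 : x ≠ 0 := by
    intro h
    rw [h] at hxx
    have : ((α ^ 2 + β ^ 2 : ℝ) : ℂ) = 0 := by rw [← hxx]; simp [ip]
    have h3 : α ^ 2 + β ^ 2 = 0 := by exact_mod_cast this
    linarith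
  by_cases hu : x - y = 0
  · have : y = x := (sub_eq_zero.mp hu).symm
    refine ⟨1, x, isInv_one, hx0, ?_⟩
    rw [mul_one]
    calc A *ᵥ x = A *ᵥ y := by rw [this]
      _ = x := hAy
  · obtain ⟨r, hr, hr2⟩ := ip_self_pos hu
    refine ⟨refl (x - y) r, x, refl_isInv hr hr2, hx0, ?_⟩
    have hK : refl (x - y) r *ᵥ x = y := by
      rw [refl_mulVec]
      have h1 : ip (jj (x - y)) x = 0 := by
        rw [jj_sub, ip_sub_left, ip_jj_self, hjyx, sub_zero]
      have h2 : 2 * ip (x - y) x = (r : ℂ) := by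
        rw [← hr2]
        simp only [ip_sub_left, ip_sub_right, hxx, hyy, hreal]
        ring
      have hr0 : (r : ℂ) ≠ 0 := by exact_mod_cast hr.ne'
      have h3 : (2 / (r : ℂ)) * ip (x - y) x = 1 := by
        field_simp
        linear_combination h2
      rw [h1, zero_smul, add_zero, smul_smul, h3, one_smul]
      abel
    rw [← mulVec_mulVec, hK, hAy]

theorem five {A : Matrix (Fin n ⊕ Fin n) (Fin n ⊕ Fin n) ℂ} (hA : IsSp n A)
    (hn : 2 ≤ n) : ∃ I1 I2 I3 I4 I5, IsInv n I1 ∧ IsInv n I2 ∧ IsInv n I3 ∧ IsInv n I4 ∧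
      IsInv n I5 ∧ A = I1 * I2 * I3 * I4 * I5 := by
  obtain ⟨K, x, hK, hx0, hx⟩ := exists_refl hA hn
  have hAK := isSp_mul hA hK.1
  obtain ⟨t, ht, ht2⟩ := normalize hx0
  obtain ⟨I1, I2, I3, I4, h1, h2, h3, h4, h5⟩ := four_of_eig hAK (x := t • x) (c := 1)
    (by rw [mulVec_smul, hx, one_smul]) ht2 (by omega) (fun _ => rfl)
  refine ⟨I1, I2, I3, I4, K, h1, h2, h3, h4, hK, ?_⟩
  rw [← h5, mul_assoc, hK.2, mul_one]

/-- For even `n` four involutions suffice. -/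
theorem four_even {A : Matrix (Fin n ⊕ Fin n) (Fin n ⊕ Fin n) ℂ} (hA : IsSp n A)
    (hn : 2 ≤ n) (he : Even n) : ∃ I1 I2 I3 I4, IsInv n I1 ∧ IsInv n I2 ∧ IsInv n I3 ∧
      IsInv n I4 ∧ A = I1 * I2 * I3 * I4 := by
  obtain ⟨x, c, h1, h2⟩ := exists_unit_eig hA (by omega)
  exact four_of_eig hA h1 h2 (by omega) (fun ho => absurd he (Nat.not_even_iff_odd.mpr ho))

end Pool.Agent.H16.Spn
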